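import Mathlib

/-!
# Patterns
-/

set_option autoImplicit false

namespace Pool.Agent.Lib.MP_09f634_al.Cex

/-- the letters `1, ..., 5` -/
def lt (a : ℕ) : Bool := decide (1 ≤ a ∧ a ≤ 5)

/-- first template -/
def T1 : List ℕ := [0,1,2,0,2,0,2,0,3,0,3,0,3,0,4,0,4,0,4,0,5,5,5,0]

/-- second template -/
def T2 : List ℕ := [0,1,0,2,2,2,0,3,0,3,0,3,0,4,0,4,0,4,0,5,0,5,0,5]

/-- `x w1 w1 w1 x w2 w2 w2 x w3 w3 w3 x` -/
def patB (x : ℕ) (w1 w2 w3 : List ℕ) : List ℕ :=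
  x :: (w1 ++ (w1 ++ (w1 ++ x :: (w2 ++ (w2 ++ (w2 ++ x :: (w3 ++ (w3 ++ (w3 ++ [x])))))))))

/-- `w1 x w1 x w1 w2 x w2 x w2 w3 x w3 x w3` -/
def patA (x : ℕ) (w1 w2 w3 : List ℕ) : List ℕ :=
  w1 ++ x :: (w1 ++ x :: (w1 ++ (w2 ++ x :: (w2 ++ x :: (w2 ++ (w3 ++ x :: (w3 ++ x :: w3)))))))

/-- the word `v` has a factor `x x` or a factor of the form `patB` or `patA` -/
def Bad (x : ℕ) (v : List ℕ) : Prop :=
  [x, x] <:+: v ∨ ∃ w1 w2 w3 : List ℕ, w1 ≠ [] ∧ w2 ≠ [] ∧ w3 ≠ [] ∧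
    (patB x w1 w2 w3 <:+: v ∨ patA x w1 w2 w3 <:+: v)

lemma Bad.mono {x : ℕ} {u v : List ℕ} (h : Bad x u) (huv : u <:+: v) : Bad x v := by
  rcases h with h | ⟨w1, w2, w3, h1, h2, h3, h | h⟩
  · exact Or.inl (h.trans huv)
  · exact Or.inr ⟨w1, w2, w3, h1, h2, h3, Or.inl (h.trans huv)⟩
  · exact Or.inr ⟨w1, w2, w3, h1, h2, h3, Or.inr (h.trans huv)⟩

lemma infix_flatMap {α β : Type} {u v : List α} (θ : α → List β) (h : u <:+: v) :
    u.flatMap θ <:+: v.flatMap θ := by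
  obtain ⟨p, q, rfl⟩ := h
  exact ⟨p.flatMap θ, q.flatMap θ, by simp [List.flatMap_append]⟩

lemma flatMap_ne_nil {α β : Type} {u v : List α} (θ : α → List β) (hu : u ≠ [])
    (hv : ∀ a ∈ v, θ a ≠ []) (huv : ∀ a ∈ u, a ∈ v) : u.flatMap θ ≠ [] := by
  obtain ⟨a, u', rfl⟩ := List.exists_cons_of_ne_nil hu
  have := hv a (huv a (by simp))
  simp [this]

lemma mem_patB_left {x : ℕ} {w1 w2 w3 : List ℕ} :
    (∀ a ∈ w1, a ∈ patB x w1 w2 w3) ∧ (∀ a ∈ w2, a ∈ patB x w1 w2 w3) ∧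
      (∀ a ∈ w3, a ∈ patB x w1 w2 w3) := by
  refine ⟨fun a ha => ?_, fun a ha => ?_, fun a ha => ?_⟩ <;> simp [patB, ha]

lemma mem_patA_left {x : ℕ} {w1 w2 w3 : List ℕ} :
    (∀ a ∈ w1, a ∈ patA x w1 w2 w3) ∧ (∀ a ∈ w2, a ∈ patA x w1 w2 w3) ∧
      (∀ a ∈ w3, a ∈ patA x w1 w2 w3) := by
  refine ⟨fun a ha => ?_, fun a ha => ?_, fun a ha => ?_⟩ <;> simp [patA, ha]

lemma Bad.morph {x y : ℕ} {v : List ℕ} (θ : ℕ → List ℕ) (hx : θ x = [y])
    (hne : ∀ a ∈ v, θ a ≠ []) (h : Bad x v) : Bad y (v.flatMap θ) := by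
  rcases h with h | ⟨w1, w2, w3, h1, h2, h3, h | h⟩
  · left
    have := infix_flatMap θ h
    simpa [hx] using this
  · right
    have hm := mem_patB_left (x := x) (w1 := w1) (w2 := w2) (w3 := w3)
    refine ⟨w1.flatMap θ, w2.flatMap θ, w3.flatMap θ,
      flatMap_ne_nil θ h1 hne (fun a ha => h.subset (hm.1 a ha)),
      flatMap_ne_nil θ h2 hne (fun a ha => h.subset (hm.2.1 a ha)),
      flatMap_ne_nil θ h3 hne (fun a ha => h.subset (hm.2.2 a ha)), Or.inl ?_⟩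
    have := infix_flatMap θ h
    simpa [patB, hx, List.flatMap_append] using this
  · right
    have hm := mem_patA_left (x := x) (w1 := w1) (w2 := w2) (w3 := w3)
    refine ⟨w1.flatMap θ, w2.flatMap θ, w3.flatMap θ,
      flatMap_ne_nil θ h1 hne (fun a ha => h.subset (hm.1 a ha)),
      flatMap_ne_nil θ h2 hne (fun a ha => h.subset (hm.2.1 a ha)),
      flatMap_ne_nil θ h3 hne (fun a ha => h.subset (hm.2.2 a ha)), Or.inr ?_⟩
    have := infix_flatMap θ h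
    simpa [patA, hx, List.flatMap_append] using this

/-! ### The structural lemma -/

/-- light word of the templates -/
def mu : List ℕ := [1,2,2,2,3,3,3,4,4,4,5,5,5]

/-- no two adjacent heavy letters -/
def NoHH (v : List ℕ) : Prop := ∀ a b, lt a = false → lt b = false → ¬ [a, b] <:+: v

lemma cube_mu_aux : ∀ (a : Fin 14) (b : Fin 5), 1 ≤ b.val → a.val + 3 * b.val ≤ 13 →
    ((mu.drop a.val).take b.val = (mu.drop (a.val + b.val)).take b.val ∧
      (mu.drop a.val).take b.val = (mu.drop (a.val + 2 * b.val)).take b.val) →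
    b.val = 1 ∧ (a.val = 1 ∨ a.val = 4 ∨ a.val = 7 ∨ a.val = 10) := by
  decide

lemma cube_mu {A u B : List ℕ} (h : mu = A ++ (u ++ (u ++ (u ++ B)))) (hu : u ≠ []) :
    u.length = 1 ∧ (A.length = 1 ∨ A.length = 4 ∨ A.length = 7 ∨ A.length = 10) := by
  have hlen := congrArg List.length h
  simp only [List.length_append] at hlen
  have h13 : mu.length = 13 := rfl
  have hpos : 1 ≤ u.length := List.length_pos_iff.mpr hu
  have e1 : (mu.drop A.length).take u.length = u := by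
    rw [h]; simp
  have e2 : (mu.drop (A.length + u.length)).take u.length = u := by
    rw [h, ← List.drop_drop]; simp
  have e3 : (mu.drop (A.length + 2 * u.length)).take u.length = u := by
    rw [h, ← List.drop_drop, two_mul, ← List.drop_drop]; simp
  exact cube_mu_aux ⟨A.length, by omega⟩ ⟨u.length, by omega⟩ hpos (by simp only; omega)
    ⟨by simp only [e1, e2], by simp only [e1, e3]⟩

end Pool.Agent.Lib.MP_09f634_al.Cex
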