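import Mathlib
import Pool.Agent.Lib.MP_09f634_al.Cex.Pat

/-!
# The structural lemma
-/

set_option autoImplicit false

namespace Pool.Agent.Lib.MP_09f634_al.Cex

lemma nohh_false {v s t : List ℕ} {a b : ℕ} (hH : NoHH v) (e : v = s ++ a :: b :: t)
    (ha : lt a = false) (hb : lt b = false) : False :=
  hH a b ha hb ⟨s, t, by rw [e]; simp⟩

lemma filter_ne_nil {w v s t : List ℕ} {x : ℕ} (hw : w ≠ []) (hx : lt x = false) (hH : NoHH v)
    (e : v = s ++ x :: (w ++ t)) : w.filter lt ≠ [] := by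
  intro h
  obtain ⟨a, w', rfl⟩ := List.exists_cons_of_ne_nil hw
  rw [List.filter_eq_nil_iff] at h
  have := h a (by simp)
  exact nohh_false hH (s := s) (t := w' ++ t) (by rw [e]; rfl) hx (by simpa using this)

lemma single_of {w v s t s' t' : List ℕ} {c x : ℕ} (hw : w.filter lt = [c]) (hx : lt x = false)
    (hH : NoHH v) (e1 : v = s ++ x :: (w ++ t)) (e2 : v = s' ++ (w ++ x :: t')) : w = [c] := by
  rw [List.filter_eq_cons_iff] at hw
  obtain ⟨h1, h2, rfl, hh1, hc, hh2⟩ := hw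
  rw [List.filter_eq_nil_iff] at hh2
  have e3 : h1 = [] := by
    by_contra hne
    obtain ⟨a, h1', rfl⟩ := List.exists_cons_of_ne_nil hne
    exact nohh_false hH (s := s) (a := x) (b := a) (t := h1' ++ c :: h2 ++ t)
      (by rw [e1]; simp) hx (by simpa using hh1 a (by simp))
  have e4 : h2 = [] := by
    by_contra hne
    obtain ⟨h2', b, rfl⟩ : ∃ h2' b, h2 = h2' ++ [b] :=
      ⟨h2.dropLast, h2.getLast hne, (List.dropLast_append_getLast hne).symm⟩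
    exact nohh_false hH (s := s' ++ (h1 ++ c :: h2')) (a := b) (b := x) (t := t')
      (by rw [e2]; simp) (by simpa using hh2 b (by simp)) hx
  rw [e3, e4]
  rfl

lemma three_cubes {A u1 u2 u3 B : List ℕ}
    (h : mu = A ++ (u1 ++ (u1 ++ (u1 ++ (u2 ++ (u2 ++ (u2 ++ (u3 ++ (u3 ++ (u3 ++ B))))))))))
    (h1 : u1 ≠ []) (h2 : u2 ≠ []) (h3 : u3 ≠ []) :
    (A = [1] ∧ u1 = [2] ∧ u2 = [3] ∧ u3 = [4]) ∨
      (A = [1, 2, 2, 2] ∧ u1 = [3] ∧ u2 = [4] ∧ u3 = [5]) := by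
  have c1 := cube_mu h h1
  have c2 := cube_mu (A := A ++ (u1 ++ (u1 ++ u1))) (u := u2)
    (B := u3 ++ (u3 ++ (u3 ++ B))) (by rw [h]; simp) h2
  have c3 := cube_mu (A := A ++ (u1 ++ (u1 ++ (u1 ++ (u2 ++ (u2 ++ u2)))))) (u := u3)
    (B := B) (by rw [h]; simp) h3
  obtain ⟨a1, ha1⟩ := List.length_eq_one_iff.mp c1.1
  obtain ⟨a2, ha2⟩ := List.length_eq_one_iff.mp c2.1
  obtain ⟨a3, ha3⟩ := List.length_eq_one_iff.mp c3.1
  subst ha1 ha2 ha3
  simp only [List.length_append, List.length_cons, List.length_nil] at c1 c2 c3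
  have hA : A.length = 1 ∨ A.length = 4 := by omega
  rcases hA with hA | hA
  · left
    obtain ⟨b, hb⟩ := List.length_eq_one_iff.mp hA
    subst hb
    simp only [mu, List.cons_append, List.nil_append, List.cons.injEq] at h
    obtain ⟨rfl, rfl, -, -, rfl, -, -, rfl, -⟩ := h
    simp
  · right
    match A, hA with
    | [b1, b2, b3, b4], _ =>
      simp only [mu, List.cons_append, List.nil_append, List.cons.injEq] at h
      obtain ⟨rfl, rfl, rfl, rfl, rfl, -, -, rfl, -, -, rfl, -⟩ := h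
      simp

theorem sl_B {x : ℕ} {P Q w1 w2 w3 v : List ℕ} (hv : v = P ++ (patB x w1 w2 w3 ++ Q))
    (hx : lt x = false) (hH : NoHH v) (hmu : v.filter lt = mu) (h1 : w1 ≠ []) (h2 : w2 ≠ [])
    (h3 : w3 ≠ []) :
    (P.filter lt = [1] ∧ w1 = [2] ∧ w2 = [3] ∧ w3 = [4]) ∨
      (P.filter lt = [1, 2, 2, 2] ∧ w1 = [3] ∧ w2 = [4] ∧ w3 = [5]) := by
  have f1 : w1.filter lt ≠ [] := filter_ne_nil (s := P) h1 hx hH (by rw [hv]; simp [patB]; rfl)
  have f2 : w2.filter lt ≠ [] := filter_ne_nil (s := P ++ x :: (w1 ++ (w1 ++ w1))) h2 hx hH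
    (by rw [hv]; simp [patB]; rfl)
  have f3 : w3.filter lt ≠ [] := filter_ne_nil
    (s := P ++ x :: (w1 ++ (w1 ++ (w1 ++ x :: (w2 ++ (w2 ++ w2)))))) h3 hx hH
    (by rw [hv]; simp [patB]; rfl)
  have hm : mu = P.filter lt ++ (w1.filter lt ++ (w1.filter lt ++ (w1.filter lt ++
      (w2.filter lt ++ (w2.filter lt ++ (w2.filter lt ++ (w3.filter lt ++ (w3.filter lt ++
      (w3.filter lt ++ Q.filter lt))))))))) := by
    rw [← hmu, hv]
    simp [patB, List.filter_append, hx]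
  have key := three_cubes hm f1 f2 f3
  have s1 : ∀ c, w1.filter lt = [c] → w1 = [c] := fun c hc =>
    single_of hc hx hH (s := P) (s' := P ++ x :: (w1 ++ w1))
      (by rw [hv]; simp [patB]; rfl) (by rw [hv]; simp [patB]; rfl)
  have s2 : ∀ c, w2.filter lt = [c] → w2 = [c] := fun c hc =>
    single_of hc hx hH (s := P ++ x :: (w1 ++ (w1 ++ w1)))
      (s' := P ++ x :: (w1 ++ (w1 ++ (w1 ++ x :: (w2 ++ w2)))))
      (by rw [hv]; simp [patB]; rfl) (by rw [hv]; simp [patB]; rfl)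
  have s3 : ∀ c, w3.filter lt = [c] → w3 = [c] := fun c hc =>
    single_of hc hx hH (s := P ++ x :: (w1 ++ (w1 ++ (w1 ++ x :: (w2 ++ (w2 ++ w2))))))
      (s' := P ++ x :: (w1 ++ (w1 ++ (w1 ++ x :: (w2 ++ (w2 ++ (w2 ++ x :: (w3 ++ w3))))))))
      (by rw [hv]; simp [patB]; rfl) (by rw [hv]; simp [patB]; rfl)
  rcases key with ⟨k0, k1, k2, k3⟩ | ⟨k0, k1, k2, k3⟩
  · exact Or.inl ⟨k0, s1 _ k1, s2 _ k2, s3 _ k3⟩
  · exact Or.inr ⟨k0, s1 _ k1, s2 _ k2, s3 _ k3⟩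

theorem sl_A {x : ℕ} {P Q w1 w2 w3 v : List ℕ} (hv : v = P ++ (patA x w1 w2 w3 ++ Q))
    (hx : lt x = false) (hH : NoHH v) (hmu : v.filter lt = mu) (h1 : w1 ≠ []) (h2 : w2 ≠ [])
    (h3 : w3 ≠ []) :
    (P.filter lt = [1] ∧ w1 = [2] ∧ w2 = [3] ∧ w3 = [4]) ∨
      (P.filter lt = [1, 2, 2, 2] ∧ w1 = [3] ∧ w2 = [4] ∧ w3 = [5]) := by
  have f1 : w1.filter lt ≠ [] := filter_ne_nil (s := P ++ w1) h1 hx hH
    (by rw [hv]; simp [patA]; rfl)
  have f2 : w2.filter lt ≠ [] := filter_ne_nil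
    (s := P ++ (w1 ++ x :: (w1 ++ x :: (w1 ++ w2)))) h2 hx hH
    (by rw [hv]; simp [patA]; rfl)
  have f3 : w3.filter lt ≠ [] := filter_ne_nil
    (s := P ++ (w1 ++ x :: (w1 ++ x :: (w1 ++ (w2 ++ x :: (w2 ++ x :: (w2 ++ w3))))))) h3 hx hH
    (by rw [hv]; simp [patA]; rfl)
  have hm : mu = P.filter lt ++ (w1.filter lt ++ (w1.filter lt ++ (w1.filter lt ++
      (w2.filter lt ++ (w2.filter lt ++ (w2.filter lt ++ (w3.filter lt ++ (w3.filter lt ++
      (w3.filter lt ++ Q.filter lt))))))))) := by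
    rw [← hmu, hv]
    simp [patA, List.filter_append, hx]
  have key := three_cubes hm f1 f2 f3
  have s1 : ∀ c, w1.filter lt = [c] → w1 = [c] := fun c hc =>
    single_of hc hx hH (s := P ++ w1) (s' := P)
      (by rw [hv]; simp [patA]; rfl) (by rw [hv]; simp [patA]; rfl)
  have s2 : ∀ c, w2.filter lt = [c] → w2 = [c] := fun c hc =>
    single_of hc hx hH (s := P ++ (w1 ++ x :: (w1 ++ x :: (w1 ++ w2))))
      (s' := P ++ (w1 ++ x :: (w1 ++ x :: w1)))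
      (by rw [hv]; simp [patA]; rfl) (by rw [hv]; simp [patA]; rfl)
  have s3 : ∀ c, w3.filter lt = [c] → w3 = [c] := fun c hc =>
    single_of hc hx hH
      (s := P ++ (w1 ++ x :: (w1 ++ x :: (w1 ++ (w2 ++ x :: (w2 ++ x :: (w2 ++ w3)))))))
      (s' := P ++ (w1 ++ x :: (w1 ++ x :: (w1 ++ (w2 ++ x :: (w2 ++ x :: w2))))))
      (by rw [hv]; simp [patA]; rfl) (by rw [hv]; simp [patA]; rfl)
  rcases key with ⟨k0, k1, k2, k3⟩ | ⟨k0, k1, k2, k3⟩
  · exact Or.inl ⟨k0, s1 _ k1, s2 _ k2, s3 _ k3⟩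
  · exact Or.inr ⟨k0, s1 _ k1, s2 _ k2, s3 _ k3⟩

end Pool.Agent.Lib.MP_09f634_al.Cex
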