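import Mathlib
import Pool.Agent.Lib.MP_09f634_al.Cex.SL

/-!
# Marked templates
-/

set_option autoImplicit false

namespace Pool.Agent.Lib.MP_09f634_al.Cex

/-- the heavy letters after exactly `k` light letters -/
def gap : ℕ → List ℕ → List ℕ
  | _, [] => []
  | 0, a :: v => if lt a then [] else a :: gap 0 v
  | k + 1, a :: v => if lt a then gap k v else gap (k + 1) v

lemma gap_append (P R : List ℕ) :
    gap (P.filter lt).length (P ++ R) = gap (P.filter lt).length P ++ gap 0 R := by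
  induction P with
  | nil => simp [gap]
  | cons a P ih =>
    by_cases ha : lt a
    · simp [List.filter_cons, ha, gap, ih]
    · have ha' : lt a = false := by simpa using ha
      cases hn : (P.filter lt).length with
      | zero =>
        rw [hn] at ih
        simp [List.filter_cons, ha', hn, gap, ih]
      | succ n =>
        rw [hn] at ih
        simp [List.filter_cons, ha', hn, gap, ih]

lemma gap_append_succ (P R : List ℕ) (k : ℕ) :
    gap ((P.filter lt).length + (k + 1)) (P ++ R) = gap (k + 1) R := by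
  induction P with
  | nil => simp
  | cons a P ih =>
    by_cases ha : lt a
    · have e : ((a :: P).filter lt).length + (k + 1) = ((P.filter lt).length + (k + 1)) + 1 := by
        simp [List.filter_cons, ha]; omega
      rw [e]
      simp [gap, ha, ih]
    · have ha' : lt a = false := by simpa using ha
      have e : ((a :: P).filter lt).length + (k + 1) = ((P.filter lt).length + k) + 1 := by
        simp [List.filter_cons, ha']; omega
      rw [e]
      simp only [List.cons_append, gap, ha', Bool.false_eq_true, if_false]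
      exact ih

lemma gap_filter (p : ℕ → Bool) (hp : ∀ a, lt a = true → p a = true) (v : List ℕ) (k : ℕ) :
    gap k (v.filter p) = (gap k v).filter p := by
  induction v generalizing k with
  | nil => cases k <;> simp [gap]
  | cons a v ih =>
    by_cases ha : lt a
    · cases k with
      | zero => simp [List.filter_cons, hp a ha, gap, ha]
      | succ k => simp [List.filter_cons, hp a ha, gap, ha, ih]
    · have ha' : lt a = false := by simpa using ha
      by_cases hpa : p a
      · cases k with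
        | zero => simp [List.filter_cons, hpa, gap, ha', ih]
        | succ k => simp [List.filter_cons, hpa, gap, ha', ih]
      · cases k with
        | zero => simp [List.filter_cons, hpa, gap, ha', ih]
        | succ k => simp [List.filter_cons, hpa, gap, ha', ih]

lemma lt_one : lt 1 = true := rfl
lemma lt_two : lt 2 = true := rfl
lemma lt_three : lt 3 = true := rfl
lemma lt_four : lt 4 = true := rfl
lemma lt_five : lt 5 = true := rfl

lemma gap_patB {x a b c : ℕ} (hx : lt x = false) (ha : lt a = true) (hb : lt b = true)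
    (hc : lt c = true) (Q : List ℕ) :
    gap 0 (patB x [a] [b] [c] ++ Q) = [x] ∧ gap 1 (patB x [a] [b] [c] ++ Q) = [] ∧
    gap 2 (patB x [a] [b] [c] ++ Q) = [] ∧ gap 3 (patB x [a] [b] [c] ++ Q) = [x] ∧
    gap 4 (patB x [a] [b] [c] ++ Q) = [] ∧ gap 5 (patB x [a] [b] [c] ++ Q) = [] ∧
    gap 6 (patB x [a] [b] [c] ++ Q) = [x] ∧ gap 7 (patB x [a] [b] [c] ++ Q) = [] ∧
    gap 8 (patB x [a] [b] [c] ++ Q) = [] ∧ gap 9 (patB x [a] [b] [c] ++ Q) = x :: gap 0 Q := by
  simp [patB, gap, hx, ha, hb, hc]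

lemma gap_patA {x a b c : ℕ} (hx : lt x = false) (ha : lt a = true) (hb : lt b = true)
    (hc : lt c = true) (Q : List ℕ) :
    gap 1 (patA x [a] [b] [c] ++ Q) = [x] ∧ gap 2 (patA x [a] [b] [c] ++ Q) = [x] ∧
    gap 3 (patA x [a] [b] [c] ++ Q) = [] ∧ gap 4 (patA x [a] [b] [c] ++ Q) = [x] ∧
    gap 5 (patA x [a] [b] [c] ++ Q) = [x] ∧ gap 6 (patA x [a] [b] [c] ++ Q) = [] ∧
    gap 7 (patA x [a] [b] [c] ++ Q) = [x] ∧ gap 8 (patA x [a] [b] [c] ++ Q) = [x] := by
  simp [patA, gap, hx, ha, hb, hc]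

/-- `T1` with the zeros replaced by marks -/
def mk1 (m : ℕ → ℕ) : List ℕ :=
  [m 1, 1, 2, m 2, 2, m 3, 2, m 4, 3, m 5, 3, m 6, 3, m 7, 4, m 8, 4, m 9, 4, m 10, 5, 5, 5, m 11]

/-- `T2` with the zeros replaced by marks -/
def mk2 (m : ℕ → ℕ) : List ℕ :=
  [m 1, 1, m 2, 2, 2, 2, m 3, 3, m 4, 3, m 5, 3, m 6, 4, m 7, 4, m 8, 4, m 9, 5, m 10, 5, m 11, 5]

lemma gap_mk1 {m : ℕ → ℕ} (hm : ∀ i, lt (m i) = false) :
    gap 1 (mk1 m) = [] ∧ gap 2 (mk1 m) = [m 2] ∧ gap 3 (mk1 m) = [m 3] ∧ gap 4 (mk1 m) = [m 4] ∧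
    gap 5 (mk1 m) = [m 5] ∧ gap 6 (mk1 m) = [m 6] ∧ gap 7 (mk1 m) = [m 7] ∧
    gap 8 (mk1 m) = [m 8] ∧ gap 9 (mk1 m) = [m 9] ∧ gap 10 (mk1 m) = [m 10] ∧
    gap 11 (mk1 m) = [] ∧ gap 12 (mk1 m) = [] ∧ gap 13 (mk1 m) = [m 11] := by
  simp [mk1, gap, hm, lt_one, lt_two, lt_three, lt_four, lt_five]

lemma gap_mk2 {m : ℕ → ℕ} (hm : ∀ i, lt (m i) = false) :
    gap 1 (mk2 m) = [m 2] ∧ gap 2 (mk2 m) = [] ∧ gap 3 (mk2 m) = [] ∧ gap 4 (mk2 m) = [m 3] ∧
    gap 5 (mk2 m) = [m 4] ∧ gap 6 (mk2 m) = [m 5] ∧ gap 7 (mk2 m) = [m 6] ∧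
    gap 8 (mk2 m) = [m 7] ∧ gap 9 (mk2 m) = [m 8] ∧ gap 10 (mk2 m) = [m 9] ∧
    gap 11 (mk2 m) = [m 10] ∧ gap 12 (mk2 m) = [m 11] ∧ gap 13 (mk2 m) = [] := by
  simp [mk2, gap, hm, lt_one, lt_two, lt_three, lt_four, lt_five]

lemma mk1_zero : mk1 (fun _ => 0) = T1 := rfl

lemma mk2_zero : mk2 (fun _ => 0) = T2 := rfl

lemma one_app {m x y : ℕ} {G : List ℕ} (h : [m].filter (fun a => decide (a ≠ y)) = G ++ [x]) :
    m = x := by
  by_cases hm : m = y
  · simp [hm] at h
  · rw [List.filter_cons_of_pos (by simpa using hm), List.filter_nil] at h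
    have := congrArg List.getLast? h
    simpa using this

lemma one_cons {m x y : ℕ} {G : List ℕ} (h : [m].filter (fun a => decide (a ≠ y)) = x :: G) :
    m = x := by
  by_cases hm : m = y
  · simp [hm] at h
  · rw [List.filter_cons_of_pos (by simpa using hm), List.filter_nil] at h
    simp only [List.cons.injEq] at h
    exact h.1

lemma one_nil {m y : ℕ} (h : [m].filter (fun a => decide (a ≠ y)) = []) : m = y := by
  by_contra hm
  rw [List.filter_cons_of_pos (by simpa using hm)] at h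
  simp at h

lemma lt_ne {a y : ℕ} (hy : lt y = false) (ha : lt a = true) : decide (a ≠ y) = true := by
  simp only [decide_eq_true_eq]
  rintro rfl
  rw [ha] at hy
  exact absurd hy (by simp)

lemma filter_lt_ne {u : List ℕ} {y : ℕ} (hy : lt y = false) :
    (u.filter (fun a => decide (a ≠ y))).filter lt = u.filter lt := by
  rw [List.filter_filter]
  apply List.filter_congr
  intro a _
  by_cases ha : lt a
  · rw [ha, lt_ne hy ha]; rfl
  · have ha' : lt a = false := by simpa using ha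
    rw [ha']; rfl

lemma lt_mk1 {m : ℕ → ℕ} (hm : ∀ i, lt (m i) = false) : (mk1 m).filter lt = mu := by
  simp [mk1, List.filter_cons, hm, mu, lt_one, lt_two, lt_three, lt_four, lt_five]

lemma lt_mk2 {m : ℕ → ℕ} (hm : ∀ i, lt (m i) = false) : (mk2 m).filter lt = mu := by
  simp [mk2, List.filter_cons, hm, mu, lt_one, lt_two, lt_three, lt_four, lt_five]

theorem dark1 {m : ℕ → ℕ} {x y : ℕ} (hm : ∀ i, lt (m i) = false) (hx : lt x = false)
    (hy : lt y = false) (hH : NoHH ((mk1 m).filter (fun a => decide (a ≠ y))))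
    (hbad : Bad x ((mk1 m).filter (fun a => decide (a ≠ y)))) :
    (m 4 = x ∧ m 7 = x ∧ m 10 = x ∧ m 11 = x ∧ m 5 = y ∧ m 6 = y ∧ m 8 = y ∧ m 9 = y) ∨
    (m 2 = x ∧ m 3 = x ∧ m 5 = x ∧ m 6 = x ∧ m 8 = x ∧ m 9 = x ∧ m 4 = y ∧ m 7 = y) := by
  set v := (mk1 m).filter (fun a => decide (a ≠ y)) with hv
  have hmu : v.filter lt = mu := by rw [hv, filter_lt_ne hy, lt_mk1 hm]
  have hg : ∀ k, gap k v = (gap k (mk1 m)).filter (fun a => decide (a ≠ y)) := fun k =>
    gap_filter _ (fun a ha => lt_ne hy ha) _ _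
  obtain ⟨q1, q2, q3, q4, q5, q6, q7, q8, q9, q10, q11, q12, q13⟩ := gap_mk1 hm
  rcases hbad with h | ⟨w1, w2, w3, h1, h2, h3, h | h⟩
  · exact absurd h (hH x x hx hx)
  · obtain ⟨P, Q, hPQ⟩ := h
    have e : v = P ++ (patB x w1 w2 w3 ++ Q) := by rw [← hPQ]; simp
    rcases sl_B e hx hH hmu h1 h2 h3 with ⟨k0, rfl, rfl, rfl⟩ | ⟨k0, rfl, rfl, rfl⟩
    · exfalso
      have g1 := gap_append P (patB x [2] [3] [4] ++ Q)
      rw [← e, k0, hg, (gap_patB hx lt_two lt_three lt_four Q).1] at g1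
      simp [q1] at g1
    · left
      have g := gap_append P (patB x [3] [4] [5] ++ Q)
      have gs := gap_append_succ P (patB x [3] [4] [5] ++ Q)
      obtain ⟨p0, p1, p2, p3, p4, p5, p6, p7, p8, p9⟩ := gap_patB hx lt_three lt_four lt_five Q
      rw [← e, k0, hg, p0] at g
      simp only [← e, k0, hg] at gs
      have g5 := gs 0
      have g6 := gs 1
      have g7 := gs 2
      have g8 := gs 3
      have g9 := gs 4
      have g10 := gs 5
      have g13 := gs 8
      simp only [List.length_cons, List.length_nil, Nat.reduceAdd, q4, q5, q6, q7, q8, q9, q10,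
        q13, p1, p2, p3, p4, p5, p6, p9] at g g5 g6 g7 g8 g9 g10 g13
      exact ⟨one_app g, one_cons g7, one_cons g10, one_cons g13, one_nil g5, one_nil g6,
        one_nil g8, one_nil g9⟩
  · obtain ⟨P, Q, hPQ⟩ := h
    have e : v = P ++ (patA x w1 w2 w3 ++ Q) := by rw [← hPQ]; simp
    rcases sl_A e hx hH hmu h1 h2 h3 with ⟨k0, rfl, rfl, rfl⟩ | ⟨k0, rfl, rfl, rfl⟩
    · right
      have gs := gap_append_succ P (patA x [2] [3] [4] ++ Q)
      obtain ⟨p1, p2, p3, p4, p5, p6, p7, p8⟩ := gap_patA hx lt_two lt_three lt_four Q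
      simp only [← e, k0, hg] at gs
      have g2 := gs 0
      have g3 := gs 1
      have g4 := gs 2
      have g5 := gs 3
      have g6 := gs 4
      have g7 := gs 5
      have g8 := gs 6
      have g9 := gs 7
      simp only [List.length_cons, List.length_nil, Nat.reduceAdd, q2, q3, q4, q5, q6, q7, q8, q9,
        p1, p2, p3, p4, p5, p6, p7, p8] at g2 g3 g4 g5 g6 g7 g8 g9
      exact ⟨one_cons g2, one_cons g3, one_cons g5, one_cons g6, one_cons g8, one_cons g9,
        one_nil g4, one_nil g7⟩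
    · exfalso
      have gs := gap_append_succ P (patA x [3] [4] [5] ++ Q)
      obtain ⟨p1, p2, p3, p4, p5, p6, p7, p8⟩ := gap_patA hx lt_three lt_four lt_five Q
      simp only [← e, k0, hg] at gs
      have g11 := gs 6
      simp only [List.length_cons, List.length_nil, Nat.reduceAdd, q11, p7] at g11
      simp at g11

theorem dark2 {m : ℕ → ℕ} {x y : ℕ} (hm : ∀ i, lt (m i) = false) (hx : lt x = false)
    (hy : lt y = false) (hH : NoHH ((mk2 m).filter (fun a => decide (a ≠ y))))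
    (hbad : Bad x ((mk2 m).filter (fun a => decide (a ≠ y)))) :
    (m 2 = x ∧ m 3 = x ∧ m 6 = x ∧ m 9 = x ∧ m 4 = y ∧ m 5 = y ∧ m 7 = y ∧ m 8 = y) ∨
    (m 4 = x ∧ m 5 = x ∧ m 7 = x ∧ m 8 = x ∧ m 10 = x ∧ m 11 = x ∧ m 6 = y ∧ m 9 = y) := by
  set v := (mk2 m).filter (fun a => decide (a ≠ y)) with hv
  have hmu : v.filter lt = mu := by rw [hv, filter_lt_ne hy, lt_mk2 hm]
  have hg : ∀ k, gap k v = (gap k (mk2 m)).filter (fun a => decide (a ≠ y)) := fun k =>
    gap_filter _ (fun a ha => lt_ne hy ha) _ _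
  obtain ⟨q1, q2, q3, q4, q5, q6, q7, q8, q9, q10, q11, q12, q13⟩ := gap_mk2 hm
  rcases hbad with h | ⟨w1, w2, w3, h1, h2, h3, h | h⟩
  · exact absurd h (hH x x hx hx)
  · obtain ⟨P, Q, hPQ⟩ := h
    have e : v = P ++ (patB x w1 w2 w3 ++ Q) := by rw [← hPQ]; simp
    rcases sl_B e hx hH hmu h1 h2 h3 with ⟨k0, rfl, rfl, rfl⟩ | ⟨k0, rfl, rfl, rfl⟩
    · left
      have g := gap_append P (patB x [2] [3] [4] ++ Q)
      have gs := gap_append_succ P (patB x [2] [3] [4] ++ Q)
      obtain ⟨p0, p1, p2, p3, p4, p5, p6, p7, p8, p9⟩ := gap_patB hx lt_two lt_three lt_four Q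
      rw [← e, k0, hg, p0] at g
      simp only [← e, k0, hg] at gs
      have g4 := gs 2
      have g5 := gs 3
      have g6 := gs 4
      have g7 := gs 5
      have g8 := gs 6
      have g9 := gs 7
      have g10 := gs 8
      simp only [List.length_cons, List.length_nil, Nat.reduceAdd, q1, q4, q5, q6, q7, q8, q9, q10,
        p3, p4, p5, p6, p7, p8, p9] at g g4 g5 g6 g7 g8 g9 g10
      exact ⟨one_app g, one_cons g4, one_cons g7, one_cons g10, one_nil g5, one_nil g6,
        one_nil g8, one_nil g9⟩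
    · exfalso
      have gs := gap_append_succ P (patB x [3] [4] [5] ++ Q)
      obtain ⟨p0, p1, p2, p3, p4, p5, p6, p7, p8, p9⟩ := gap_patB hx lt_three lt_four lt_five Q
      simp only [← e, k0, hg] at gs
      have g13 := gs 8
      simp only [List.length_cons, List.length_nil, Nat.reduceAdd, q13, p9] at g13
      simp at g13
  · obtain ⟨P, Q, hPQ⟩ := h
    have e : v = P ++ (patA x w1 w2 w3 ++ Q) := by rw [← hPQ]; simp
    rcases sl_A e hx hH hmu h1 h2 h3 with ⟨k0, rfl, rfl, rfl⟩ | ⟨k0, rfl, rfl, rfl⟩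
    · exfalso
      have gs := gap_append_succ P (patA x [2] [3] [4] ++ Q)
      obtain ⟨p1, p2, p3, p4, p5, p6, p7, p8⟩ := gap_patA hx lt_two lt_three lt_four Q
      simp only [← e, k0, hg] at gs
      have g2 := gs 0
      simp only [List.length_cons, List.length_nil, Nat.reduceAdd, q2, p1] at g2
      simp at g2
    · right
      have gs := gap_append_succ P (patA x [3] [4] [5] ++ Q)
      obtain ⟨p1, p2, p3, p4, p5, p6, p7, p8⟩ := gap_patA hx lt_three lt_four lt_five Q
      simp only [← e, k0, hg] at gs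
      have g5 := gs 0
      have g6 := gs 1
      have g7 := gs 2
      have g8 := gs 3
      have g9 := gs 4
      have g10 := gs 5
      have g11 := gs 6
      have g12 := gs 7
      simp only [List.length_cons, List.length_nil, Nat.reduceAdd, q5, q6, q7, q8, q9, q10, q11,
        q12, p1, p2, p3, p4, p5, p6, p7, p8] at g5 g6 g7 g8 g9 g10 g11 g12
      exact ⟨one_cons g5, one_cons g6, one_cons g8, one_cons g9, one_cons g11, one_cons g12,
        one_nil g7, one_nil g10⟩

end Pool.Agent.Lib.MP_09f634_al.Cex
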