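import Mathlib
import Pool.Agent.Lib.MP_09f634_al.Cex.Marks

/-!
# Uniqueness of marks
-/

set_option autoImplicit false

namespace Pool.Agent.Lib.MP_09f634_al.Cex

lemma nohh_of_gap {v : List ℕ} (h : ∀ k, (gap k v).length ≤ 1) : NoHH v := by
  rintro a b ha hb ⟨s, t, e⟩
  have e' : v = s ++ a :: b :: t := by rw [← e]; simp
  have h1 := h (s.filter lt).length
  rw [e', gap_append] at h1
  simp [gap, ha, hb] at h1
  omega

lemma gap_len_filter {v : List ℕ} {y : ℕ} (hy : lt y = false) (h : ∀ k, (gap k v).length ≤ 1)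
    (k : ℕ) : (gap k (v.filter (fun a => decide (a ≠ y)))).length ≤ 1 := by
  rw [gap_filter _ (fun a ha => lt_ne hy ha)]
  exact (List.length_filter_le _ _).trans (h k)

lemma gap_len_mk1 {m : ℕ → ℕ} (hm : ∀ i, lt (m i) = false) (k : ℕ) :
    (gap k (mk1 m)).length ≤ 1 := by
  obtain ⟨q1, q2, q3, q4, q5, q6, q7, q8, q9, q10, q11, q12, q13⟩ := gap_mk1 hm
  rcases k with _ | _ | _ | _ | _ | _ | _ | _ | _ | _ | _ | _ | _ | _ | k
  · simp [mk1, gap, hm, lt_one]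
  · simp [q1]
  · simp [q2]
  · simp [q3]
  · simp [q4]
  · simp [q5]
  · simp [q6]
  · simp [q7]
  · simp [q8]
  · simp [q9]
  · simp [q10]
  · simp [q11]
  · simp [q12]
  · simp [q13]
  · simp [mk1, gap, hm, lt_one, lt_two, lt_three, lt_four, lt_five]

lemma gap_len_mk2 {m : ℕ → ℕ} (hm : ∀ i, lt (m i) = false) (k : ℕ) :
    (gap k (mk2 m)).length ≤ 1 := by
  obtain ⟨q1, q2, q3, q4, q5, q6, q7, q8, q9, q10, q11, q12, q13⟩ := gap_mk2 hm
  rcases k with _ | _ | _ | _ | _ | _ | _ | _ | _ | _ | _ | _ | _ | _ | k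
  · simp [mk2, gap, hm, lt_one]
  · simp [q1]
  · simp [q2]
  · simp [q3]
  · simp [q4]
  · simp [q5]
  · simp [q6]
  · simp [q7]
  · simp [q8]
  · simp [q9]
  · simp [q10]
  · simp [q11]
  · simp [q12]
  · simp [q13]
  · simp [mk2, gap, hm, lt_one, lt_two, lt_three, lt_four, lt_five]

lemma nohh_mk1 {m : ℕ → ℕ} (hm : ∀ i, lt (m i) = false) {y : ℕ} (hy : lt y = false) :
    NoHH ((mk1 m).filter (fun a => decide (a ≠ y))) :=
  nohh_of_gap (gap_len_filter hy (gap_len_mk1 hm))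

lemma nohh_mk2 {m : ℕ → ℕ} (hm : ∀ i, lt (m i) = false) {y : ℕ} (hy : lt y = false) :
    NoHH ((mk2 m).filter (fun a => decide (a ≠ y))) :=
  nohh_of_gap (gap_len_filter hy (gap_len_mk2 hm))

lemma not_bad_T1 : ¬ Bad 0 T1 := by
  intro h
  have e : (mk1 (fun _ => 0)).filter (fun a => decide (a ≠ 100)) = T1 := by decide
  have hm : ∀ i : ℕ, lt ((fun _ => 0 : ℕ → ℕ) i) = false := fun _ => rfl
  have := dark1 (m := fun _ => 0) (x := 0) (y := 100) hm rfl rfl (nohh_mk1 hm rfl)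
    (by rw [e]; exact h)
  simp at this

lemma not_bad_T2 : ¬ Bad 0 T2 := by
  intro h
  have e : (mk2 (fun _ => 0)).filter (fun a => decide (a ≠ 100)) = T2 := by decide
  have hm : ∀ i : ℕ, lt ((fun _ => 0 : ℕ → ℕ) i) = false := fun _ => rfl
  have := dark2 (m := fun _ => 0) (x := 0) (y := 100) hm rfl rfl (nohh_mk2 hm rfl)
    (by rw [e]; exact h)
  simp at this

/-- hypotheses on a marking -/
structure Good (mk : (ℕ → ℕ) → List ℕ) (x y : ℕ) (m : ℕ → ℕ) : Prop where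
  hv : ∀ i, lt (m i) = false
  one : m 1 = 0 ∨ m 1 = x ∨ m 1 = y
  bx : Bad x ((mk m).filter (fun a => decide (a ≠ y)))
  by' : Bad y ((mk m).filter (fun a => decide (a ≠ x)))

lemma count_mk1 (m : ℕ → ℕ) (x : ℕ) (hx : lt x = false) :
    (mk1 m).count x = [m 1, m 2, m 3, m 4, m 5, m 6, m 7, m 8, m 9, m 10, m 11].count x := by
  have h1 : (1 : ℕ) ≠ x := by rintro rfl; exact absurd hx (by decide)
  have h2 : (2 : ℕ) ≠ x := by rintro rfl; exact absurd hx (by decide)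
  have h3 : (3 : ℕ) ≠ x := by rintro rfl; exact absurd hx (by decide)
  have h4 : (4 : ℕ) ≠ x := by rintro rfl; exact absurd hx (by decide)
  have h5 : (5 : ℕ) ≠ x := by rintro rfl; exact absurd hx (by decide)
  simp [mk1, List.count_cons, h1, h2, h3, h4, h5]

lemma count_mk2 (m : ℕ → ℕ) (x : ℕ) (hx : lt x = false) :
    (mk2 m).count x = [m 1, m 2, m 3, m 4, m 5, m 6, m 7, m 8, m 9, m 10, m 11].count x := by
  have h1 : (1 : ℕ) ≠ x := by rintro rfl; exact absurd hx (by decide)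
  have h2 : (2 : ℕ) ≠ x := by rintro rfl; exact absurd hx (by decide)
  have h3 : (3 : ℕ) ≠ x := by rintro rfl; exact absurd hx (by decide)
  have h4 : (4 : ℕ) ≠ x := by rintro rfl; exact absurd hx (by decide)
  have h5 : (5 : ℕ) ≠ x := by rintro rfl; exact absurd hx (by decide)
  simp [mk2, List.count_cons, h1, h2, h3, h4, h5]

/-- the two possible shapes for `T1` -/
lemma good1_cases {x y : ℕ} (hx : lt x = false) (hy : lt y = false) (hxy : x ≠ y) {m : ℕ → ℕ}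
    (h : Good mk1 x y m) :
    (m 2 = y ∧ m 3 = y ∧ m 4 = x ∧ m 5 = y ∧ m 6 = y ∧ m 7 = x ∧ m 8 = y ∧ m 9 = y ∧ m 10 = x ∧
      m 11 = x) ∨
    (m 2 = x ∧ m 3 = x ∧ m 4 = y ∧ m 5 = x ∧ m 6 = x ∧ m 7 = y ∧ m 8 = x ∧ m 9 = x ∧ m 10 = y ∧
      m 11 = y) := by
  have d1 := dark1 h.hv hx hy (nohh_mk1 h.hv hy) h.bx
  have d2 := dark1 h.hv hy hx (nohh_mk1 h.hv hx) h.by'
  rcases d1 with ⟨a1, a2, a3, a4, a5, a6, a7, a8⟩ | ⟨a1, a2, a3, a4, a5, a6, a7, a8⟩ <;>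
  rcases d2 with ⟨b1, b2, b3, b4, b5, b6, b7, b8⟩ | ⟨b1, b2, b3, b4, b5, b6, b7, b8⟩
  · exact absurd (a1.symm.trans b1) hxy
  · exact Or.inl ⟨b1, b2, a1, b3, b4, a2, b5, b6, a3, a4⟩
  · exact Or.inr ⟨a1, a2, b1, a3, a4, b2, a5, a6, b3, b4⟩
  · exact absurd (a1.symm.trans b1) hxy

/-- the two possible shapes for `T2` -/
lemma good2_cases {x y : ℕ} (hx : lt x = false) (hy : lt y = false) (hxy : x ≠ y) {m : ℕ → ℕ}
    (h : Good mk2 x y m) :
    (m 2 = x ∧ m 3 = x ∧ m 4 = y ∧ m 5 = y ∧ m 6 = x ∧ m 7 = y ∧ m 8 = y ∧ m 9 = x ∧ m 10 = y ∧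
      m 11 = y) ∨
    (m 2 = y ∧ m 3 = y ∧ m 4 = x ∧ m 5 = x ∧ m 6 = y ∧ m 7 = x ∧ m 8 = x ∧ m 9 = y ∧ m 10 = x ∧
      m 11 = x) := by
  have d1 := dark2 h.hv hx hy (nohh_mk2 h.hv hy) h.bx
  have d2 := dark2 h.hv hy hx (nohh_mk2 h.hv hx) h.by'
  rcases d1 with ⟨a1, a2, a3, a4, a5, a6, a7, a8⟩ | ⟨a1, a2, a3, a4, a5, a6, a7, a8⟩ <;>
  rcases d2 with ⟨b1, b2, b3, b4, b5, b6, b7, b8⟩ | ⟨b1, b2, b3, b4, b5, b6, b7, b8⟩
  · exact absurd (a1.symm.trans b1) hxy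
  · exact Or.inl ⟨a1, a2, b1, b2, a3, b3, b4, a4, b5, b6⟩
  · exact Or.inr ⟨b1, b2, a1, a2, b3, a3, a4, b4, a5, a6⟩
  · exact absurd (a1.symm.trans b1) hxy

lemma first_eq {x y a b n : ℕ} (hxy : x ≠ y) (ha : a = 0 ∨ a = x ∨ a = y)
    (hb : b = 0 ∨ b = x ∨ b = y) (hx0 : x ≠ 0) (hy0 : y ≠ 0)
    (h1 : (if a = x then 1 else 0) + n = (if b = x then 1 else 0) + n) {n' : ℕ}
    (h2 : (if a = y then 1 else 0) + n' = (if b = y then 1 else 0) + n') : a = b := by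
  rcases ha with rfl | rfl | rfl <;> rcases hb with rfl | rfl | rfl <;>
    simp_all [Ne.symm hx0, Ne.symm hy0, Ne.symm hxy]

lemma count_eleven (a b : ℕ) (m : ℕ → ℕ) (x : ℕ) :
    [a, m 2, m 3, m 4, m 5, m 6, m 7, m 8, m 9, m 10, m 11].count x =
      (if a = x then 1 else 0) + [m 2, m 3, m 4, m 5, m 6, m 7, m 8, m 9, m 10, m 11].count x := by
  rw [List.count_cons]
  by_cases h : a = x <;> simp [h, Nat.add_comm]

theorem unique1 {x y : ℕ} (hx : lt x = false) (hy : lt y = false) (hxy : x ≠ y) (hx0 : x ≠ 0)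
    (hy0 : y ≠ 0) {m m' : ℕ → ℕ} (h : Good mk1 x y m) (h' : Good mk1 x y m')
    (hcx : (mk1 m).count x = (mk1 m').count x) (hcy : (mk1 m).count y = (mk1 m').count y) :
    mk1 m = mk1 m' := by
  rw [count_mk1 m x hx, count_mk1 m' x hx, count_eleven _ 0, count_eleven _ 0] at hcx
  rw [count_mk1 m y hy, count_mk1 m' y hy, count_eleven _ 0, count_eleven _ 0] at hcy
  have hyx := hxy.symm
  rcases good1_cases hx hy hxy h with ⟨a2, a3, a4, a5, a6, a7, a8, a9, a10, a11⟩ |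
      ⟨a2, a3, a4, a5, a6, a7, a8, a9, a10, a11⟩ <;>
  rcases good1_cases hx hy hxy h' with ⟨b2, b3, b4, b5, b6, b7, b8, b9, b10, b11⟩ |
      ⟨b2, b3, b4, b5, b6, b7, b8, b9, b10, b11⟩
  · rw [a2, a3, a4, a5, a6, a7, a8, a9, a10, a11, b2, b3, b4, b5, b6, b7, b8, b9, b10, b11]
      at hcx hcy
    have e := first_eq hxy h.one h'.one hx0 hy0 hcx hcy
    unfold mk1
    rw [e, a2, a3, a4, a5, a6, a7, a8, a9, a10, a11, b2, b3, b4, b5, b6, b7, b8, b9, b10, b11]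
  · exfalso
    rw [a2, a3, a4, a5, a6, a7, a8, a9, a10, a11, b2, b3, b4, b5, b6, b7, b8, b9, b10, b11]
      at hcx
    simp only [List.count_cons, List.count_nil, beq_iff_eq, hyx, if_true, if_false] at hcx
    split_ifs at hcx <;> omega
  · exfalso
    rw [a2, a3, a4, a5, a6, a7, a8, a9, a10, a11, b2, b3, b4, b5, b6, b7, b8, b9, b10, b11]
      at hcx
    simp only [List.count_cons, List.count_nil, beq_iff_eq, hyx, if_true, if_false] at hcx
    split_ifs at hcx <;> omega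
  · rw [a2, a3, a4, a5, a6, a7, a8, a9, a10, a11, b2, b3, b4, b5, b6, b7, b8, b9, b10, b11]
      at hcx hcy
    have e := first_eq hxy h.one h'.one hx0 hy0 hcx hcy
    unfold mk1
    rw [e, a2, a3, a4, a5, a6, a7, a8, a9, a10, a11, b2, b3, b4, b5, b6, b7, b8, b9, b10, b11]

theorem unique2 {x y : ℕ} (hx : lt x = false) (hy : lt y = false) (hxy : x ≠ y) (hx0 : x ≠ 0)
    (hy0 : y ≠ 0) {m m' : ℕ → ℕ} (h : Good mk2 x y m) (h' : Good mk2 x y m')
    (hcx : (mk2 m).count x = (mk2 m').count x) (hcy : (mk2 m).count y = (mk2 m').count y) :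
    mk2 m = mk2 m' := by
  rw [count_mk2 m x hx, count_mk2 m' x hx, count_eleven _ 0, count_eleven _ 0] at hcx
  rw [count_mk2 m y hy, count_mk2 m' y hy, count_eleven _ 0, count_eleven _ 0] at hcy
  have hyx := hxy.symm
  rcases good2_cases hx hy hxy h with ⟨a2, a3, a4, a5, a6, a7, a8, a9, a10, a11⟩ |
      ⟨a2, a3, a4, a5, a6, a7, a8, a9, a10, a11⟩ <;>
  rcases good2_cases hx hy hxy h' with ⟨b2, b3, b4, b5, b6, b7, b8, b9, b10, b11⟩ |
      ⟨b2, b3, b4, b5, b6, b7, b8, b9, b10, b11⟩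
  · rw [a2, a3, a4, a5, a6, a7, a8, a9, a10, a11, b2, b3, b4, b5, b6, b7, b8, b9, b10, b11]
      at hcx hcy
    have e := first_eq hxy h.one h'.one hx0 hy0 hcx hcy
    unfold mk2
    rw [e, a2, a3, a4, a5, a6, a7, a8, a9, a10, a11, b2, b3, b4, b5, b6, b7, b8, b9, b10, b11]
  · exfalso
    rw [a2, a3, a4, a5, a6, a7, a8, a9, a10, a11, b2, b3, b4, b5, b6, b7, b8, b9, b10, b11]
      at hcx
    simp only [List.count_cons, List.count_nil, beq_iff_eq, hyx, if_true, if_false] at hcx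
    split_ifs at hcx <;> omega
  · exfalso
    rw [a2, a3, a4, a5, a6, a7, a8, a9, a10, a11, b2, b3, b4, b5, b6, b7, b8, b9, b10, b11]
      at hcx
    simp only [List.count_cons, List.count_nil, beq_iff_eq, hyx, if_true, if_false] at hcx
    split_ifs at hcx <;> omega
  · rw [a2, a3, a4, a5, a6, a7, a8, a9, a10, a11, b2, b3, b4, b5, b6, b7, b8, b9, b10, b11]
      at hcx hcy
    have e := first_eq hxy h.one h'.one hx0 hy0 hcx hcy
    unfold mk2
    rw [e, a2, a3, a4, a5, a6, a7, a8, a9, a10, a11, b2, b3, b4, b5, b6, b7, b8, b9, b10, b11]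

end Pool.Agent.Lib.MP_09f634_al.Cex
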