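import Mathlib
import Pool.Agent.Lib.MP_09f634_al.Main
import Pool.Agent.Lib.MP_09f634_al.Cex.Unique

/-!
# The set of words
-/

set_option autoImplicit false

namespace Pool.Agent.Lib.MP_09f634_al.Cex

/-- restriction of a word to `0` and the letters of `S` -/
def restr (S : Finset ℕ) (v : List ℕ) : List ℕ := v.filter (fun a => decide (a = 0 ∨ a ∈ S))

/-- core words -/
def Core (v : List ℕ) : Prop :=
  (v.count 0 ≤ 7 ∧ ¬ Bad 0 v) ∨ (8 ≤ v.count 0 ∧ (v <:+: T1 ∨ v <:+: T2))

/-- the words of the counterexample -/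
def Ok (v : List ℕ) : Prop :=
  (∀ a ∈ v, a ≤ 25) ∧ (∀ a, a ≠ 0 → v.count a ≤ 3) ∧
    (v.count 0 ≤ 3 ∨ ∃ S : Finset ℕ, S.card ≤ 24 ∧ Core (restr S v))

/-- the counterexample -/
def W0 : Set Word := {v | Ok (FreeMonoid.toList v)}

lemma restr_infix {S : Finset ℕ} {u v : List ℕ} (h : u <:+: v) : restr S u <:+: restr S v := by
  obtain ⟨p, q, rfl⟩ := h
  exact ⟨restr S p, restr S q, by simp [restr]⟩

lemma count_zero_restr (S : Finset ℕ) (v : List ℕ) : (restr S v).count 0 = v.count 0 := by
  unfold restr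
  rw [List.count_filter (by simp)]

lemma restr_flatMap {α : Type} (S : Finset ℕ) (l : List α) (w : α → List ℕ) :
    restr S (l.flatMap w) = l.flatMap (fun i => restr S (w i)) := by
  unfold restr
  rw [List.filter_flatMap]

lemma not_bad_of_infix_T {v : List ℕ} (h : v <:+: T1 ∨ v <:+: T2) : ¬ Bad 0 v := by
  intro hb
  rcases h with h | h
  · exact not_bad_T1 (hb.mono h)
  · exact not_bad_T2 (hb.mono h)

lemma Core.not_bad {v : List ℕ} (h : Core v) : ¬ Bad 0 v := by
  rcases h with h | h
  · exact h.2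
  · exact not_bad_of_infix_T h.2

lemma infix_count {u v : List ℕ} (h : u <:+: v) (a : ℕ) : u.count a ≤ v.count a :=
  h.sublist.count_le a

lemma Core.factor {u v : List ℕ} (h : Core v) (huv : u <:+: v) : Core u := by
  rcases Nat.lt_or_ge (u.count 0) 8 with h8 | h8
  · exact Or.inl ⟨by omega, fun hb => h.not_bad (hb.mono huv)⟩
  · right
    refine ⟨h8, ?_⟩
    have := infix_count huv 0
    rcases h with h | ⟨-, h | h⟩
    · omega
    · exact Or.inl (huv.trans h)
    · exact Or.inr (huv.trans h)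

lemma Core.count {v : List ℕ} (h : Core v) : v.count 0 ≤ 11 := by
  rcases h with h | ⟨-, h | h⟩
  · omega
  · exact (infix_count h 0).trans (by decide)
  · exact (infix_count h 0).trans (by decide)

lemma Ok.factor {u v : List ℕ} (h : Ok v) (huv : u <:+: v) : Ok u := by
  obtain ⟨h1, h2, h3⟩ := h
  refine ⟨fun a ha => h1 a (huv.subset ha), fun a ha => (infix_count huv a).trans (h2 a ha), ?_⟩
  rcases h3 with h3 | ⟨S, hS, h3⟩
  · exact Or.inl ((infix_count huv 0).trans h3)
  · exact Or.inr ⟨S, hS, h3.factor (restr_infix huv)⟩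

lemma Ok.count_zero {v : List ℕ} (h : Ok v) : v.count 0 ≤ 11 := by
  rcases h.2.2 with h3 | ⟨S, _, h3⟩
  · omega
  · rw [← count_zero_restr S]
    exact h3.count

lemma Ok.count_le {v : List ℕ} (h : Ok v) (a : ℕ) : v.count a ≤ 11 := by
  by_cases ha : a = 0
  · subst ha; exact h.count_zero
  · exact (h.2.1 a ha).trans (by norm_num)

lemma ok_of_few {v : List ℕ} (h1 : ∀ a ∈ v, a ≤ 25) (h2 : ∀ a, v.count a ≤ 3) : Ok v :=
  ⟨h1, fun a _ => h2 a, Or.inl (h2 0)⟩

lemma ok_nil : Ok [] := ok_of_few (by simp) (by simp)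

lemma not_ok_of_bad {v : List ℕ} (h4 : 4 ≤ v.count 0) (h : ∀ S, Bad 0 (restr S v)) : ¬ Ok v := by
  rintro ⟨-, -, h3 | ⟨S, -, hS⟩⟩
  · omega
  · exact hS.not_bad (h S)

lemma bad_of_zz {u v : List ℕ} (p q : List ℕ) (hv : v = p ++ (u ++ q)) (hu : ∀ a ∈ u, a = 0)
    (h2 : 2 ≤ u.length) : Bad 0 v := by
  left
  have : u = List.replicate u.length 0 := List.eq_replicate_of_mem hu
  obtain ⟨n, hn⟩ := Nat.exists_eq_add_of_le h2
  refine ⟨p, List.replicate n 0 ++ q, ?_⟩
  rw [hv, this, hn, List.replicate_add]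
  simp

lemma Ok.zz {v : List ℕ} (h : Ok v) (h4 : 4 ≤ v.count 0) : ¬ [0, 0] <:+: v := by
  intro hz
  refine not_ok_of_bad h4 (fun S => ?_) h
  left
  have := restr_infix (S := S) hz
  simpa [restr] using this

/-- value of a heavy letter -/
lemma heavy_val {α : Type} [DecidableEq α] {l : List α} {w : α → List ℕ} (h : Ok (l.flatMap w))
    {x : α} (hx : 4 ≤ l.count x) : w x = [] ∨ w x = [0] := by
  have hxl : x ∈ l := List.count_pos_iff.mp (by omega)
  have hinf : w x <:+: l.flatMap w := by
    obtain ⟨s, t, rfl⟩ := List.append_of_mem hxl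
    exact ⟨s.flatMap w, t.flatMap w, by simp [List.flatMap_append]⟩
  have hcount : ∀ a, l.count x * (w x).count a ≤ (l.flatMap w).count a := by
    intro a
    clear hx hxl hinf h
    induction l with
    | nil => simp
    | cons j l ih =>
      rw [List.flatMap_cons, List.count_append, List.count_cons]
      by_cases hj : j = x
      · subst hj
        simp only [beq_self_eq_true, if_true]
        rw [add_mul]
        omega
      · simp only [beq_iff_eq, hj, if_false, add_zero]
        omega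
  by_cases hne : w x = []
  · exact Or.inl hne
  right
  have hall : ∀ a ∈ w x, a = 0 := by
    intro a ha
    by_contra ha0
    have h1 := hcount a
    have h2 := h.2.1 a ha0
    have h3 : 1 ≤ (w x).count a := List.count_pos_iff.mpr ha
    nlinarith
  have hrep := List.eq_replicate_of_mem hall
  have h1 := hcount 0
  have hpos : 1 ≤ (w x).count 0 := by
    obtain ⟨a, t, hat⟩ := List.exists_cons_of_ne_nil hne
    have := hall a (by rw [hat]; simp)
    rw [hat, this]
    simp
  have h4 : 4 ≤ (l.flatMap w).count 0 := by nlinarith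
  rcases Nat.lt_or_ge (w x).length 2 with h2 | h2
  · have h5 : (w x).length = 1 := by
      have := List.length_pos_iff.mpr hne
      omega
    rw [hrep, h5]
    rfl
  · exfalso
    apply h.zz h4
    obtain ⟨n, hn⟩ := Nat.exists_eq_add_of_le h2
    refine List.IsInfix.trans ⟨[], List.replicate n 0, ?_⟩ hinf
    rw [hrep, hn, List.replicate_add]
    rfl

/-! ### Words and lists -/

lemma toList_ev {k : ℕ} (l : List (Fin k)) (w : Fin k → Word) :
    FreeMonoid.toList (ev l w) = l.flatMap (fun i => FreeMonoid.toList (w i)) := by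
  induction l with
  | nil => rfl
  | cons i l ih => rw [ev_cons, FreeMonoid.toList_mul, ih]; rfl

lemma Sub_W0 : Subwords W0 = W0 := by
  ext v
  constructor
  · rintro ⟨w, hw, p, q, rfl⟩
    refine Ok.factor hw ?_
    exact ⟨FreeMonoid.toList p, FreeMonoid.toList q, by simp [FreeMonoid.toList_mul]⟩
  · exact fun h => subset_Sub h

lemma mem_W0 {v : Word} : v ∈ W0 ↔ Ok (FreeMonoid.toList v) := Iff.rfl

lemma occ_W0 : ∀ w ∈ W0, ∀ x, occ x w ≤ 11 := fun _ hw x => Ok.count_le hw x

lemma Ok.length {v : List ℕ} (h : Ok v) : v.length ≤ 286 := by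
  have h1 : v.toFinset ⊆ Finset.range 26 := by
    intro a ha
    rw [List.mem_toFinset] at ha
    have := h.1 a ha
    simp only [Finset.mem_range]
    omega
  have h2 : v.length = ∑ a ∈ Finset.range 26, v.count a := by
    rw [← Multiset.coe_card, ← Multiset.sum_count_eq_card (s := Finset.range 26)]
    · simp
    · intro a ha
      exact h1 (by simpa using ha)
  rw [h2]
  calc ∑ a ∈ Finset.range 26, v.count a ≤ ∑ a ∈ Finset.range 26, 11 :=
        Finset.sum_le_sum (fun a _ => h.count_le a)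
    _ = 286 := by simp

lemma finite_W0 : W0.Finite := by
  have h1 : {v : List ℕ | v.length ≤ 286 ∧ ∀ a ∈ v, a ≤ 25}.Finite := by
    have h2 : {v : List (Fin 26) | v.length ≤ 286}.Finite := List.finite_length_le _ _
    refine (h2.image (fun v => v.map Fin.val)).subset ?_
    rintro v ⟨hv1, hv2⟩
    refine ⟨v.pmap (fun a ha => ⟨a, ha⟩) (fun a ha => Nat.lt_succ_of_le (hv2 a ha)), ?_, ?_⟩
    · simpa using hv1
    · simp [List.map_pmap]
  have h3 : W0 = FreeMonoid.toList ⁻¹' {v : List ℕ | Ok v} := rfl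
  rw [h3]
  refine Set.Finite.preimage (FreeMonoid.toList.injective.injOn) (h1.subset ?_)
  intro v hv
  exact ⟨Ok.length hv, hv.1⟩

lemma W0_nonempty : W0.Nonempty := ⟨1, ok_nil⟩

/-! ### The templates -/

lemma ok_of_infix_T {v : List ℕ} (h8 : 8 ≤ v.count 0) (h : v <:+: T1 ∨ v <:+: T2) : Ok v := by
  have hc : ∀ a, a ≠ 0 → v.count a ≤ 3 := by
    intro a ha
    have key : ∀ T : List ℕ, (∀ a ∈ T, a = 0 ∨ T.count a ≤ 3) → v <:+: T → v.count a ≤ 3 := by
      intro T hT hv
      by_cases haT : a ∈ T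
      · exact (infix_count hv a).trans ((hT a haT).resolve_left ha)
      · have : a ∉ v := fun h => haT (hv.subset h)
        rw [List.count_eq_zero_of_not_mem this]
        norm_num
    rcases h with h | h
    · exact key T1 (by decide) h
    · exact key T2 (by decide) h
  have hl : ∀ a ∈ v, a ≤ 5 := by
    intro a ha
    have k1 : ∀ a ∈ T1, a ≤ 5 := by decide
    have k2 : ∀ a ∈ T2, a ≤ 5 := by decide
    rcases h with h | h
    · exact k1 a (h.subset ha)
    · exact k2 a (h.subset ha)
  refine ⟨fun a ha => (hl a ha).trans (by norm_num), hc, Or.inr ⟨{1, 2, 3, 4, 5}, by decide, ?_⟩⟩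
  have : restr {1, 2, 3, 4, 5} v = v := by
    unfold restr
    rw [List.filter_eq_self]
    intro a ha
    have := hl a ha
    interval_cases a <;> decide
  rw [this]
  exact Or.inr ⟨h8, h⟩

end Pool.Agent.Lib.MP_09f634_al.Cex
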