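import Mathlib
import Pool.Agent.Lib.MP_09f634_al.Cex.Ok

/-!
# The chain words
-/

set_option autoImplicit false

namespace Pool.Agent.Lib.MP_09f634_al.Cex

/-- boundary letters before block `j` -/
def bd (N j : ℕ) : List ℕ :=
  ((List.range (N + 2)).filter (fun i => decide (i % 2 = 1 ∧ i ≤ j ∧ j ≤ i + 3))).map
    (fun i => 2 * i + 2)

/-- inner letters of block `j` -/
def inn (N j : ℕ) : List ℕ :=
  ((List.range (N + 2)).filter (fun i => decide (i % 2 = 0 ∧ i ≤ j ∧ j ≤ i + 2))).map
    (fun i => 2 * i + 2)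

/-- block `j` -/
def blk (N j : ℕ) : List ℕ :=
  bd N j ++ (2 * j + 1) :: (inn N j ++ (2 * j + 1) :: (inn N j ++ [2 * j + 1]))

/-- the letters before `0` -/
def gs (N : ℕ) (ε : ℕ → ℕ) : List ℕ :=
  (List.range (N + 2)).flatMap (fun i => List.replicate (ε i) (2 * i + 2))

/-- the body -/
def body (N : ℕ) : List ℕ := (List.range (N + 5)).flatMap (blk N)

/-- the chain word -/
def LL (N : ℕ) (ε : ℕ → ℕ) : List ℕ := gs N ε ++ 0 :: body N

section fm

variable (n : ℕ) (P : ℕ → Prop) [DecidablePred P] (z : ℕ → List ℕ)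

lemma fm1 (hz : ∀ i < n, P i → z i = []) :
    ((List.range n).filter (fun i => decide (P i))).flatMap z = [] := by
  rw [List.flatMap_eq_nil_iff]
  intro i hi
  rw [List.mem_filter, List.mem_range] at hi
  exact hz i hi.1 (by simpa using hi.2)

lemma fm2 {p : ℕ} (hp : p < n) (hP : P p) (hz : ∀ i < n, i ≠ p → P i → z i = []) :
    ((List.range n).filter (fun i => decide (P i))).flatMap z = z p := by
  induction n with
  | zero => omega
  | succ n ih =>
    rw [List.range_succ, List.filter_append, List.flatMap_append]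
    rcases Nat.lt_or_ge p n with h | h
    · rw [ih h (fun i hi => hz i (by omega))]
      by_cases hn : P n
      · rw [List.filter_cons_of_pos (by simpa using hn)]
        simp [hz n (by omega) (by omega) hn]
      · rw [List.filter_cons_of_neg (by simpa using hn)]
        simp
    · have : p = n := by omega
      subst this
      rw [fm1 p P z (fun i hi => hz i (by omega) (by omega))]
      rw [List.filter_cons_of_pos (by simpa using hP)]
      simp

lemma fm3 {p q : ℕ} (hpq : p < q) (hq : q < n) (hP : P p) (hQ : P q)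
    (hz : ∀ i < n, i ≠ p → i ≠ q → P i → z i = []) :
    ((List.range n).filter (fun i => decide (P i))).flatMap z = z p ++ z q := by
  induction n with
  | zero => omega
  | succ n ih =>
    rw [List.range_succ, List.filter_append, List.flatMap_append]
    rcases Nat.lt_or_ge q n with h | h
    · rw [ih h (fun i hi => hz i (by omega))]
      by_cases hn : P n
      · rw [List.filter_cons_of_pos (by simpa using hn)]
        simp [hz n (by omega) (by omega) (by omega) hn]
      · rw [List.filter_cons_of_neg (by simpa using hn)]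
        simp
    · have : q = n := by omega
      subst this
      rw [fm2 q P z hpq hP (fun i hi hip => hz i (by omega) hip (by omega))]
      rw [List.filter_cons_of_pos (by simpa using hQ)]
      simp

end fm

lemma bd_flatMap (N j : ℕ) (V : ℕ → List ℕ) : (bd N j).flatMap V =
    ((List.range (N + 2)).filter (fun i => decide (i % 2 = 1 ∧ i ≤ j ∧ j ≤ i + 3))).flatMap
      (fun i => V (2 * i + 2)) := by
  unfold bd
  rw [List.flatMap_map]

lemma inn_flatMap (N j : ℕ) (V : ℕ → List ℕ) : (inn N j).flatMap V =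
    ((List.range (N + 2)).filter (fun i => decide (i % 2 = 0 ∧ i ≤ j ∧ j ≤ i + 2))).flatMap
      (fun i => V (2 * i + 2)) := by
  unfold inn
  rw [List.flatMap_map]

lemma blk_flatMap (N j : ℕ) (V : ℕ → List ℕ) : (blk N j).flatMap V =
    (bd N j).flatMap V ++ (V (2 * j + 1) ++ ((inn N j).flatMap V ++ (V (2 * j + 1) ++
      ((inn N j).flatMap V ++ V (2 * j + 1))))) := by
  unfold blk
  simp [List.flatMap_append, List.flatMap_cons]

lemma body_flatMap (N : ℕ) (V : ℕ → List ℕ) : (body N).flatMap V =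
    (List.range (N + 5)).flatMap (fun j => (blk N j).flatMap V) := by
  unfold body
  rw [List.flatMap_assoc]

lemma range_split {n i d : ℕ} (h : i + d ≤ n) :
    List.range n = List.range i ++ ((List.range d).map (fun t => i + t) ++
      (List.range (n - i - d)).map (fun t => i + d + t)) := by
  obtain ⟨e, rfl⟩ := Nat.exists_eq_add_of_le h
  rw [List.range_add, List.range_add]
  have : i + d + e - i - d = e := by omega
  rw [this, List.append_assoc]

lemma four_infix {n i : ℕ} (g : ℕ → List ℕ) (h : i + 4 ≤ n) :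
    (g i ++ (g (i + 1) ++ (g (i + 2) ++ g (i + 3)))) <:+: (List.range n).flatMap g := by
  rw [range_split h, List.flatMap_append, List.flatMap_append]
  refine ⟨(List.range i).flatMap g,
    ((List.range (n - i - 4)).map (fun t => i + 4 + t)).flatMap g, ?_⟩
  have : (List.range 4).map (fun t => i + t) = [i, i + 1, i + 2, i + 3] := by
    simp [List.range_succ]
  rw [this]
  simp [List.flatMap_cons]

lemma body_infix (N : ℕ) (ε : ℕ → ℕ) (V : ℕ → List ℕ) :
    (body N).flatMap V <:+: (LL N ε).flatMap V := by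
  unfold LL
  rw [List.flatMap_append, List.flatMap_cons]
  exact ⟨(gs N ε).flatMap V ++ V 0, [], by simp⟩

lemma blocks_infix {N i : ℕ} (ε : ℕ → ℕ) (V : ℕ → List ℕ) (h : i < N + 2) :
    ((blk N i).flatMap V ++ ((blk N (i + 1)).flatMap V ++ ((blk N (i + 2)).flatMap V ++
      (blk N (i + 3)).flatMap V))) <:+: (LL N ε).flatMap V := by
  refine List.IsInfix.trans ?_ (body_infix N ε V)
  rw [body_flatMap]
  exact four_infix (fun j => (blk N j).flatMap V) (by omega)

lemma infix_B {N i : ℕ} (ε : ℕ → ℕ) (V : ℕ → List ℕ) (h : i < N + 2) (hodd : i % 2 = 1)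
    (hV : V (2 * i + 2) = [0])
    (hfar : ∀ i' < N + 2, i' ≠ i → V (2 * i' + 2) ≠ [] → i' + 3 ≤ i ∨ i + 3 ≤ i') :
    patB 0 (V (2 * i + 1)) (V (2 * (i + 1) + 1)) (V (2 * (i + 2) + 1)) <:+:
      (LL N ε).flatMap V := by
  refine List.IsInfix.trans ?_ (blocks_infix ε V h)
  have hb : ∀ j, i ≤ j → j ≤ i + 3 → (bd N j).flatMap V = [0] := by
    intro j h1 h2
    rw [bd_flatMap, fm2 (N + 2) (fun i => i % 2 = 1 ∧ i ≤ j ∧ j ≤ i + 3)
      (fun i => V (2 * i + 2)) h ⟨hodd, h1, h2⟩]
    · exact hV
    · intro i' hi' hne hP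
      by_contra hcon
      have := hfar i' hi' hne hcon
      omega
  have hi : ∀ j, i ≤ j → j ≤ i + 2 → (inn N j).flatMap V = [] := by
    intro j h1 h2
    rw [inn_flatMap, fm1 (N + 2) (fun i => i % 2 = 0 ∧ i ≤ j ∧ j ≤ i + 2)
      (fun i => V (2 * i + 2))]
    intro i' hi' hP
    by_contra hcon
    have := hfar i' hi' (by omega) hcon
    omega
  rw [blk_flatMap, blk_flatMap, blk_flatMap, blk_flatMap, hb i le_rfl (by omega),
    hb (i + 1) (by omega) (by omega), hb (i + 2) (by omega) (by omega),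
    hb (i + 3) (by omega) (by omega), hi i le_rfl (by omega), hi (i + 1) (by omega) (by omega),
    hi (i + 2) (by omega) (by omega)]
  refine ⟨[], (V (2 * (i + 3) + 1) ++ ((inn N (i + 3)).flatMap V ++ (V (2 * (i + 3) + 1) ++
      ((inn N (i + 3)).flatMap V ++ V (2 * (i + 3) + 1))))), ?_⟩
  simp [patB]

lemma infix_A {N i : ℕ} (ε : ℕ → ℕ) (V : ℕ → List ℕ) (h : i < N + 2) (heven : i % 2 = 0)
    (hV : V (2 * i + 2) = [0])
    (hfar : ∀ i' < N + 2, i' ≠ i → V (2 * i' + 2) = []) :
    patA 0 (V (2 * i + 1)) (V (2 * (i + 1) + 1)) (V (2 * (i + 2) + 1)) <:+: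
      (LL N ε).flatMap V := by
  refine List.IsInfix.trans ?_ (blocks_infix ε V h)
  have hb : ∀ j, (bd N j).flatMap V = [] := by
    intro j
    rw [bd_flatMap, fm1 (N + 2) (fun i => i % 2 = 1 ∧ i ≤ j ∧ j ≤ i + 3)
      (fun i => V (2 * i + 2))]
    intro i' hi' hP
    exact hfar i' hi' (by rintro rfl; omega)
  have hi : ∀ j, i ≤ j → j ≤ i + 2 → (inn N j).flatMap V = [0] := by
    intro j h1 h2
    rw [inn_flatMap, fm2 (N + 2) (fun i => i % 2 = 0 ∧ i ≤ j ∧ j ≤ i + 2)
      (fun i => V (2 * i + 2)) h ⟨heven, h1, h2⟩]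
    · exact hV
    · intro i' hi' hne _
      exact hfar i' hi' hne
  rw [blk_flatMap, blk_flatMap, blk_flatMap, blk_flatMap, hb i,
    hb (i + 1), hb (i + 2), hb (i + 3), hi i le_rfl (by omega), hi (i + 1) (by omega) (by omega),
    hi (i + 2) (by omega) (by omega)]
  refine ⟨[], (V (2 * (i + 3) + 1) ++ ((inn N (i + 3)).flatMap V ++ (V (2 * (i + 3) + 1) ++
      ((inn N (i + 3)).flatMap V ++ V (2 * (i + 3) + 1))))), ?_⟩
  simp [patA]

lemma infix_zz {N i : ℕ} (ε : ℕ → ℕ) (V : ℕ → List ℕ) (h : i + 2 < N + 2) (hodd : i % 2 = 1)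
    (hV : V (2 * i + 2) = [0]) (hV' : V (2 * (i + 2) + 2) = [0])
    (hfar : ∀ i' < N + 2, i' ≠ i → i' ≠ i + 2 → V (2 * i' + 2) = []) :
    [0, 0] <:+: (LL N ε).flatMap V := by
  refine List.IsInfix.trans ?_ (blocks_infix ε V (i := i) (by omega))
  have hb : (bd N (i + 2)).flatMap V = [0, 0] := by
    rw [bd_flatMap, fm3 (N + 2) (fun i' => i' % 2 = 1 ∧ i' ≤ i + 2 ∧ i + 2 ≤ i' + 3)
      (fun i => V (2 * i + 2)) (p := i) (q := i + 2) (by omega) h ⟨hodd, by omega, by omega⟩
      ⟨by omega, by omega, by omega⟩]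
    · rw [hV, hV']; rfl
    · intro i' hi' hne hne' _
      exact hfar i' hi' hne hne'
  rw [blk_flatMap N (i + 2), hb]
  exact ⟨(blk N i).flatMap V ++ (blk N (i + 1)).flatMap V, _, by simp only [List.append_assoc]; rfl⟩

lemma bad_patB (w1 w2 w3 : List ℕ) : Bad 0 (patB 0 w1 w2 w3) := by
  by_cases h1 : w1 = []
  · subst h1
    left
    exact ⟨[], _, rfl⟩
  by_cases h2 : w2 = []
  · subst h2
    left
    exact ⟨0 :: (w1 ++ (w1 ++ w1)), w3 ++ (w3 ++ (w3 ++ [0])), by simp [patB]⟩
  by_cases h3 : w3 = []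
  · subst h3
    left
    exact ⟨0 :: (w1 ++ (w1 ++ (w1 ++ 0 :: (w2 ++ (w2 ++ w2))))), [], by simp [patB]⟩
  right
  exact ⟨w1, w2, w3, h1, h2, h3, Or.inl (List.infix_refl _)⟩

lemma bad_patA (w1 w2 w3 : List ℕ) : Bad 0 (patA 0 w1 w2 w3) := by
  by_cases h1 : w1 = []
  · subst h1
    left
    exact ⟨[], _, rfl⟩
  by_cases h2 : w2 = []
  · subst h2
    left
    exact ⟨w1 ++ 0 :: (w1 ++ 0 :: w1), w3 ++ 0 :: (w3 ++ 0 :: w3), by simp [patA]⟩
  by_cases h3 : w3 = []
  · subst h3
    left
    exact ⟨w1 ++ 0 :: (w1 ++ 0 :: (w1 ++ (w2 ++ 0 :: (w2 ++ 0 :: w2)))), [], by simp [patA]⟩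
  right
  exact ⟨w1, w2, w3, h1, h2, h3, Or.inr (List.infix_refl _)⟩

/-! ### Counts -/

lemma count_flatMap_ge {α : Type} [DecidableEq α] (T : Finset α) (l : List α) (V : α → List ℕ)
    (a : ℕ) : ∑ x ∈ T, l.count x * (V x).count a ≤ (l.flatMap V).count a := by
  induction l with
  | nil => simp
  | cons j l ih =>
    rw [List.flatMap_cons, List.count_append]
    have h1 : ∀ x, (j :: l).count x * (V x).count a =
        l.count x * (V x).count a + if x = j then (V x).count a else 0 := by
      intro x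
      rw [List.count_cons]
      by_cases h : j = x
      · subst h; simp [add_mul]
      · simp [h, Ne.symm h]
    simp only [h1, Finset.sum_add_distrib, Finset.sum_ite_eq']
    split_ifs <;> omega

lemma count_flatMap_single {α : Type} [DecidableEq α] (l : List α) (x : α) :
    (l.flatMap (fun a => if a = x then [0] else [])).count 0 = l.count x := by
  induction l with
  | nil => simp
  | cons j l ih =>
    rw [List.flatMap_cons, List.count_append, ih, List.count_cons]
    by_cases h : j = x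
    · subst h; simp [add_comm]
    · simp [h]

lemma count_LL_odd {N i : ℕ} (ε : ℕ → ℕ) (h : i < N + 2) (hodd : i % 2 = 1) :
    4 ≤ (LL N ε).count (2 * i + 2) := by
  rw [← count_flatMap_single]
  have h1 := infix_B ε (fun a => if a = 2 * i + 2 then [0] else []) h hodd (by simp) (by
    intro i' _ hne hcon
    exfalso
    apply hcon
    have : ¬ (2 * i' + 2 = 2 * i + 2) := by omega
    simp only [this, if_false])
  refine le_trans ?_ (infix_count h1 0)
  simp only [patB, List.count_cons, List.count_append]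
  simp
  omega

lemma count_LL_even {N i : ℕ} (ε : ℕ → ℕ) (h : i < N + 2) (heven : i % 2 = 0) :
    6 ≤ (LL N ε).count (2 * i + 2) := by
  rw [← count_flatMap_single]
  have h1 := infix_A ε (fun a => if a = 2 * i + 2 then [0] else []) h heven (by simp) (by
    intro i' _ hne
    have : ¬ (2 * i' + 2 = 2 * i + 2) := by omega
    simp only [this, if_false])
  refine le_trans ?_ (infix_count h1 0)
  simp only [patA, List.count_cons, List.count_append]
  simp
  omega

lemma count_LL {N i : ℕ} (ε : ℕ → ℕ) (h : i < N + 2) : 4 ≤ (LL N ε).count (2 * i + 2) := by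
  rcases Nat.mod_two_eq_zero_or_one i with h1 | h1
  · exact le_trans (by norm_num) (count_LL_even ε h h1)
  · exact count_LL_odd ε h h1

end Pool.Agent.Lib.MP_09f634_al.Cex
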