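import Mathlib
import Pool.Agent.Lib.MP_09f634_al.Cex.Unique

/-!
# Marked words
-/

set_option autoImplicit false

namespace Pool.Agent.Lib.MP_09f634_al.Cex

/-- replace the zeros by marks -/
def fill : List ℕ → ℕ → (ℕ → ℕ) → List ℕ
  | [], _, _ => []
  | 0 :: T, n, m => m n :: fill T (n + 1) m
  | (t + 1) :: T, n, m => (t + 1) :: fill T n m

/-- forget the marks -/
def unm (a : ℕ) : ℕ := if a = 100 ∨ a = 101 then 0 else a

lemma mk1_fill (m : ℕ → ℕ) : fill T1 1 m = mk1 m := rfl

lemma mk2_fill (m : ℕ → ℕ) : fill T2 1 m = mk2 m := rfl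

lemma fill_congr (T : List ℕ) (n : ℕ) {m m' : ℕ → ℕ} (h : ∀ i, n ≤ i → m i = m' i) :
    fill T n m = fill T n m' := by
  induction T generalizing n with
  | nil => rfl
  | cons t T ih =>
    cases t with
    | zero =>
      simp only [fill]
      rw [h n le_rfl, ih (n + 1) (fun i hi => h i (by omega))]
    | succ t =>
      simp only [fill]
      rw [ih n h]

lemma fill_exists (T U : List ℕ) (h : U.map unm = T) (n : ℕ) :
    ∃ m : ℕ → ℕ, (∀ i, m i = 0 ∨ m i = 100 ∨ m i = 101) ∧ fill T n m = U := by
  induction T generalizing U n with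
  | nil =>
    rw [List.map_eq_nil_iff] at h
    subst h
    exact ⟨fun _ => 0, fun _ => Or.inl rfl, rfl⟩
  | cons t T ih =>
    obtain ⟨b, U', rfl, hb, hU'⟩ := List.map_eq_cons_iff.mp h
    cases t with
    | zero =>
      have hb' : b = 0 ∨ b = 100 ∨ b = 101 := by
        unfold unm at hb
        split_ifs at hb with h1
        · exact Or.inr h1
        · exact Or.inl hb
      obtain ⟨m, hm, hf⟩ := ih U' hU' (n + 1)
      refine ⟨fun i => if i = n then b else m i, fun i => ?_, ?_⟩
      · by_cases hi : i = n
        · simp only [hi, if_true]; exact hb'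
        · simp only [hi, if_false]; exact hm i
      · simp only [fill, if_true]
        rw [← hf]
        congr 1
        apply fill_congr
        intro i hi
        have : i ≠ n := by omega
        simp [this]
    | succ t =>
      have hb' : b = t + 1 := by
        unfold unm at hb
        split_ifs at hb with h1
        exact hb
      obtain ⟨m, hm, hf⟩ := ih U' hU' n
      refine ⟨m, hm, ?_⟩
      simp only [fill]
      rw [hf, hb']

/-- the marks and a new letter together -/
lemma eq_of_unm {q : ℕ} (hq0 : q ≠ 0) (hq1 : q ≠ 100) (hq2 : q ≠ 101) {U V : List ℕ}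
    (h : U.map unm = V.map unm)
    (h' : U.filter (fun a => decide (a ≠ q)) = V.filter (fun a => decide (a ≠ q))) : U = V := by
  have hunm : ∀ b, unm b = q → b = q := by
    intro b hb
    unfold unm at hb
    split_ifs at hb with h1
    · exact absurd hb.symm hq0
    · exact hb
  have hq : unm q = q := by
    unfold unm
    rw [if_neg (by tauto)]
  induction U generalizing V with
  | nil =>
    rw [List.map_nil, eq_comm, List.map_eq_nil_iff] at h
    rw [h]
  | cons a U ih =>
    obtain ⟨b, V', rfl, hb, hV'⟩ := List.map_eq_cons_iff.mp h.symm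
    by_cases ha : a = q
    · subst ha
      rw [hq] at hb
      have := hunm b hb
      subst this
      rw [List.filter_cons_of_neg (by simp), List.filter_cons_of_neg (by simp)] at h'
      rw [ih hV'.symm h']
    · have hbq : b ≠ q := by
        rintro rfl
        rw [hq] at hb
        exact ha (hunm a hb.symm)
      rw [List.filter_cons_of_pos (by simpa using ha),
        List.filter_cons_of_pos (by simpa using hbq)] at h'
      obtain ⟨h1, h2⟩ := List.cons.inj h'
      rw [h1, ih hV'.symm h2]

/-- uniqueness of the marks -/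
theorem unique_fill {T : List ℕ} (hT : T = T1 ∨ T = T2) {U V : List ℕ} (hU : U.map unm = T)
    (hV : V.map unm = T)
    (bx : Bad 100 (U.filter (fun a => decide (a ≠ 101))))
    (by' : Bad 101 (U.filter (fun a => decide (a ≠ 100))))
    (bx' : Bad 100 (V.filter (fun a => decide (a ≠ 101))))
    (by'' : Bad 101 (V.filter (fun a => decide (a ≠ 100))))
    (hcx : U.count 100 = V.count 100) (hcy : U.count 101 = V.count 101) : U = V := by
  obtain ⟨m, hm, rfl⟩ := fill_exists T U hU 1
  obtain ⟨m', hm', rfl⟩ := fill_exists T V hV 1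
  have hlt : ∀ m : ℕ → ℕ, (∀ i, m i = 0 ∨ m i = 100 ∨ m i = 101) → ∀ i, lt (m i) = false := by
    intro m hm i
    rcases hm i with h | h | h <;> rw [h] <;> rfl
  rcases hT with rfl | rfl
  · rw [mk1_fill] at *
    rw [mk1_fill] at *
    exact unique1 rfl rfl (by norm_num) (by norm_num) (by norm_num)
      ⟨hlt m hm, hm 1, bx, by'⟩ ⟨hlt m' hm', hm' 1, bx', by''⟩ hcx hcy
  · rw [mk2_fill] at *
    rw [mk2_fill] at *
    exact unique2 rfl rfl (by norm_num) (by norm_num) (by norm_num)
      ⟨hlt m hm, hm 1, bx, by'⟩ ⟨hlt m' hm', hm' 1, bx', by''⟩ hcx hcy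

end Pool.Agent.Lib.MP_09f634_al.Cex
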