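import Mathlib

/-!
# Initial parts of lists
-/

set_option autoImplicit false

namespace Pool.Agent.Lib.MP_09f634_al.Cex

section

variable {α : Type} [DecidableEq α]

/-- the part of the list before the `(p+1)`-st occurrence of `i` -/
def pre (i : α) : List α → ℕ → List α
  | [], _ => []
  | a :: u, p => if a = i then (if p = 0 then [] else a :: pre i u (p - 1)) else a :: pre i u p

@[simp] lemma pre_nil (i : α) (p : ℕ) : pre i [] p = [] := rfl

lemma pre_cons_ne {i a : α} (h : a ≠ i) (u : List α) (p : ℕ) :
    pre i (a :: u) p = a :: pre i u p := by
  simp [pre, h]

lemma pre_cons_zero (i : α) (u : List α) : pre i (i :: u) 0 = [] := by simp [pre]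

lemma pre_cons_succ (i : α) (u : List α) (p : ℕ) : pre i (i :: u) (p + 1) = i :: pre i u p := by
  simp [pre]

lemma pre_prefix (i : α) (u : List α) (p : ℕ) : pre i u p <+: u := by
  induction u generalizing p with
  | nil => simp
  | cons a u ih =>
    by_cases h : a = i
    · subst h
      cases p with
      | zero => rw [pre_cons_zero]; exact List.nil_prefix
      | succ p => rw [pre_cons_succ]; exact (List.prefix_cons_inj a).mpr (ih p)
    · rw [pre_cons_ne h]; exact (List.prefix_cons_inj a).mpr (ih p)

lemma pre_of_count_le {i : α} {u : List α} {p : ℕ} (h : u.count i ≤ p) : pre i u p = u := by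
  induction u generalizing p with
  | nil => simp
  | cons a u ih =>
    by_cases ha : a = i
    · subst ha
      cases p with
      | zero => simp at h
      | succ p =>
        rw [pre_cons_succ, ih]
        rw [List.count_cons_self] at h
        omega
    · rw [pre_cons_ne ha, ih]
      rw [List.count_cons_of_ne ha] at h
      exact h

lemma count_pre_self (i : α) (u : List α) (p : ℕ) :
    (pre i u p).count i = min p (u.count i) := by
  induction u generalizing p with
  | nil => simp
  | cons a u ih =>
    by_cases ha : a = i
    · subst ha
      cases p with
      | zero => simp [pre_cons_zero]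
      | succ p =>
        rw [pre_cons_succ, List.count_cons_self, List.count_cons_self, ih]
        omega
    · rw [pre_cons_ne ha, List.count_cons_of_ne ha, List.count_cons_of_ne ha, ih]

lemma pre_append_lt {i : α} {u : List α} {p : ℕ} (h : p < u.count i) (v : List α) :
    pre i (u ++ v) p = pre i u p := by
  induction u generalizing p with
  | nil => simp at h
  | cons a u ih =>
    rw [List.cons_append]
    by_cases ha : a = i
    · subst ha
      cases p with
      | zero => rw [pre_cons_zero, pre_cons_zero]
      | succ p =>
        rw [List.count_cons_self] at h
        rw [pre_cons_succ, pre_cons_succ, ih (by omega)]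
    · rw [List.count_cons_of_ne ha] at h
      rw [pre_cons_ne ha, pre_cons_ne ha, ih h]

lemma pre_append_ge {i : α} {u : List α} {p : ℕ} (h : u.count i ≤ p) (v : List α) :
    pre i (u ++ v) p = u ++ pre i v (p - u.count i) := by
  induction u generalizing p with
  | nil => simp
  | cons a u ih =>
    rw [List.cons_append]
    by_cases ha : a = i
    · subst ha
      cases p with
      | zero => simp at h
      | succ p =>
        rw [List.count_cons_self] at h
        rw [pre_cons_succ, ih (by omega), List.count_cons_self, List.cons_append]
        congr 3
        omega
    · rw [List.count_cons_of_ne ha] at h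
      rw [pre_cons_ne ha, ih h, List.count_cons_of_ne ha, List.cons_append]

lemma pre_filter {i : α} (P : α → Bool) (hP : P i = true) (u : List α) (p : ℕ) :
    pre i (u.filter P) p = (pre i u p).filter P := by
  induction u generalizing p with
  | nil => simp
  | cons a u ih =>
    by_cases ha : a = i
    · subst ha
      rw [List.filter_cons_of_pos hP]
      cases p with
      | zero => rw [pre_cons_zero, pre_cons_zero]; rfl
      | succ p => rw [pre_cons_succ, pre_cons_succ, List.filter_cons_of_pos hP, ih]
    · rw [pre_cons_ne ha]
      by_cases hPa : P a = true
      · rw [List.filter_cons_of_pos hPa, List.filter_cons_of_pos hPa, pre_cons_ne ha, ih]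
      · rw [List.filter_cons_of_neg hPa, List.filter_cons_of_neg hPa, ih]

lemma pre_notMem {β : Type} [DecidableEq β] {q : β} {v u : List β} (h : q ∉ v) (p : ℕ) :
    pre q (v ++ u) p = v ++ pre q u p := by
  rw [pre_append_ge (by rw [List.count_eq_zero_of_not_mem h]; omega),
    List.count_eq_zero_of_not_mem h, Nat.sub_zero]

/-- initial parts of values -/
lemma pre_flatMap {β : Type} [DecidableEq β] {i : α} {q : β} {t : List β} (V : α → List β)
    (hi : V i = q :: t) (ht : q ∉ t) (hV : ∀ j, j ≠ i → q ∉ V j) (u : List α) (p : ℕ) :
    pre q (u.flatMap V) p = (pre i u p).flatMap V := by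
  induction u generalizing p with
  | nil => simp
  | cons a u ih =>
    rw [List.flatMap_cons]
    by_cases ha : a = i
    · subst ha
      cases p with
      | zero => rw [pre_cons_zero, hi, List.cons_append, pre_cons_zero]; rfl
      | succ p =>
        rw [pre_cons_succ, List.flatMap_cons, hi, List.cons_append, pre_cons_succ,
          pre_notMem ht, ih]
        rfl
    · rw [pre_cons_ne ha, List.flatMap_cons, pre_notMem (hV a ha), ih]

/-- `p`-th `a` before the `q`-th `b` -/
lemma pre_prefix_pre {a b : α} {u : List α} {p q : ℕ} (h : p < (pre b u q).count a) :
    pre a u p <+: pre b u q := by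
  obtain ⟨t, ht⟩ := pre_prefix b u q
  have : pre a u p = pre a (pre b u q) p := by
    conv_lhs => rw [← ht]
    exact pre_append_lt h t
  rw [this]
  exact pre_prefix _ _ _

/-- a list is determined by the numbers of letters before each occurrence of all but one letter -/
theorem list_eq_of_pre (s : α) {u v : List α}
    (h : ∀ i, i ≠ s → ∀ j, ∀ p < u.count i, (pre i u p).count j = (pre i v p).count j)
    (hc : ∀ j, u.count j = v.count j) : u = v := by
  induction u generalizing v with
  | nil =>
    symm
    rw [List.eq_nil_iff_forall_not_mem]
    intro a ha
    have h1 := hc a
    have h2 := List.count_pos_iff.mpr ha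
    simp at h1
    omega
  | cons a u ih =>
    obtain ⟨b, v, rfl⟩ : ∃ b v', v = b :: v' := by
      apply List.exists_cons_of_ne_nil
      rintro rfl
      have := hc a
      simp at this
    have hab : a = b := by
      by_contra hab
      by_cases has : a = s
      · have hbs : b ≠ s := fun h => hab (by rw [has, h])
        have h1 := h b hbs a 0 (by rw [hc b]; simp)
        rw [pre_cons_zero, pre_cons_ne hab] at h1
        simp at h1
      · have h1 := h a has b 0 (by simp)
        rw [pre_cons_zero, pre_cons_ne (Ne.symm hab)] at h1
        simp at h1
    subst hab
    congr 1
    apply ih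
    · intro i hi j p hp
      by_cases hia : i = a
      · subst hia
        have h1 := h i hi j (p + 1) (by rw [List.count_cons_self]; omega)
        rw [pre_cons_succ, pre_cons_succ, List.count_cons, List.count_cons] at h1
        omega
      · have h1 := h i hi j p (by rw [List.count_cons_of_ne (Ne.symm hia)]; exact hp)
        rw [pre_cons_ne (Ne.symm hia), pre_cons_ne (Ne.symm hia), List.count_cons,
          List.count_cons] at h1
        omega
    · intro j
      have h1 := hc j
      rw [List.count_cons, List.count_cons] at h1
      omega

/-- insertion of a new letter at prescribed places -/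
theorem insert_exists (light : α → Prop) (x : α) (N : α → ℕ → ℕ) (l : List α) (c : ℕ)
    (hx : x ∉ l)
    (hM : ∀ a b, light a → light b → ∀ p q, p < (pre b l q).count a → q < l.count b →
      N a p ≤ N b q)
    (hc : ∀ a, light a → ∀ p < l.count a, N a p ≤ c) :
    ∃ l' : List α, l'.filter (fun b => decide (b ≠ x)) = l ∧ l'.count x = c ∧
      ∀ a, light a → ∀ p < l.count a, (pre a l' p).count x = N a p := by
  induction l using List.reverseRecOn generalizing c with
  | nil => exact ⟨List.replicate c x, by simp, by simp, fun a _ p hp => by simp at hp⟩
  | append_singleton l b ih =>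
    have hxl : x ∉ l := fun h => hx (by simp [h])
    have hxb : b ≠ x := fun h => hx (by simp [h])
    have hcnt : ∀ a, l.count a ≤ (l ++ [b]).count a := fun a => by
      rw [List.count_append]; omega
    have hM' : ∀ a b', light a → light b' → ∀ p q, p < (pre b' l q).count a → q < l.count b' →
        N a p ≤ N b' q := by
      intro a b' ha hb' p q hp hq
      apply hM a b' ha hb' p q
      · rw [pre_append_lt hq]; exact hp
      · exact lt_of_lt_of_le hq (hcnt b')
    by_cases hb : light b
    · have hpb : pre b (l ++ [b]) (l.count b) = l := by
        rw [pre_append_ge le_rfl, Nat.sub_self, pre_cons_zero, List.append_nil]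
      have hqb : l.count b < (l ++ [b]).count b := by
        rw [List.count_append, List.count_singleton_self]; omega
      obtain ⟨l', h1, h2, h3⟩ := ih (N b (l.count b)) hxl hM' (by
        intro a ha p hp
        apply hM a b ha hb p (l.count b) _ hqb
        rw [hpb]; exact hp)
      have hcl : ∀ a, a ≠ x → l'.count a = l.count a := by
        intro a ha
        rw [← h1, List.count_filter (by simpa using ha)]
      have hle := hc b hb (l.count b) hqb
      refine ⟨l' ++ b :: List.replicate (c - N b (l.count b)) x, ?_, ?_, ?_⟩
      · rw [List.filter_append, h1, List.filter_cons_of_pos (by simpa using hxb)]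
        simp
      · rw [List.count_append, h2, List.count_cons_of_ne hxb, List.count_replicate_self]
        omega
      · intro a ha p hp
        have hax : a ≠ x := by
          rintro rfl
          exact hx (List.count_pos_iff.mp (by omega))
        rcases Nat.lt_or_ge p (l.count a) with h4 | h4
        · rw [pre_append_lt (by rw [hcl a hax]; exact h4)]
          exact h3 a ha p h4
        · have hab : b = a := by
            by_contra hab
            rw [List.count_append, List.count_singleton] at hp
            simp only [beq_iff_eq, hab, if_false] at hp
            omega
          subst hab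
          rw [List.count_append, List.count_singleton_self] at hp
          have hpe : p = l.count b := by omega
          subst hpe
          rw [pre_append_ge (by rw [hcl b hax]), hcl b hax, Nat.sub_self, pre_cons_zero,
            List.append_nil]
          exact h2
    · obtain ⟨l', h1, h2, h3⟩ := ih c hxl hM' (by
        intro a ha p hp
        exact hc a ha p (lt_of_lt_of_le hp (hcnt a)))
      have hcl : ∀ a, a ≠ x → l'.count a = l.count a := by
        intro a ha
        rw [← h1, List.count_filter (by simpa using ha)]
      refine ⟨l' ++ [b], ?_, ?_, ?_⟩
      · rw [List.filter_append, h1, List.filter_cons_of_pos (by simpa using hxb)]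
        simp
      · rw [List.count_append, h2, List.count_singleton]
        simp [hxb]
      · intro a ha p hp
        have hax : a ≠ x := by
          rintro rfl
          exact hx (List.count_pos_iff.mp (by omega))
        have hab : b ≠ a := by rintro rfl; exact hb ha
        rw [List.count_append, List.count_singleton] at hp
        simp only [beq_iff_eq, hab, if_false, add_zero] at hp
        rw [pre_append_lt (by rw [hcl a hax]; exact hp)]
        exact h3 a ha p hp

end

end Pool.Agent.Lib.MP_09f634_al.Cex
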