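import Mathlib
import Pool.Agent.Lib.MP_09f634_al.Cex.Pre

/-!
# Gluing lists
-/

set_option autoImplicit false

namespace Pool.Agent.Lib.MP_09f634_al.Cex

section

variable {k : ℕ} {light good : Fin k → Prop} {c : Fin k → ℕ} {N : Fin k → Fin k → ℕ → ℕ}

lemma count_pre_of_filter {x a : Fin k} {l l' : List (Fin k)} (j : Fin k)
    (h : l'.filter (fun b => decide (b ≠ j)) = l) (hx : x ≠ j) (ha : a ≠ j) (p : ℕ) :
    (pre a l' p).count x = (pre a l p).count x := by
  rw [← h, pre_filter _ (by simpa using ha), List.count_filter (by simpa using hx)]

lemma pair_det {x j : Fin k} (hxj : x ≠ j) {u v : List (Fin k)} (h1 : u.count x = v.count x)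
    (h2 : u.count j = v.count j)
    (h3 : ∀ p < u.count x, (pre x u p).count j = (pre x v p).count j) (q : ℕ) :
    (pre j u q).count x = (pre j v q).count x := by
  have key : u.filter (fun b => decide (b = x ∨ b = j)) =
      v.filter (fun b => decide (b = x ∨ b = j)) := by
    apply list_eq_of_pre j
    · intro i hi i' p hp
      have hix : i = x := by
        have h4 := List.count_pos_iff.mp (lt_of_le_of_lt (Nat.zero_le p) hp)
        rw [List.mem_filter] at h4
        have h5 : i = x ∨ i = j := by simpa using h4.2
        rcases h5 with h5 | h5
        · exact h5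
        · exact absurd h5 hi
      subst hix
      rw [List.count_filter (by simp)] at hp
      rw [pre_filter _ (by simp), pre_filter _ (by simp)]
      by_cases h4 : i' = i
      · subst h4
        rw [List.count_filter (by simp), List.count_filter (by simp), count_pre_self,
          count_pre_self, h1]
      · by_cases h5 : i' = j
        · subst h5
          rw [List.count_filter (by simp), List.count_filter (by simp)]
          exact h3 p hp
        · rw [List.count_eq_zero_of_not_mem (by simp [h4, h5]),
            List.count_eq_zero_of_not_mem (by simp [h4, h5])]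
    · intro i
      by_cases h4 : i = x
      · subst h4
        rw [List.count_filter (by simp), List.count_filter (by simp), h1]
      · by_cases h5 : i = j
        · subst h5
          rw [List.count_filter (by simp), List.count_filter (by simp), h2]
        · rw [List.count_eq_zero_of_not_mem (by simp [h4, h5]),
            List.count_eq_zero_of_not_mem (by simp [h4, h5])]
  have e1 : (pre j u q).count x =
      (pre j (u.filter (fun b => decide (b = x ∨ b = j))) q).count x := by
    rw [pre_filter _ (by simp), List.count_filter (by simp)]
  have e2 : (pre j v q).count x =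
      (pre j (v.filter (fun b => decide (b = x ∨ b = j))) q).count x := by
    rw [pre_filter _ (by simp), List.count_filter (by simp)]
  rw [e1, e2, key]

theorem glue_light (hlg : ∀ a, light a → good a)
    (g1 : ∀ x a b, good x → light a → light b → ∀ p q, p < c a → q < c b → p < N a b q →
      N x a p ≤ N x b q)
    (g2 : ∀ x a, good x → light a → ∀ p, p < c a → N x a p ≤ c x)
    (g3 : ∀ a b, light a → light b → a ≠ b → ∃ u : List (Fin k), u.count a = c a ∧
      u.count b = c b ∧ (∀ p < c a, (pre a u p).count b = N b a p) ∧
        (∀ q < c b, (pre b u q).count a = N a b q))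
    (g4 : ∀ a, light a → ∀ p < c a, N a a p = p) (T : Finset (Fin k)) :
    (∀ a ∈ T, light a) → ∃ l : List (Fin k), (∀ a ∈ T, l.count a = c a) ∧
      (∀ a, a ∉ T → l.count a = 0) ∧
      ∀ x ∈ T, ∀ a ∈ T, ∀ p < c a, (pre a l p).count x = N x a p := by
  induction T using Finset.induction_on with
  | empty => exact fun _ => ⟨[], by simp, by simp, by simp⟩
  | insert j T hj ih =>
    intro hT
    obtain ⟨l, h1, h2, h3⟩ := ih (fun a ha => hT a (Finset.mem_insert_of_mem ha))
    have hlj : light j := hT j (Finset.mem_insert_self _ _)
    have hlT : ∀ a ∈ T, light a := fun a ha => hT a (Finset.mem_insert_of_mem ha)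
    have hmem : ∀ a, ∀ p, p < l.count a → a ∈ T := by
      intro a p hp
      by_contra h
      rw [h2 a h] at hp
      omega
    obtain ⟨l', k1, k2, k3⟩ := insert_exists (fun a => a ∈ T) j (N j) l (c j)
      (by
        intro h
        have := List.count_pos_iff.mpr h
        rw [h2 j hj] at this
        omega)
      (by
        intro a b ha hb p q hp hq
        rw [h1 b hb] at hq
        rw [h3 a ha b hb q hq] at hp
        exact g1 j a b (hlg j hlj) (hlT a ha) (hlT b hb) p q
          (lt_of_lt_of_le hp (g2 a b (hlg a (hlT a ha)) (hlT b hb) q hq)) hq hp)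
      (by
        intro a ha p hp
        rw [h1 a ha] at hp
        exact g2 j a (hlg j hlj) (hlT a ha) p hp)
    have hne : ∀ a ∈ T, a ≠ j := fun a ha h => hj (h ▸ ha)
    have hcnt : ∀ a, a ≠ j → l'.count a = l.count a := by
      intro a ha
      rw [← k1, List.count_filter (by simpa using ha)]
    have hcT : ∀ a ∈ insert j T, l'.count a = c a := by
      intro a ha
      rcases Finset.mem_insert.mp ha with rfl | ha
      · exact k2
      · rw [hcnt a (hne a ha), h1 a ha]
    refine ⟨l', hcT, ?_, ?_⟩
    · intro a ha
      rw [Finset.mem_insert, not_or] at ha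
      rw [hcnt a ha.1, h2 a ha.2]
    · intro x hx a ha p hp
      rcases Finset.mem_insert.mp ha with haj | ha
      · subst haj
        rcases Finset.mem_insert.mp hx with hxj | hx
        · rw [hxj, count_pre_self, k2, g4 a hlj p hp]
          omega
        · obtain ⟨u, u1, u2, u3, u4⟩ := g3 x a (hlT x hx) hlj (hne x hx)
          rw [pair_det (hne x hx) (u := l') (v := u) (by
              rw [hcT x (Finset.mem_insert_of_mem hx), u1])
            (by rw [k2, u2]) (by
              intro p' hp'
              rw [hcT x (Finset.mem_insert_of_mem hx)] at hp'
              rw [u3 p' hp']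
              exact k3 x hx p' (by rw [h1 x hx]; exact hp')) p]
          exact u4 p hp
      · rcases Finset.mem_insert.mp hx with hxj | hx
        · rw [hxj]
          exact k3 a ha p (by rw [h1 a ha]; exact hp)
        · rw [count_pre_of_filter j k1 (hne x hx) (hne a ha)]
          exact h3 x hx a ha p hp

theorem glue (hlg : ∀ a, light a → good a)
    (g1 : ∀ x a b, good x → light a → light b → ∀ p q, p < c a → q < c b → p < N a b q →
      N x a p ≤ N x b q)
    (g2 : ∀ x a, good x → light a → ∀ p, p < c a → N x a p ≤ c x)
    (g3 : ∀ a b, light a → light b → a ≠ b → ∃ u : List (Fin k), u.count a = c a ∧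
      u.count b = c b ∧ (∀ p < c a, (pre a u p).count b = N b a p) ∧
        (∀ q < c b, (pre b u q).count a = N a b q))
    (g4 : ∀ a, light a → ∀ p < c a, N a a p = p) :
    ∃ l : List (Fin k), (∀ a, good a → l.count a = c a) ∧ (∀ a, ¬ good a → l.count a = 0) ∧
      ∀ x a, good x → light a → ∀ p < c a, (pre a l p).count x = N x a p := by
  classical
  have key : ∀ T : Finset (Fin k), (∀ a ∈ T, good a ∧ ¬ light a) → ∃ l : List (Fin k),
      (∀ a, (light a ∨ a ∈ T) → l.count a = c a) ∧
      (∀ a, ¬ (light a ∨ a ∈ T) → l.count a = 0) ∧
      ∀ x a, (light x ∨ x ∈ T) → light a → ∀ p < c a, (pre a l p).count x = N x a p := by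
    intro T
    induction T using Finset.induction_on with
    | empty =>
      intro _
      obtain ⟨l, h1, h2, h3⟩ := glue_light hlg g1 g2 g3 g4
        (Finset.univ.filter (fun a => light a)) (by simp)
      refine ⟨l, fun a ha => h1 a ?_, fun a ha => h2 a ?_, fun x a hx ha p hp => ?_⟩
      · simpa using ha
      · simpa using ha
      · exact h3 x (by simpa using hx) a (by simpa using ha) p hp
    | insert j T hj ih =>
      intro hT
      obtain ⟨l, h1, h2, h3⟩ := ih (fun a ha => hT a (Finset.mem_insert_of_mem ha))
      obtain ⟨hgj, hlj⟩ := hT j (Finset.mem_insert_self _ _)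
      have hj0 : l.count j = 0 := h2 j (by tauto)
      have hne : ∀ a, (light a ∨ a ∈ T) → a ≠ j := by
        rintro a ha rfl
        tauto
      obtain ⟨l', k1, k2, k3⟩ := insert_exists light j (N j) l (c j)
        (by
          intro h
          have := List.count_pos_iff.mpr h
          omega)
        (by
          intro a b ha hb p q hp hq
          rw [h1 b (Or.inl hb)] at hq
          rw [h3 a b (Or.inl ha) hb q hq] at hp
          exact g1 j a b hgj ha hb p q
            (lt_of_lt_of_le hp (g2 a b (hlg a ha) hb q hq)) hq hp)
        (by
          intro a ha p hp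
          rw [h1 a (Or.inl ha)] at hp
          exact g2 j a hgj ha p hp)
      have hcnt : ∀ a, a ≠ j → l'.count a = l.count a := by
        intro a ha
        rw [← k1, List.count_filter (by simpa using ha)]
      refine ⟨l', ?_, ?_, ?_⟩
      · intro a ha
        by_cases haj : a = j
        · rw [haj]; exact k2
        · rw [hcnt a haj, h1 a]
          rcases ha with ha | ha
          · exact Or.inl ha
          · exact Or.inr ((Finset.mem_insert.mp ha).resolve_left haj)
      · intro a ha
        rw [Finset.mem_insert] at ha
        have haj : a ≠ j := fun h => ha (Or.inr (Or.inl h))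
        rw [hcnt a haj, h2 a]
        tauto
      · intro x a hx ha p hp
        have hp' : p < l.count a := by rw [h1 a (Or.inl ha)]; exact hp
        by_cases hxj : x = j
        · subst hxj
          exact k3 a ha p hp'
        · have hx' : light x ∨ x ∈ T := by
            rcases hx with hx | hx
            · exact Or.inl hx
            · exact Or.inr ((Finset.mem_insert.mp hx).resolve_left hxj)
          rw [count_pre_of_filter j k1 hxj (hne a (Or.inl ha))]
          exact h3 x a hx' ha p hp
  obtain ⟨l, h1, h2, h3⟩ := key (Finset.univ.filter (fun a => good a ∧ ¬ light a)) (by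
    intro a ha
    simpa using ha)
  have hiff : ∀ a, (light a ∨ a ∈ Finset.univ.filter (fun a => good a ∧ ¬ light a)) ↔ good a := by
    intro a
    have := hlg a
    simp only [Finset.mem_filter, Finset.mem_univ, true_and]
    tauto
  simp only [hiff] at h1 h2 h3
  exact ⟨l, h1, h2, h3⟩

/-- letters and a common letter -/
inductive Opt (k : ℕ) where
  | st : Opt k
  | lt : Fin k → Opt k
  deriving DecidableEq

/-- equality of values from equality of initial counts -/
theorem flatMap_eq_of_pre (light : Fin k → Prop) (u v : List (Fin k)) (V : Fin k → List ℕ)
    (hV : ∀ a, ¬ light a → a ∈ u ∨ a ∈ v → V a = [] ∨ V a = [0])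
    (hc : ∀ a, V a ≠ [] → u.count a = v.count a)
    (hc' : ∀ a, light a → u.count a = v.count a)
    (h : ∀ a, light a → ∀ x, (light x ∨ V x ≠ []) → ∀ p < u.count a,
      (pre a u p).count x = (pre a v p).count x) :
    u.flatMap V = v.flatMap V := by
  classical
  let φ : Fin k → List (Opt k) := fun a =>
    if light a then [Opt.lt a] else if V a = [] then [] else [Opt.st]
  let V' : Opt k → List ℕ := fun o => match o with
    | Opt.lt a => V a
    | Opt.st => [0]
  have hφ : ∀ w : List (Fin k), (∀ a ∈ w, ¬ light a → V a = [] ∨ V a = [0]) →
      w.flatMap V = (w.flatMap φ).flatMap V' := by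
    intro w hw
    rw [List.flatMap_assoc]
    induction w with
    | nil => rfl
    | cons a w ih =>
      rw [List.flatMap_cons, List.flatMap_cons, ih (fun b hb => hw b (by simp [hb]))]
      congr 1
      by_cases ha : light a
      · simp [φ, V', ha]
      · rcases hw a (by simp) ha with h1 | h1
        · simp [φ, ha, h1]
        · simp [φ, V', ha, h1]
  have hcn : ∀ w : List (Fin k), (w.flatMap φ).count Opt.st =
      ∑ a, if light a ∨ V a = [] then 0 else w.count a := by
    intro w
    induction w with
    | nil => simp
    | cons b w ih =>
      rw [List.flatMap_cons, List.count_append, ih]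
      have e1 : ∀ a, (if light a ∨ V a = [] then 0 else (b :: w).count a) =
          (if light a ∨ V a = [] then 0 else w.count a) +
            (if b = a then (if light b ∨ V b = [] then 0 else 1) else 0) := by
        intro a
        rw [List.count_cons]
        by_cases hba : b = a
        · subst hba
          by_cases h1 : light b ∨ V b = [] <;> simp [h1]
        · by_cases h1 : light a ∨ V a = [] <;> simp [h1, hba]
      simp only [e1, Finset.sum_add_distrib, Finset.sum_ite_eq, Finset.mem_univ, if_true]
      rw [add_comm]
      congr 1
      by_cases h1 : light b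
      · simp [φ, h1]
      · by_cases h2 : V b = [] <;> simp [φ, h1, h2]
  have hcs : ∀ (w : List (Fin k)) (a : Fin k), (w.flatMap φ).count (Opt.lt a) =
      if light a then w.count a else 0 := by
    intro w a
    induction w with
    | nil => simp
    | cons b w ih =>
      rw [List.flatMap_cons, List.count_append, ih, List.count_cons]
      by_cases h1 : light b
      · by_cases h2 : b = a
        · subst h2
          simp [φ, h1]; omega
        · simp [φ, h1, h2]
      · by_cases h2 : b = a
        · subst h2
          by_cases h3 : V b = [] <;> simp [φ, h1, h3]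
        · by_cases h3 : V b = [] <;> simp [φ, h1, h2, h3]
  rw [hφ u (fun a ha h1 => hV a h1 (Or.inl ha)), hφ v (fun a ha h1 => hV a h1 (Or.inr ha))]
  congr 1
  apply list_eq_of_pre Opt.st
  · intro i hi j p hp
    obtain ⟨a, rfl⟩ : ∃ a, i = Opt.lt a := by
      cases i with
      | st => exact absurd rfl hi
      | lt a => exact ⟨a, rfl⟩
    rw [hcs] at hp
    have hla : light a := by
      by_contra h1
      simp [h1] at hp
    simp only [hla, if_true] at hp
    have hpre : ∀ w : List (Fin k), pre (Opt.lt a) (w.flatMap φ) p = (pre a w p).flatMap φ := by
      intro w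
      apply pre_flatMap (t := [])
      · simp [φ, hla]
      · simp
      · intro b hb
        by_cases h1 : light b
        · simp [φ, h1, Ne.symm hb]
        · by_cases h2 : V b = [] <;> simp [φ, h1, h2]
    rw [hpre, hpre]
    cases j with
    | st =>
      rw [hcn, hcn]
      apply Finset.sum_congr rfl
      intro x _
      by_cases h1 : light x ∨ V x = []
      · simp [h1]
      · simp only [h1, if_false]
        rw [not_or] at h1
        exact h a hla x (Or.inr h1.2) p hp
    | lt x =>
      rw [hcs, hcs]
      by_cases h1 : light x
      · simp only [h1, if_true]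
        exact h a hla x (Or.inl h1) p hp
      · simp [h1]
  · intro j
    cases j with
    | st =>
      rw [hcn, hcn]
      apply Finset.sum_congr rfl
      intro x _
      by_cases h1 : light x ∨ V x = []
      · simp [h1]
      · simp only [h1, if_false]
        rw [not_or] at h1
        exact hc x h1.2
    | lt x =>
      rw [hcs, hcs]
      by_cases h1 : light x
      · simp only [h1, if_true]
        exact hc' x h1
      · simp [h1]

end

end Pool.Agent.Lib.MP_09f634_al.Cex
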