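import Mathlib
import Pool.Agent.Lib.MP_09f634_al.Cex.Ok
import Pool.Agent.Lib.MP_09f634_al.Cex.Glue

/-!
# Local lists
-/

set_option autoImplicit false

namespace Pool.Agent.Lib.MP_09f634_al.Cex

/-- the larger set of words -/
abbrev WA (a : ℕ) : Set Word := W0 ∪ {FreeMonoid.of a ^ 11}

/-- class of a list -/
def clL (a : ℕ) (v : List ℕ) : M (WA a) := cl (WA a) (FreeMonoid.ofList v)

lemma flatMap_congr2 {α β : Type} {l : List α} {f g : α → List β} (h : ∀ a ∈ l, f a = g a) :
    l.flatMap f = l.flatMap g := by
  induction l with
  | nil => rfl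
  | cons a l ih =>
    rw [List.flatMap_cons, List.flatMap_cons, h a (by simp), ih (fun b hb => h b (by simp [hb]))]

lemma ofList_flatMap {k : ℕ} (u : List (Fin k)) (V : Fin k → List ℕ) :
    FreeMonoid.ofList (u.flatMap V) = ev u (fun i => FreeMonoid.ofList (V i)) := by
  apply FreeMonoid.toList.injective
  rw [toList_ev, FreeMonoid.toList_ofList]
  rfl

lemma clL_ok {a : ℕ} {x y : List ℕ} (h : clL a x = clL a y) (hx : Ok x) : x = y := by
  have h1 := (cl_union_eq.mp h).1
  have h2 : FreeMonoid.ofList x ∈ Subwords W0 := by
    rw [Sub_W0, mem_W0, FreeMonoid.toList_ofList]; exact hx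
  rw [cl_eq_iff_of_mem h2] at h1
  exact FreeMonoid.ofList.injective h1

section counts

variable {α : Type} [DecidableEq α]

lemma count_flatMap_one (l : List α) (V : α → List ℕ) {x : α} {a : ℕ} (hx : V x = [a])
    (h : ∀ b, b ≠ x → a ∉ V b) : (l.flatMap V).count a = l.count x := by
  induction l with
  | nil => rfl
  | cons b l ih =>
    rw [List.flatMap_cons, List.count_append, ih, List.count_cons]
    by_cases hb : b = x
    · subst hb
      simp [hx, Nat.add_comm]
    · rw [List.count_eq_zero_of_not_mem (h b hb)]
      simp [hb]

lemma count_flatMap_le (l : List α) (V V' : α → List ℕ) (a : ℕ)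
    (h : ∀ b, (V b).count a ≤ (V' b).count a) :
    (l.flatMap V).count a ≤ (l.flatMap V').count a := by
  induction l with
  | nil => rfl
  | cons b l ih =>
    rw [List.flatMap_cons, List.flatMap_cons, List.count_append, List.count_append]
    have := h b
    omega

lemma count_flatMap_sum {k : ℕ} (l : List (Fin k)) (V : Fin k → List ℕ) (a : ℕ) :
    (l.flatMap V).count a = ∑ j, l.count j * (V j).count a := by
  rw [← sum_map_count]
  induction l with
  | nil => rfl
  | cons b l ih =>
    rw [List.flatMap_cons, List.count_append, ih]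
    rfl

lemma length_flatMap_sum {k : ℕ} (l : List (Fin k)) (V : Fin k → List ℕ) :
    (l.flatMap V).length = ∑ j, l.count j * (V j).length := by
  rw [← sum_map_count]
  induction l with
  | nil => rfl
  | cons b l ih =>
    rw [List.flatMap_cons, List.length_append, ih]
    rfl

end counts

section

variable {k a : ℕ} {F : (Fin k → List ℕ) → M (WA a)}

/-- `u` gives the values of `F` at the points supported in `Z` -/
def IsLoc (F : (Fin k → List ℕ) → M (WA a)) (Z : Finset (Fin k)) (u : List (Fin k)) : Prop :=
  ∀ V : Fin k → List ℕ, (∀ i, i ∉ Z → V i = []) → F V = clL a (u.flatMap V)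

variable {Z Z' : Finset (Fin k)} {u v : List (Fin k)}

lemma IsLoc.mono (h : IsLoc F Z u) (hZ : Z' ⊆ Z) : IsLoc F Z' u :=
  fun V hV => h V (fun i hi => hV i (fun h' => hi (hZ h')))

lemma IsLoc.eq (hu : IsLoc F Z u) (hv : IsLoc F Z v) {V : Fin k → List ℕ}
    (hV : ∀ i, i ∉ Z → V i = []) (hok : Ok (u.flatMap V)) : u.flatMap V = v.flatMap V :=
  clL_ok ((hu V hV).symm.trans (hv V hV)) hok

lemma ofList_replicate (a n : ℕ) : FreeMonoid.ofList (List.replicate n a) = FreeMonoid.of a ^ n := by
  induction n with
  | zero => rfl
  | succ n ih =>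
    rw [pow_succ', ← ih, List.replicate_succ]
    rfl

lemma flatMap_single (u : List (Fin k)) (i : Fin k) (a : ℕ) :
    u.flatMap (fun j => if j = i then [a] else []) = List.replicate (u.count i) a := by
  induction u with
  | nil => rfl
  | cons b u ih =>
    rw [List.flatMap_cons, ih, List.count_cons]
    by_cases hb : b = i
    · subst hb
      simp [List.replicate_succ]
    · simp [hb]

lemma IsLoc.count (hu : IsLoc F Z u) (hv : IsLoc F Z v) {i : Fin k} (hi : i ∈ Z) :
    min (u.count i) 12 = min (v.count i) 12 := by
  have hV : ∀ j, j ∉ Z → (fun j => if j = i then [a] else []) j = [] := by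
    intro j hj
    have : j ≠ i := by rintro rfl; exact hj hi
    simp [this]
  have h1 := (hu _ hV).symm.trans (hv _ hV)
  rw [flatMap_single, flatMap_single] at h1
  unfold clL at h1
  rw [ofList_replicate, ofList_replicate] at h1
  exact cl_pow_eq (cl_union_eq.mp h1).2

lemma IsLoc.count_eq (hu : IsLoc F Z u) (hv : IsLoc F Z v) {i : Fin k} (hi : i ∈ Z)
    (h : u.count i ≤ 11) : v.count i = u.count i := by
  have := hu.count hv hi
  omega

lemma isLoc_of (hu : IsLoc F Z u)
    (h : ∀ V : Fin k → List ℕ, (∀ i, i ∉ Z → V i = []) →
      u.flatMap V = v.flatMap V ∨ (¬ Ok (u.flatMap V) ∧ ¬ Ok (v.flatMap V)))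
    (hc : ∀ i ∈ Z, min (u.count i) 12 = min (v.count i) 12) : IsLoc F Z v := by
  intro V hV
  rw [hu V hV]
  unfold clL
  rw [cl_union_eq]
  constructor
  · rcases h V hV with h1 | ⟨h1, h2⟩
    · rw [h1]
    · apply cl_eq_of_notMem
      · rw [Sub_W0, mem_W0, FreeMonoid.toList_ofList]; exact h1
      · rw [Sub_W0, mem_W0, FreeMonoid.toList_ofList]; exact h2
  · rw [ofList_flatMap, ofList_flatMap]
    apply cl_ev_eq_of_counts
    intro i hi
    apply hc
    by_contra h1
    apply hi
    rw [hV i h1]
    rfl

/-- lights relative to lights -/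
lemma IsLoc.light (hu : IsLoc F Z u) (hv : IsLoc F Z v) {i j : Fin k} (hi : i ∈ Z) (hj : j ∈ Z)
    (ci : u.count i ≤ 3) (cj : u.count j ≤ 3) (p : ℕ) :
    (pre i u p).count j = (pre i v p).count j := by
  by_cases hij : j = i
  · subst hij
    rw [count_pre_self, count_pre_self, hu.count_eq hv hi (by omega)]
  · let V : Fin k → List ℕ := fun b => if b = i then [1] else if b = j then [2] else []
    have hVZ : ∀ b, b ∉ Z → V b = [] := by
      intro b hb
      have h1 : b ≠ i := by rintro rfl; exact hb hi
      have h2 : b ≠ j := by rintro rfl; exact hb hj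
      simp [V, h1, h2]
    have h1V : ∀ b, b ≠ i → 1 ∉ V b := by
      intro b hb
      simp only [V, hb, if_false]
      split_ifs <;> simp
    have h2V : ∀ b, b ≠ j → 2 ∉ V b := by
      intro b hb
      simp only [V, hb, if_false]
      split_ifs <;> simp
    have hVi : V i = [1] := by simp [V]
    have hVj : V j = [2] := by simp [V, hij]
    have hsub : ∀ b x, x ∈ V b → x = 1 ∨ x = 2 := by
      intro b x hx
      by_cases h1 : b = i
      · simp [V, h1] at hx; omega
      · by_cases h2 : b = j
        · simp [V, h1, h2] at hx
          split_ifs at hx <;> simp at hx <;> omega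
        · simp [V, h1, h2] at hx
    have hok : Ok (u.flatMap V) := by
      apply ok_of_few
      · intro x hx
        rw [List.mem_flatMap] at hx
        obtain ⟨b, -, hb⟩ := hx
        have := hsub b x hb
        omega
      · intro x
        by_cases h1 : x = 1
        · subst h1
          rw [count_flatMap_one u V hVi h1V]
          exact ci
        · by_cases h2 : x = 2
          · subst h2
            rw [count_flatMap_one u V hVj h2V]
            exact cj
          · rw [List.count_eq_zero_of_not_mem]
            · omega
            · intro hx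
              rw [List.mem_flatMap] at hx
              obtain ⟨b, -, hb⟩ := hx
              have := hsub b x hb
              omega
    have h1 := hu.eq hv hVZ hok
    have e : ∀ w : List (Fin k), (pre i w p).count j = (pre 1 (w.flatMap V) p).count 2 := by
      intro w
      rw [pre_flatMap (t := []) V hVi (by simp) h1V, count_flatMap_one _ V hVj h2V]
    rw [e, e, h1]

/-- adding a new letter -/
lemma extend {V : Fin k → List ℕ} (hok : Ok (u.flatMap V)) (h4 : 4 ≤ (u.flatMap V).count 0) :
    ∃ (S : Finset ℕ) (q : ℕ), q ∉ S ∧ 1 ≤ q ∧ q ≤ 25 ∧ Core (restr S (u.flatMap V)) ∧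
      ∀ i, u.count i ≤ 3 →
        Ok (u.flatMap (fun j => if j = i then q :: restr S (V j) else restr S (V j))) := by
  obtain ⟨h1, h2, h3 | ⟨S, hS, hcore⟩⟩ := id hok
  · omega
  obtain ⟨q, hq, hqS⟩ : ∃ q ∈ Finset.Icc 1 25, q ∉ S := by
    by_contra hcon
    push Not at hcon
    have := Finset.card_le_card (show Finset.Icc 1 25 ⊆ S from hcon)
    rw [Nat.card_Icc] at this
    omega
  rw [Finset.mem_Icc] at hq
  refine ⟨S, q, hqS, hq.1, hq.2, hcore, fun i hi => ?_⟩
  have hq0 : q ≠ 0 := by omega
  have hqr : ∀ v, q ∉ restr S v := by
    intro v h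
    unfold restr at h
    rw [List.mem_filter] at h
    have := h.2
    simp only [decide_eq_true_eq] at this
    tauto
  have hrs : ∀ (v : List ℕ) (b : ℕ), (restr S v).count b ≤ v.count b := by
    intro v b
    unfold restr
    exact (List.filter_sublist).count_le b
  refine ⟨?_, ?_, Or.inr ⟨S, hS, ?_⟩⟩
  · intro b hb
    rw [List.mem_flatMap] at hb
    obtain ⟨j, hj, hbj⟩ := hb
    have hb' : b = q ∨ b ∈ V j := by
      have hsub : ∀ b, b ∈ restr S (V j) → b ∈ V j := fun b hb => List.mem_of_mem_filter hb
      split_ifs at hbj
      · rcases List.mem_cons.mp hbj with h | h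
        · exact Or.inl h
        · exact Or.inr (hsub b h)
      · exact Or.inr (hsub b hbj)
    rcases hb' with rfl | hb'
    · exact hq.2
    · exact h1 b (List.mem_flatMap.mpr ⟨j, hj, hb'⟩)
  · intro b hb0
    by_cases hbq : b = q
    · subst hbq
      refine le_trans (le_of_eq ?_) hi
      induction u with
      | nil => rfl
      | cons c u ih =>
        clear h1 h2 hok h4 hcore hi
        rw [List.flatMap_cons, List.count_append, List.count_cons]
        have e : ∀ u : List (Fin k), (u.flatMap (fun j => if j = i then b :: restr S (V j) else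
            restr S (V j))).count b = u.count i := by
          intro u
          induction u with
          | nil => rfl
          | cons c u ih =>
            rw [List.flatMap_cons, List.count_append, List.count_cons, ih]
            by_cases hc : c = i
            · subst hc
              simp only [if_true, List.count_cons_self, beq_self_eq_true]
              rw [List.count_eq_zero_of_not_mem (hqr _)]
              omega
            · simp only [hc, if_false, beq_iff_eq]
              rw [List.count_eq_zero_of_not_mem (hqr _)]
              omega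
        rw [e]
        by_cases hc : c = i
        · subst hc
          simp only [if_true, List.count_cons_self, beq_self_eq_true]
          rw [List.count_eq_zero_of_not_mem (hqr _)]
          omega
        · simp only [hc, if_false, beq_iff_eq]
          rw [List.count_eq_zero_of_not_mem (hqr _)]
          omega
    · refine (count_flatMap_le u _ V b ?_).trans (h2 b hb0)
      intro j
      by_cases hj : j = i
      · simp only [hj, if_true]
        rw [List.count_cons_of_ne (Ne.symm hbq)]
        exact hrs _ _
      · simp only [hj, if_false]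
        exact hrs _ _
  · have : restr S (u.flatMap (fun j => if j = i then q :: restr S (V j) else restr S (V j))) =
        restr S (u.flatMap V) := by
      rw [restr_flatMap, restr_flatMap]
      apply flatMap_congr2
      intro j _
      have hrr : restr S (restr S (V j)) = restr S (V j) := by
        unfold restr
        rw [List.filter_filter]
        simp
      split_ifs
      · have : restr S (q :: restr S (V j)) = restr S (restr S (V j)) := by
          unfold restr
          rw [List.filter_cons_of_neg (by simp [hq0, hqS])]
        rw [this, hrr]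
      · exact hrr
    rw [this]
    exact hcore

/-- the sums over the heavy letters are visible -/
lemma IsLoc.xsum (hu : IsLoc F Z u) (hv : IsLoc F Z v) {V : Fin k → List ℕ}
    (hV : ∀ i, i ∉ Z → V i = []) (hok : Ok (u.flatMap V)) (h4 : 4 ≤ (u.flatMap V).count 0)
    {i : Fin k} (hi : i ∈ Z) (ci : u.count i ≤ 3) (p : ℕ) :
    ∑ j ∈ Finset.univ.filter (fun j => 4 ≤ u.count j ∧ V j ≠ []), (pre i u p).count j =
      ∑ j ∈ Finset.univ.filter (fun j => 4 ≤ u.count j ∧ V j ≠ []), (pre i v p).count j := by
  obtain ⟨S, q, hqS, hq1, hq2, -, hext⟩ := extend hok h4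
  have hok' := hext i ci
  set V5 : Fin k → List ℕ := fun j => if j = i then q :: restr S (V j) else restr S (V j) with hV5
  have hV5Z : ∀ j, j ∉ Z → V5 j = [] := by
    intro j hj
    have h1 : j ≠ i := by rintro rfl; exact hj hi
    simp only [hV5, h1, if_false, hV j hj]
    rfl
  have heq := hu.eq hv hV5Z hok'
  have hqr : ∀ v, q ∉ restr S v := by
    intro v h
    unfold restr at h
    rw [List.mem_filter] at h
    have := h.2
    simp only [decide_eq_true_eq] at this
    rcases this with h | h
    · omega
    · exact hqS h
  have h0 : ∀ j, (V5 j).count 0 = (V j).count 0 := by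
    intro j
    simp only [hV5]
    split_ifs
    · rw [List.count_cons_of_ne (by omega), count_zero_restr]
    · rw [count_zero_restr]
  have hpre : ∀ w : List (Fin k), (pre q (w.flatMap V5) p).count 0 =
      ∑ j, (pre i w p).count j * (V j).count 0 := by
    intro w
    rw [pre_flatMap (i := i) (t := restr S (V i)) V5 (by simp [hV5]) (hqr _) (by
      intro j hj
      simp only [hV5, hj, if_false]
      exact hqr _), count_flatMap_sum]
    simp only [h0]
  have hsum := hpre u
  rw [heq, hpre v] at hsum
  rw [← Finset.sum_add_sum_compl (Finset.univ.filter (fun j => 4 ≤ u.count j ∧ V j ≠ [])),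
    ← Finset.sum_add_sum_compl (Finset.univ.filter (fun j => 4 ≤ u.count j ∧ V j ≠ []))
      (fun j => (pre i u p).count j * (V j).count 0)] at hsum
  have e1 : ∀ w : List (Fin k), ∑ j ∈ Finset.univ.filter (fun j => 4 ≤ u.count j ∧ V j ≠ []),
      (pre i w p).count j * (V j).count 0 =
      ∑ j ∈ Finset.univ.filter (fun j => 4 ≤ u.count j ∧ V j ≠ []), (pre i w p).count j := by
    intro w
    apply Finset.sum_congr rfl
    intro j hj
    simp only [Finset.mem_filter, Finset.mem_univ, true_and] at hj
    rw [(heavy_val hok hj.1).resolve_left hj.2]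
    simp
  have e2 : ∑ j ∈ (Finset.univ.filter (fun j => 4 ≤ u.count j ∧ V j ≠ []))ᶜ,
      (pre i u p).count j * (V j).count 0 =
      ∑ j ∈ (Finset.univ.filter (fun j => 4 ≤ u.count j ∧ V j ≠ []))ᶜ,
      (pre i v p).count j * (V j).count 0 := by
    apply Finset.sum_congr rfl
    intro j hj
    simp only [Finset.mem_compl, Finset.mem_filter, Finset.mem_univ, true_and, not_and_or,
      not_le, ne_eq, not_not] at hj
    rcases hj with hj | hj
    · by_cases hjZ : j ∈ Z
      · rw [hu.light hv hi hjZ ci (by omega)]
      · rw [hV j hjZ]; simp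
    · rw [hj]; simp
  rw [e1, e1, e2] at hsum
  omega

end

end Pool.Agent.Lib.MP_09f634_al.Cex
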