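import Mathlib
import Pool.Agent.Lib.MP_09f634_al.Cex.Fill
import Pool.Agent.Lib.MP_09f634_al.Cex.Chain
import Pool.Agent.Lib.MP_09f634_al.Cex.Loc

/-!
# Active letters
-/

set_option autoImplicit false

namespace Pool.Agent.Lib.MP_09f634_al.Cex

section

variable {k a : ℕ} {F : (Fin k → List ℕ) → M (WA a)} {R0 : ℕ}

/-- a visible value -/
structure Wit (F : (Fin k → List ℕ) → M (WA a)) (R0 : ℕ) (Z : Finset (Fin k))
    (u : List (Fin k)) (V : Fin k → List ℕ) : Prop where
  card : Z.card ≤ R0
  supp : ∀ i, i ∉ Z → V i = []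
  loc : IsLoc F Z u
  ok : Ok (u.flatMap V)

/-- `x` is the only heavy letter with a nontrivial value in some visible value -/
def Bright (F : (Fin k → List ℕ) → M (WA a)) (R0 : ℕ) (x : Fin k) : Prop :=
  ∃ Z u V, Wit F R0 Z u V ∧ V x ≠ [] ∧ 4 ≤ u.count x ∧ ∀ y, y ≠ x → 4 ≤ u.count y → V y = []

/-- `x` is a heavy letter with a nontrivial value in some visible value -/
def Active (F : (Fin k → List ℕ) → M (WA a)) (R0 : ℕ) (x : Fin k) : Prop :=
  ∃ Z u V, Wit F R0 Z u V ∧ V x ≠ [] ∧ 4 ≤ u.count x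

lemma infix_T_facts {v : List ℕ} (h : v <:+: T1 ∨ v <:+: T2) :
    v.length ≤ 24 ∧ v.count 0 ≤ 11 ∧ ∀ b ∈ v, b ≤ 5 := by
  rcases h with h | h
  · refine ⟨h.length_le, (infix_count h 0).trans (by decide), fun b hb => ?_⟩
    have k1 : ∀ a ∈ T1, a ≤ 5 := by decide
    exact k1 b (h.subset hb)
  · refine ⟨h.length_le, (infix_count h 0).trans (by decide), fun b hb => ?_⟩
    have k1 : ∀ a ∈ T2, a ≤ 5 := by decide
    exact k1 b (h.subset hb)

lemma sub_flatMap {u : List (Fin k)} {V : Fin k → List ℕ} {j : Fin k} (hj : j ∈ u) {b : ℕ}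
    (hb : b ∈ V j) : b ∈ u.flatMap V := List.mem_flatMap.mpr ⟨j, hj, hb⟩

lemma dark_bad {u : List (Fin k)} {Z : Finset (Fin k)} (hZ : Z.card ≤ R0) (hu : IsLoc F Z u)
    {V' : Fin k → List ℕ} (hVZ : ∀ i, i ∉ Z → V' i = []) (hVu : ∀ j, V' j ≠ [] → j ∈ u)
    {x y : Fin k} (hxy : x ≠ y) (hx : V' x = [0]) (hy : V' y = [0]) (hcx : 4 ≤ u.count x)
    (hcy : 4 ≤ u.count y) (hother : ∀ j, j ≠ x → j ≠ y → 4 ≤ u.count j → V' j = [])
    (hT : u.flatMap V' <:+: T1 ∨ u.flatMap V' <:+: T2) (hdark : ¬ Bright F R0 x)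
    {mx my : ℕ} (hm : mx ≠ my) (h5y : 5 < my) :
    Bad mx ((u.flatMap (fun j => if j = x then [mx] else if j = y then [my] else V' j)).filter
      (fun b => decide (b ≠ my))) := by
  classical
  obtain ⟨hlen, hc0, hl5⟩ := infix_T_facts hT
  have hV5 : ∀ j, ∀ b ∈ V' j, b ≤ 5 := by
    intro j b hb
    exact hl5 b (sub_flatMap (hVu j (List.ne_nil_of_mem hb)) hb)
  have hsum11 : u.count x + u.count y ≤ 11 := by
    have h1 := count_flatMap_ge {x, y} u V' 0
    rw [Finset.sum_insert (by simpa using hxy), Finset.sum_singleton, hx, hy] at h1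
    simp only [List.count_singleton_self, mul_one] at h1
    omega
  set D : Finset (Fin k) := Finset.univ.filter (fun j => j ≠ x ∧ j ≠ y ∧ V' j ≠ []) with hD
  have hDm : ∀ j, j ∈ D ↔ j ≠ x ∧ j ≠ y ∧ V' j ≠ [] := fun j => by simp [hD]
  have hDl : ∀ j ∈ D, u.count j ≤ 3 := by
    intro j hj
    by_contra hcon
    obtain ⟨h1, h2, h3⟩ := (hDm j).mp hj
    exact h3 (hother j h1 h2 (by omega))
  have hDc : D.card ≤ 16 := by
    rw [length_flatMap_sum] at hlen
    have h1 : ∑ j ∈ insert x (insert y D), u.count j * (V' j).length ≤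
        ∑ j, u.count j * (V' j).length := Finset.sum_le_sum_of_subset (Finset.subset_univ _)
    have hyD : y ∉ D := fun h => ((hDm y).mp h).2.1 rfl
    have hxD : x ∉ insert y D := by
      rw [Finset.mem_insert, not_or]
      exact ⟨hxy, fun h => ((hDm x).mp h).1 rfl⟩
    rw [Finset.sum_insert hxD, Finset.sum_insert hyD, hx, hy] at h1
    simp only [List.length_singleton, mul_one] at h1
    have h2 : D.card ≤ ∑ j ∈ D, u.count j * (V' j).length := by
      rw [Finset.card_eq_sum_ones]
      apply Finset.sum_le_sum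
      intro j hj
      obtain ⟨-, -, h3⟩ := (hDm j).mp hj
      have h4 : 1 ≤ u.count j := List.count_pos_iff.mpr (hVu j h3)
      have h5 : 1 ≤ (V' j).length := List.length_pos_iff.mpr h3
      nlinarith
    omega
  let e : Fin k → ℕ := fun j => D.toList.idxOf j + 1
  have he1 : ∀ j, 1 ≤ e j := fun j => by simp [e]
  have he16 : ∀ j ∈ D, e j ≤ 16 := by
    intro j hj
    have h1 : D.toList.idxOf j < D.toList.length :=
      List.idxOf_lt_length_iff.mpr (Finset.mem_toList.mpr hj)
    rw [Finset.length_toList] at h1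
    simp only [e]
    omega
  have heinj : ∀ i ∈ D, ∀ j, e i = e j → i = j := by
    intro i hi j hij
    simp only [e, add_left_inj] at hij
    exact (List.idxOf_inj (Finset.mem_toList.mpr hi)).mp hij
  let V2 : Fin k → List ℕ := fun j => if j = x then [0] else if j ∈ D then [e j] else []
  have hxD : x ∉ D := fun h => ((hDm x).mp h).1 rfl
  have hyD : y ∉ D := fun h => ((hDm y).mp h).2.1 rfl
  have hV2x : V2 x = [0] := by simp [V2]
  have hV2D : ∀ j ∈ D, V2 j = [e j] := by
    intro j hj
    have : j ≠ x := by rintro rfl; exact hxD hj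
    simp [V2, this, hj]
  have hV2o : ∀ j, j ≠ x → j ∉ D → V2 j = [] := by
    intro j h1 h2
    simp [V2, h1, h2]
  have hV2mem : ∀ j b, b ∈ V2 j → (b = 0 ∧ j = x) ∨ (j ∈ D ∧ b = e j) := by
    intro j b hb
    by_cases h1 : j = x
    · rw [h1, hV2x] at hb
      left
      exact ⟨by simpa using hb, h1⟩
    · by_cases h2 : j ∈ D
      · rw [hV2D j h2] at hb
        right
        exact ⟨h2, by simpa using hb⟩
      · rw [hV2o j h1 h2] at hb
        simp at hb
  have hcnt0 : (u.flatMap V2).count 0 = u.count x := by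
    apply count_flatMap_one u V2 hV2x
    intro b hb h0
    rcases hV2mem b 0 h0 with ⟨-, h⟩ | ⟨h1, h2⟩
    · exact hb h
    · have := he1 b; omega
  have hcntD : ∀ j ∈ D, (u.flatMap V2).count (e j) = u.count j := by
    intro j hj
    apply count_flatMap_one u V2 (hV2D j hj)
    intro b hb h0
    rcases hV2mem b (e j) h0 with ⟨h, -⟩ | ⟨h1, h2⟩
    · have := he1 j; omega
    · exact hb (heinj j hj b h2).symm
  have hmemV2 : ∀ b ∈ u.flatMap V2, b = 0 ∨ ∃ j ∈ D, b = e j := by
    intro b hb
    rw [List.mem_flatMap] at hb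
    obtain ⟨j, -, hbj⟩ := hb
    rcases hV2mem j b hbj with ⟨h, -⟩ | ⟨h1, h2⟩
    · exact Or.inl h
    · exact Or.inr ⟨j, h1, h2⟩
  have hnok : ¬ Ok (u.flatMap V2) := by
    intro hok
    apply hdark
    refine ⟨Z, u, V2, ⟨hZ, ?_, hu, hok⟩, by rw [hV2x]; simp, hcx, ?_⟩
    · intro i hi
      apply hV2o
      · rintro rfl
        rw [hVZ i hi] at hx
        simp at hx
      · intro hiD
        exact ((hDm i).mp hiD).2.2 (hVZ i hi)
    · intro j hj h4
      apply hV2o j hj
      intro hjD
      have := hDl j hjD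
      omega
  have hbad : Bad 0 (u.flatMap V2) := by
    by_contra hnb
    apply hnok
    have hl16 : ∀ b ∈ u.flatMap V2, b ≤ 16 := by
      intro b hb
      rcases hmemV2 b hb with h | ⟨j, hj, h⟩
      · omega
      · rw [h]; exact he16 j hj
    refine ⟨fun b hb => (hl16 b hb).trans (by norm_num), ?_, Or.inr ⟨Finset.Icc 1 16, by simp, ?_⟩⟩
    · intro b hb0
      by_cases hbm : b ∈ u.flatMap V2
      · rcases hmemV2 b hbm with h | ⟨j, hj, h⟩
        · exact absurd h hb0
        · rw [h, hcntD j hj]; exact hDl j hj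
      · rw [List.count_eq_zero_of_not_mem hbm]; norm_num
    · have : restr (Finset.Icc 1 16) (u.flatMap V2) = u.flatMap V2 := by
        unfold restr
        rw [List.filter_eq_self]
        intro b hb
        have := hl16 b hb
        simp only [decide_eq_true_eq, Finset.mem_Icc]
        omega
      rw [this]
      left
      refine ⟨by rw [hcnt0]; omega, hnb⟩
  let θ : ℕ → List ℕ := fun b => if b = 0 then [mx] else
    match D.toList[b - 1]? with
    | some j => V' j
    | none => [0]
  have hθ0 : θ 0 = [mx] := by simp [θ]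
  have hθe : ∀ j ∈ D, θ (e j) = V' j := by
    intro j hj
    have h1 : D.toList[D.toList.idxOf j]? = some j :=
      List.getElem?_idxOf (Finset.mem_toList.mpr hj)
    have h2 : e j ≠ 0 := by have := he1 j; omega
    simp only [θ, h2, if_false]
    have h3 : e j - 1 = D.toList.idxOf j := by simp [e]
    rw [h3, h1]
  have hmor := hbad.morph θ hθ0 (by
    intro b hb
    rcases hmemV2 b hb with h | ⟨j, hj, h⟩
    · rw [h, hθ0]; simp
    · rw [h, hθe j hj]; exact ((hDm j).mp hj).2.2)
  convert hmor using 1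
  rw [List.flatMap_assoc, List.filter_flatMap]
  apply flatMap_congr2
  intro j _
  by_cases h1 : j = x
  · subst h1
    rw [hV2x]
    simp only [if_true, List.flatMap_cons, List.flatMap_nil, List.append_nil, hθ0]
    rw [List.filter_cons_of_pos (by simpa using hm)]
    rfl
  · by_cases h2 : j = y
    · subst h2
      rw [hV2o j h1 hyD]
      simp [h1]
    · simp only [h1, h2, if_false]
      have h3 : (V' j).filter (fun b => decide (b ≠ my)) = V' j := by
        rw [List.filter_eq_self]
        intro b hb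
        have := hV5 j b hb
        simp only [ne_eq, decide_eq_true_eq]
        omega
      rw [h3]
      by_cases h4 : j ∈ D
      · rw [hV2D j h4]
        simp only [List.flatMap_cons, List.flatMap_nil, List.append_nil]
        rw [hθe j h4]
      · rw [hV2o j h1 h4]
        have : V' j = [] := by
          by_contra h5
          exact h4 ((hDm j).mpr ⟨h1, h2, h5⟩)
        rw [this]
        rfl

end

end Pool.Agent.Lib.MP_09f634_al.Cex
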