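import Mathlib
import Pool.Agent.Lib.MP_09f634_al.Cex.Act

/-!
# Pairs of dark letters
-/

set_option autoImplicit false

namespace Pool.Agent.Lib.MP_09f634_al.Cex

section

variable {k a : ℕ} {F : (Fin k → List ℕ) → M (WA a)} {R0 : ℕ}

lemma map_unm_of_le {v : List ℕ} (h : ∀ b ∈ v, b ≤ 25) : v.map unm = v := by
  conv_rhs => rw [← List.map_id v]
  apply List.map_congr_left
  intro b hb
  have := h b hb
  unfold unm
  rw [if_neg (by omega)]
  rfl

theorem dark_pair {Z Z' : Finset (Fin k)} {u v : List (Fin k)} (hZZ : Z ⊆ Z')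
    (hu : IsLoc F Z' u) (hv : IsLoc F Z' v) {V : Fin k → List ℕ} (hZ : Z.card ≤ R0)
    (hVZ : ∀ i, i ∉ Z → V i = []) (hok : Ok (u.flatMap V)) {x y : Fin k} (hxy : x ≠ y)
    (hx : V x ≠ []) (hy : V y ≠ []) (hcx : 4 ≤ u.count x) (hcy : 4 ≤ u.count y)
    (hdx : ¬ Bright F R0 x) (hdy : ¬ Bright F R0 y) {i : Fin k} (hi : i ∈ Z')
    (ci : u.count i ≤ 3) (p : ℕ) : (pre i u p).count x = (pre i v p).count x := by
  classical
  -- restrict to the letters of `u`
  let V1 : Fin k → List ℕ := fun j => if j ∈ u then V j else []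
  have hV1u : u.flatMap V1 = u.flatMap V := by
    apply flatMap_congr2
    intro j hj
    simp [V1, hj]
  have hok1 : Ok (u.flatMap V1) := by rw [hV1u]; exact hok
  have hV1Z : ∀ j, j ∉ Z → V1 j = [] := by
    intro j hj
    simp [V1, hVZ j hj]
  have hV1Z' : ∀ j, j ∉ Z' → V1 j = [] := fun j hj => hV1Z j (fun h => hj (hZZ h))
  have hxu : x ∈ u := List.count_pos_iff.mp (by omega)
  have hyu : y ∈ u := List.count_pos_iff.mp (by omega)
  have hV1x : V1 x = [0] := by
    apply (heavy_val hok1 hcx).resolve_left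
    simpa [V1, hxu] using hx
  have hV1y : V1 y = [0] := by
    apply (heavy_val hok1 hcy).resolve_left
    simpa [V1, hyu] using hy
  have hV1m : ∀ j, V1 j ≠ [] → j ∈ u := by
    intro j hj
    by_contra h
    exact hj (by simp [V1, h])
  have huv1 : u.flatMap V1 = v.flatMap V1 := hu.eq hv hV1Z' hok1
  have h8 : 8 ≤ (u.flatMap V1).count 0 := by
    have h1 := count_flatMap_ge {x, y} u V1 0
    rw [Finset.sum_insert (by simpa using hxy), Finset.sum_singleton, hV1x, hV1y] at h1
    simp only [List.count_singleton_self, mul_one] at h1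
    omega
  have hx11 : u.count x + u.count y ≤ 11 := by
    have h1 := count_flatMap_ge {x, y} u V1 0
    rw [Finset.sum_insert (by simpa using hxy), Finset.sum_singleton, hV1x, hV1y] at h1
    simp only [List.count_singleton_self, mul_one] at h1
    have := hok1.count_zero
    omega
  have hothu : ∀ j, j ≠ x → j ≠ y → 4 ≤ u.count j → V1 j = [] := by
    intro j hjx hjy hj4
    by_contra hne
    have hj0 := (heavy_val hok1 hj4).resolve_left hne
    have h1 := count_flatMap_ge {j, x, y} u V1 0
    rw [Finset.sum_insert (by simp [hjx, hjy]), Finset.sum_insert (by simpa using hxy),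
      Finset.sum_singleton, hV1x, hV1y, hj0] at h1
    simp only [List.count_singleton_self, mul_one] at h1
    have := hok1.count_zero
    omega
  have hxZ : x ∈ Z' := by
    by_contra h
    rw [hV1Z' x h] at hV1x
    simp at hV1x
  have hyZ : y ∈ Z' := by
    by_contra h
    rw [hV1Z' y h] at hV1y
    simp at hV1y
  have hvx : v.count x = u.count x := hu.count_eq hv hxZ (by omega)
  have hvy : v.count y = u.count y := hu.count_eq hv hyZ (by omega)
  obtain ⟨S, q, hqS, hq1, hq2, hcore, hext⟩ := extend hok1 (by omega)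
  have hok5 := hext i ci
  have hcore8 : 8 ≤ (restr S (u.flatMap V1)).count 0 := by rw [count_zero_restr]; exact h8
  have hinf : restr S (u.flatMap V1) <:+: T1 ∨ restr S (u.flatMap V1) <:+: T2 := by
    rcases hcore with h | h
    · omega
    · exact h.2
  let V' : Fin k → List ℕ := fun j => restr S (V1 j)
  have hu' : restr S (u.flatMap V1) = u.flatMap V' := restr_flatMap _ _ _
  have hv' : u.flatMap V' = v.flatMap V' := by
    rw [← hu', huv1, restr_flatMap]
  rw [hu'] at hinf hcore8
  have hV'x : V' x = [0] := by simp only [V', hV1x]; simp [restr]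
  have hV'y : V' y = [0] := by simp only [V', hV1y]; simp [restr]
  have hV'1 : ∀ j, V' j ≠ [] → V1 j ≠ [] := by
    intro j hj h
    apply hj
    simp only [V', h]
    rfl
  have hV'Z : ∀ j, j ∉ Z → V' j = [] := by
    intro j hj
    by_contra h
    exact hV'1 j h (hV1Z j hj)
  have hV'u : ∀ j, V' j ≠ [] → j ∈ u := fun j hj => hV1m j (hV'1 j hj)
  have hV'Z2 : ∀ j, V' j ≠ [] → j ∈ Z' := by
    intro j hj
    by_contra h
    exact hV'1 j hj (hV1Z' j h)
  have hV'v : ∀ j, V' j ≠ [] → j ∈ v := by
    intro j hj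
    have h1 := hu.count hv (hV'Z2 j hj)
    have h2 := List.count_pos_iff.mpr (hV'u j hj)
    apply List.count_pos_iff.mp
    omega
  have hothu' : ∀ j, j ≠ x → j ≠ y → 4 ≤ u.count j → V' j = [] := by
    intro j h1 h2 h3
    simp only [V', hothu j h1 h2 h3]
    rfl
  have hothv' : ∀ j, j ≠ x → j ≠ y → 4 ≤ v.count j → V' j = [] := by
    intro j h1 h2 h3
    by_contra h4
    have h5 := hu.count hv (hV'Z2 j h4)
    exact h4 (hothu' j h1 h2 (by omega))
  obtain ⟨-, -, hl5⟩ := infix_T_facts hinf
  have hV'5 : ∀ j, ∀ b ∈ V' j, b ≤ 5 := by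
    intro j b hb
    exact hl5 b (sub_flatMap (hV'u j (List.ne_nil_of_mem hb)) hb)
  let V4 : Fin k → List ℕ := fun j => if j = x then [100] else if j = y then [101] else V' j
  have hV4 : V4 = fun j => if j = y then [101] else if j = x then [100] else V' j := by
    funext j
    by_cases h1 : j = x
    · subst h1
      simp [V4, hxy]
    · simp [V4, h1]
  have hinfv : v.flatMap V' <:+: T1 ∨ v.flatMap V' <:+: T2 := by rw [← hv']; exact hinf
  have huZ : IsLoc F Z u := hu.mono hZZ
  have hvZ : IsLoc F Z v := hv.mono hZZ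
  have bux : Bad 100 ((u.flatMap V4).filter (fun b => decide (b ≠ 101))) :=
    dark_bad hZ huZ hV'Z hV'u hxy hV'x hV'y hcx hcy hothu' hinf hdx (by norm_num) (by norm_num)
  have buy : Bad 101 ((u.flatMap V4).filter (fun b => decide (b ≠ 100))) := by
    rw [hV4]
    exact dark_bad hZ huZ hV'Z hV'u hxy.symm hV'y hV'x hcy hcx
      (fun j h1 h2 => hothu' j h2 h1) hinf hdy (by norm_num) (by norm_num)
  have bvx : Bad 100 ((v.flatMap V4).filter (fun b => decide (b ≠ 101))) :=
    dark_bad hZ hvZ hV'Z hV'v hxy hV'x hV'y (by omega) (by omega) hothv' hinfv hdx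
      (by norm_num) (by norm_num)
  have bvy : Bad 101 ((v.flatMap V4).filter (fun b => decide (b ≠ 100))) := by
    rw [hV4]
    exact dark_bad hZ hvZ hV'Z hV'v hxy.symm hV'y hV'x (by omega) (by omega)
      (fun j h1 h2 => hothv' j h2 h1) hinfv hdy (by norm_num) (by norm_num)
  have hV4x : V4 x = [100] := by simp [V4]
  have hV4y : V4 y = [101] := by simp [V4, Ne.symm hxy]
  have hV4o : ∀ j, j ≠ x → j ≠ y → V4 j = V' j := by
    intro j h1 h2
    simp [V4, h1, h2]
  have hV4mem : ∀ j b, b ∈ V4 j → (b = 100 ∧ j = x) ∨ (b = 101 ∧ j = y) ∨ b ∈ V' j := by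
    intro j b hb
    by_cases h1 : j = x
    · rw [h1, hV4x] at hb
      exact Or.inl ⟨by simpa using hb, h1⟩
    · by_cases h2 : j = y
      · rw [h2, hV4y] at hb
        exact Or.inr (Or.inl ⟨by simpa using hb, h2⟩)
      · rw [hV4o j h1 h2] at hb
        exact Or.inr (Or.inr hb)
  have hV4unm : ∀ j, (V4 j).map unm = V' j := by
    intro j
    by_cases h1 : j = x
    · rw [h1, hV4x, hV'x]; rfl
    · by_cases h2 : j = y
      · rw [h2, hV4y, hV'y]; rfl
      · rw [hV4o j h1 h2]
        exact map_unm_of_le (fun b hb => (hV'5 j b hb).trans (by norm_num))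
  have hmapw : ∀ w : List (Fin k), (w.flatMap V4).map unm = w.flatMap V' := by
    intro w
    rw [List.map_flatMap]
    apply flatMap_congr2
    intro j _
    exact hV4unm j
  -- uniqueness of the marks
  have huv4 : u.flatMap V4 = v.flatMap V4 := by
    obtain ⟨T, hT, P, Q, hPQ⟩ : ∃ T, (T = T1 ∨ T = T2) ∧ u.flatMap V' <:+: T := by
      rcases hinf with h | h
      · exact ⟨T1, Or.inl rfl, h⟩
      · exact ⟨T2, Or.inr rfl, h⟩
    have hT25 : ∀ b ∈ T, b ≤ 25 := by
      have k1 : ∀ a ∈ T1, a ≤ 25 := by decide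
      have k2 : ∀ a ∈ T2, a ≤ 25 := by decide
      rcases hT with rfl | rfl
      · exact k1
      · exact k2
    have hP : P.map unm = P := map_unm_of_le (fun b hb => hT25 b (by rw [← hPQ]; simp [hb]))
    have hQ : Q.map unm = Q := map_unm_of_le (fun b hb => hT25 b (by rw [← hPQ]; simp [hb]))
    have e1 : (P ++ u.flatMap V4 ++ Q).map unm = T := by
      rw [List.map_append, List.map_append, hP, hQ, hmapw]
      exact hPQ
    have e2 : (P ++ v.flatMap V4 ++ Q).map unm = T := by
      rw [List.map_append, List.map_append, hP, hQ, hmapw, ← hv']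
      exact hPQ
    have hfm : ∀ (w : List (Fin k)) (f : ℕ → Bool), (w.flatMap V4).filter f <:+:
        (P ++ w.flatMap V4 ++ Q).filter f := by
      intro w f
      rw [List.filter_append, List.filter_append]
      exact ⟨_, _, rfl⟩
    have c100 : ∀ w : List (Fin k), (w.flatMap V4).count 100 = w.count x := by
      intro w
      apply count_flatMap_one w V4 hV4x
      intro b hb h100
      rcases hV4mem b 100 h100 with ⟨-, h⟩ | ⟨h, -⟩ | h
      · exact hb h
      · omega
      · have := hV'5 b 100 h; omega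
    have c101 : ∀ w : List (Fin k), (w.flatMap V4).count 101 = w.count y := by
      intro w
      apply count_flatMap_one w V4 hV4y
      intro b hb h101
      rcases hV4mem b 101 h101 with ⟨h, -⟩ | ⟨-, h⟩ | h
      · omega
      · exact hb h
      · have := hV'5 b 101 h; omega
    have h1 := unique_fill hT e1 e2 (bux.mono (hfm u _)) (buy.mono (hfm u _))
      (bvx.mono (hfm v _)) (bvy.mono (hfm v _))
      (by
        rw [List.count_append, List.count_append, List.count_append, List.count_append, c100,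
          c100, hvx])
      (by
        rw [List.count_append, List.count_append, List.count_append, List.count_append, c101,
          c101, hvy])
    exact List.append_cancel_left (List.append_cancel_right h1)
  -- positions relative to `i`
  have hix : i ≠ x := by rintro rfl; omega
  have hiy : i ≠ y := by rintro rfl; omega
  set V5 : Fin k → List ℕ := fun j => if j = i then q :: restr S (V1 j) else restr S (V1 j)
    with hV5
  have huv5 : u.flatMap V5 = v.flatMap V5 := by
    apply hu.eq hv _ hok5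
    intro j hj
    have h1 : j ≠ i := by rintro rfl; exact hj hi
    simp only [hV5, h1, if_false, hV1Z' j hj]
    rfl
  let V6 : Fin k → List ℕ := fun j => if j = i then q :: V4 j else V4 j
  have hqV' : ∀ j, q ∉ V' j := by
    intro j h
    simp only [V', restr] at h
    rw [List.mem_filter] at h
    have := h.2
    simp only [decide_eq_true_eq] at this
    rcases this with h | h
    · omega
    · exact hqS h
  have hqV4 : ∀ j, q ∉ V4 j := by
    intro j h
    rcases hV4mem j q h with ⟨h, -⟩ | ⟨h, -⟩ | h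
    · omega
    · omega
    · exact hqV' j h
  have hunmq : unm q = q := by
    unfold unm
    rw [if_neg (by omega)]
  have e5 : ∀ w : List (Fin k), (w.flatMap V6).map unm = w.flatMap V5 := by
    intro w
    rw [List.map_flatMap]
    apply flatMap_congr2
    intro j _
    by_cases h1 : j = i
    · simp only [V6, hV5, h1, if_true, List.map_cons, hunmq, hV4unm]
      rfl
    · simp only [V6, hV5, h1, if_false, hV4unm]
      rfl
  have e6 : ∀ w : List (Fin k), (w.flatMap V6).filter (fun b => decide (b ≠ q)) =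
      w.flatMap V4 := by
    intro w
    rw [List.filter_flatMap]
    apply flatMap_congr2
    intro j _
    have h2 : (V4 j).filter (fun b => decide (b ≠ q)) = V4 j := by
      rw [List.filter_eq_self]
      intro b hb
      simp only [ne_eq, decide_eq_true_eq]
      rintro rfl
      exact hqV4 j hb
    by_cases h1 : j = i
    · simp only [V6, h1, if_true]
      rw [List.filter_cons_of_neg (by simp), ← h1, h2]
    · simp only [V6, h1, if_false]
      rw [h2]
  have huv6 : u.flatMap V6 = v.flatMap V6 :=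
    eq_of_unm (q := q) (by omega) (by omega) (by omega) (by rw [e5, e5, huv5])
      (by rw [e6, e6, huv4])
  have e7 : ∀ w : List (Fin k), (pre q (w.flatMap V6) p).count 100 = (pre i w p).count x := by
    intro w
    rw [pre_flatMap (i := i) (t := V4 i) V6 (by simp [V6]) (hqV4 i) (by
      intro j hj
      simp only [V6, hj, if_false]
      exact hqV4 j)]
    apply count_flatMap_one _ V6
    · simp only [V6, Ne.symm hix, if_false]
      exact hV4x
    · intro b hb h100
      have h3 : 100 ∈ V4 b := by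
        by_cases h1 : b = i
        · simp only [V6, h1, if_true, List.mem_cons] at h100
          rcases h100 with h | h
          · omega
          · rw [h1]; exact h
        · simp only [V6, h1, if_false] at h100
          exact h100
      rcases hV4mem b 100 h3 with ⟨-, h⟩ | ⟨h, -⟩ | h
      · exact hb h
      · omega
      · have := hV'5 b 100 h; omega
  rw [← e7, ← e7, huv6]

/-! ### All active letters -/

lemma sum_one_filter {x : Fin k} {P : Fin k → Prop} [DecidablePred P] (hx : P x)
    (h : ∀ y, P y → y = x) (f : Fin k → ℕ) : ∑ j ∈ Finset.univ.filter P, f j = f x := by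
  have : Finset.univ.filter P = {x} := by
    ext y
    simp only [Finset.mem_filter, Finset.mem_univ, true_and, Finset.mem_singleton]
    exact ⟨h y, fun h => h ▸ hx⟩
  rw [this, Finset.sum_singleton]

lemma sum_two_filter {x y : Fin k} (hxy : x ≠ y) {P : Fin k → Prop} [DecidablePred P]
    (hx : P x) (hy : P y) (h : ∀ j, P j → j = x ∨ j = y) (f : Fin k → ℕ) :
    ∑ j ∈ Finset.univ.filter P, f j = f x + f y := by
  have : Finset.univ.filter P = {x, y} := by
    ext j
    simp only [Finset.mem_filter, Finset.mem_univ, true_and, Finset.mem_singleton,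
      Finset.mem_insert]
    refine ⟨h j, ?_⟩
    rintro (rfl | rfl) <;> assumption
  rw [this, Finset.sum_insert (by simpa using hxy), Finset.sum_singleton]

/-- transfer of a witness -/
lemma Wit.transfer {Z Z' : Finset (Fin k)} {u0 u : List (Fin k)} {V : Fin k → List ℕ}
    (h : Wit F R0 Z u0 V) (hZZ : Z ⊆ Z') (hu : IsLoc F Z' u) : Wit F R0 Z u V := by
  refine ⟨h.card, h.supp, hu.mono hZZ, ?_⟩
  rw [← h.loc.eq (hu.mono hZZ) h.supp h.ok]
  exact h.ok

lemma count4 {Z : Finset (Fin k)} {u0 u : List (Fin k)} (h0 : IsLoc F Z u0) (hu : IsLoc F Z u)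
    {x : Fin k} (hx : x ∈ Z) : 4 ≤ u0.count x ↔ 4 ≤ u.count x := by
  have := h0.count hu hx
  omega

lemma Wit.mem {Z : Finset (Fin k)} {u : List (Fin k)} {V : Fin k → List ℕ}
    (h : Wit F R0 Z u V) {x : Fin k} (hx : V x ≠ []) : x ∈ Z := by
  by_contra hcon
  exact hx (h.supp x hcon)

lemma Wit.count_ge {Z : Finset (Fin k)} {u : List (Fin k)} {V : Fin k → List ℕ}
    (h : Wit F R0 Z u V) {x : Fin k} (hx : V x ≠ []) (h4 : 4 ≤ u.count x) :
    4 ≤ (u.flatMap V).count 0 := by
  have h1 := count_flatMap_ge {x} u V 0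
  rw [Finset.sum_singleton, (heavy_val h.ok h4).resolve_left hx] at h1
  simp only [List.count_singleton_self, mul_one] at h1
  omega

/-- determined positions -/
def Det (F : (Fin k → List ℕ) → M (WA a)) (x : Fin k) (Z0 : Finset (Fin k)) : Prop :=
  ∀ Z', Z0 ⊆ Z' → ∀ u v, IsLoc F Z' u → IsLoc F Z' v → ∀ i ∈ Z', u.count i ≤ 3 →
    ∀ p, (pre i u p).count x = (pre i v p).count x

lemma bright_det {x : Fin k} (hx : Bright F R0 x) :
    ∃ Z0 : Finset (Fin k), Z0.card ≤ R0 ∧ x ∈ Z0 ∧ Det F x Z0 := by
  obtain ⟨Z, u0, V, hW, hVx, hcx, hoth⟩ := hx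
  refine ⟨Z, hW.card, hW.mem hVx, ?_⟩
  intro Z' hZZ u v hu hv i hi ci p
  have hWu := hW.transfer hZZ hu
  have hcu : 4 ≤ u.count x := (count4 hW.loc hWu.loc (hW.mem hVx)).mp hcx
  have hothu : ∀ y, (4 ≤ u.count y ∧ V y ≠ []) → y = x := by
    rintro y ⟨h1, h2⟩
    by_contra hne
    exact h2 (hoth y hne ((count4 hW.loc hWu.loc (hW.mem h2)).mpr h1))
  have hs := hu.xsum hv (V := V) (fun j hj => hW.supp j (fun h => hj (hZZ h))) hWu.ok
    (hWu.count_ge hVx hcu) hi ci p
  rw [sum_one_filter ⟨hcu, hVx⟩ hothu, sum_one_filter ⟨hcu, hVx⟩ hothu] at hs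
  exact hs

theorem active_det {x : Fin k} (hx : Active F R0 x) :
    ∃ Z0 : Finset (Fin k), Z0.card ≤ 2 * R0 ∧ x ∈ Z0 ∧ Det F x Z0 := by
  by_cases hb : Bright F R0 x
  · obtain ⟨Z0, h1, h2, h3⟩ := bright_det hb
    exact ⟨Z0, by omega, h2, h3⟩
  obtain ⟨Z, u0, V, hW, hVx, hcx⟩ := hx
  have hxv : V x = [0] := (heavy_val hW.ok hcx).resolve_left hVx
  obtain ⟨y, hyx, hcy, hVy⟩ : ∃ y, y ≠ x ∧ 4 ≤ u0.count y ∧ V y ≠ [] := by
    by_contra hcon
    push Not at hcon
    exact hb ⟨Z, u0, V, hW, hVx, hcx, hcon⟩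
  have hyv : V y = [0] := (heavy_val hW.ok hcy).resolve_left hVy
  have htwo : ∀ j, (4 ≤ u0.count j ∧ V j ≠ []) → j = x ∨ j = y := by
    rintro j ⟨h1, h2⟩
    by_contra hne
    rw [not_or] at hne
    have hj0 := (heavy_val hW.ok h1).resolve_left h2
    have h3 := count_flatMap_ge {j, x, y} u0 V 0
    rw [Finset.sum_insert (by simp [hne.1, hne.2]), Finset.sum_insert (by simpa using hyx.symm),
      Finset.sum_singleton, hxv, hyv, hj0] at h3
    simp only [List.count_singleton_self, mul_one] at h3
    have := hW.ok.count_zero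
    omega
  by_cases hby : Bright F R0 y
  · obtain ⟨Zy, h1, h2, h3⟩ := bright_det hby
    refine ⟨Z ∪ Zy, ?_, Finset.mem_union_left _ (hW.mem hVx), ?_⟩
    · have h4 := Finset.card_union_le Z Zy
      have h5 := hW.card
      omega
    · intro Z' hZZ u v hu hv i hi ci p
      have hZ1 : Z ⊆ Z' := Finset.subset_union_left.trans hZZ
      have hZ2 : Zy ⊆ Z' := Finset.subset_union_right.trans hZZ
      have hWu := hW.transfer hZ1 hu
      have hcu : 4 ≤ u.count x := (count4 hW.loc hWu.loc (hW.mem hVx)).mp hcx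
      have hcu' : 4 ≤ u.count y := (count4 hW.loc hWu.loc (hW.mem hVy)).mp hcy
      have htwou : ∀ j, (4 ≤ u.count j ∧ V j ≠ []) → j = x ∨ j = y := by
        rintro j ⟨h4, h5⟩
        exact htwo j ⟨(count4 hW.loc hWu.loc (hW.mem h5)).mpr h4, h5⟩
      have hs := hu.xsum hv (V := V) (fun j hj => hW.supp j (fun h => hj (hZ1 h))) hWu.ok
        (hWu.count_ge hVx hcu) hi ci p
      rw [sum_two_filter hyx.symm ⟨hcu, hVx⟩ ⟨hcu', hVy⟩ htwou,
        sum_two_filter hyx.symm ⟨hcu, hVx⟩ ⟨hcu', hVy⟩ htwou] at hs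
      have hs2 := h3 Z' hZ2 u v hu hv i hi ci p
      omega
  · refine ⟨Z, by have := hW.card; omega, hW.mem hVx, ?_⟩
    intro Z' hZZ u v hu hv i hi ci p
    have hWu := hW.transfer hZZ hu
    exact dark_pair hZZ hu hv hW.card hW.supp hWu.ok hyx.symm hVx hVy
      ((count4 hW.loc hWu.loc (hW.mem hVx)).mp hcx)
      ((count4 hW.loc hWu.loc (hW.mem hVy)).mp hcy) hb hby hi ci p

end

end Pool.Agent.Lib.MP_09f634_al.Cex
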