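import Mathlib
import Pool.Agent.Lib.MP_09f634_al.Cex.Dark

/-!
# The global list
-/

set_option autoImplicit false

namespace Pool.Agent.Lib.MP_09f634_al.Cex

section

variable {k a : ℕ} {F : (Fin k → List ℕ) → M (WA a)} {R0 R : ℕ}

lemma active_count {x : Fin k} (hx : Active F R0 x) {Z : Finset (Fin k)} (hxZ : x ∈ Z)
    {u : List (Fin k)} (hu : IsLoc F Z u) : 4 ≤ u.count x ∧ u.count x ≤ 11 := by
  obtain ⟨Z0, u0, V, hW, hVx, hcx⟩ := hx
  have hv := (heavy_val hW.ok hcx).resolve_left hVx
  have h1 := count_flatMap_ge {x} u0 V 0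
  rw [Finset.sum_singleton, hv] at h1
  simp only [List.count_singleton_self, mul_one] at h1
  have h2 := hW.ok.count_zero
  have h3 : IsLoc F {x} u0 := hW.loc.mono (by simpa using hW.mem hVx)
  have h4 : IsLoc F {x} u := hu.mono (by simpa using hxZ)
  have h5 := h3.count h4 (Finset.mem_singleton_self x)
  omega

lemma flat_infix {s : List (Fin k)} (c : Fin k → ℕ) {i : Fin k} (hi : i ∈ s) :
    List.replicate (c i) i <:+: flat s c := by
  obtain ⟨s1, s2, rfl⟩ := List.append_of_mem hi
  refine ⟨flat s1 c, flat s2 c, ?_⟩
  simp [flat]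

lemma rep_zero' {V : Fin k → List ℕ} {n : ℕ} {i : Fin k} (h : V i = [0]) :
    (List.replicate n i).flatMap V = List.replicate n 0 := by
  induction n with
  | zero => rfl
  | succ n ih => rw [List.replicate_succ, List.flatMap_cons, ih, h]; rfl

theorem build (hR : R0 + R0 * (2 * R0 + 1) + 3 * (2 * R0 + 1) + 5 ≤ R)
    (hLoc : ∀ Z : Finset (Fin k), Z.card ≤ R → ∃ u, IsLoc F Z u) :
    ∃ l : List (Fin k), ∀ Z : Finset (Fin k), Z.card ≤ R0 → IsLoc F Z l := by
  classical
  -- counts
  have hex1 : ∀ i : Fin k, ∃ u, IsLoc F {i} u := fun i => hLoc {i} (by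
    rw [Finset.card_singleton]; omega)
  choose u1 hu1 using hex1
  let c : Fin k → ℕ := fun i => min ((u1 i).count i) 12
  have hc : ∀ (i : Fin k) (Z : Finset (Fin k)) (u : List (Fin k)), i ∈ Z → IsLoc F Z u →
      min (u.count i) 12 = c i := by
    intro i Z u hi hu
    exact ((hu1 i).count (hu.mono (by simpa using hi)) (Finset.mem_singleton_self i)).symm
  have hc12 : ∀ i, c i ≤ 12 := fun i => min_le_right _ _
  let light : Fin k → Prop := fun i => 1 ≤ c i ∧ c i ≤ 3
  let good : Fin k → Prop := fun i => light i ∨ Active F R0 i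
  have hact : ∀ i, Active F R0 i → 4 ≤ c i ∧ c i ≤ 11 := by
    intro i hi
    have h1 := active_count hi (Finset.mem_singleton_self i) (hu1 i)
    have h2 := hc i {i} (u1 i) (Finset.mem_singleton_self i) (hu1 i)
    omega
  have hgood11 : ∀ i, good i → 1 ≤ c i ∧ c i ≤ 11 := by
    rintro i (h | h)
    · exact ⟨h.1, h.2.trans (by norm_num)⟩
    · have := hact i h
      omega
  have hgc : ∀ (i : Fin k) (Z : Finset (Fin k)) (u : List (Fin k)), good i → i ∈ Z →
      IsLoc F Z u → u.count i = c i := by
    intro i Z u hg hi hu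
    have h1 := hc i Z u hi hu
    have h2 := hgood11 i hg
    omega
  -- witnesses
  have hZex : ∀ x : Fin k, ∃ Z0 : Finset (Fin k), Z0.card ≤ 2 * R0 + 1 ∧ x ∈ Z0 ∧
      (good x → Det F x Z0) := by
    intro x
    by_cases hA : Active F R0 x
    · obtain ⟨Z0, h1, h2, h3⟩ := active_det hA
      exact ⟨Z0, by omega, h2, fun _ => h3⟩
    · refine ⟨{x}, by rw [Finset.card_singleton]; omega, Finset.mem_singleton_self x, ?_⟩
      rintro (hl | hl)
      · intro Z' hZ' u v hu hv i hi ci p
        have hxZ : x ∈ Z' := hZ' (Finset.mem_singleton_self x)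
        have h1 := hgc x Z' u (Or.inl hl) hxZ hu
        have h2 : c x ≤ 3 := hl.2
        exact hu.light hv hi hxZ ci (by omega) p
      · exact absurd hl hA
  choose Zx hZxc hxZx hZxD using hZex
  have hulex : ∀ x i : Fin k, ∃ u, IsLoc F (Zx x ∪ {i}) u := by
    intro x i
    apply hLoc
    have h1 := Finset.card_union_le (Zx x) {i}
    have h2 := hZxc x
    rw [Finset.card_singleton] at h1
    omega
  choose ul hul using hulex
  let N : Fin k → Fin k → ℕ → ℕ := fun x i p => (pre i (ul x i) p).count x
  have hN : ∀ (x i : Fin k) (Z : Finset (Fin k)) (u : List (Fin k)), good x → light i →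
      Zx x ⊆ Z → i ∈ Z → IsLoc F Z u → ∀ p, (pre i u p).count x = N x i p := by
    intro x i Z u hx hi hZ hiZ hu p
    have hsub : Zx x ∪ {i} ⊆ Z := Finset.union_subset hZ (by simpa using hiZ)
    have hiu : i ∈ Zx x ∪ {i} := Finset.mem_union_right _ (Finset.mem_singleton_self i)
    have h1 := hgc i Z u (Or.inl hi) hiZ hu
    have h2 : c i ≤ 3 := hi.2
    exact hZxD x hx (Zx x ∪ {i}) Finset.subset_union_left u (ul x i) (hu.mono hsub) (hul x i) i
      hiu (by omega) p
  -- gluing
  obtain ⟨l0, hl1, hl2, hl3⟩ := glue (light := light) (good := good) (c := c) (N := N)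
    (fun a ha => Or.inl ha)
    (by
      intro x a b hx ha hb p q hp hq hpN
      obtain ⟨u, hu⟩ := hLoc (Zx x ∪ (Zx a ∪ Zx b)) (by
        have h1 := Finset.card_union_le (Zx x) (Zx a ∪ Zx b)
        have h2 := Finset.card_union_le (Zx a) (Zx b)
        have h3 := hZxc x
        have h4 := hZxc a
        have h5 := hZxc b
        omega)
      have s1 : Zx x ⊆ Zx x ∪ (Zx a ∪ Zx b) := Finset.subset_union_left
      have s2 : Zx a ⊆ Zx x ∪ (Zx a ∪ Zx b) :=
        Finset.subset_union_left.trans Finset.subset_union_right
      have s3 : Zx b ⊆ Zx x ∪ (Zx a ∪ Zx b) :=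
        Finset.subset_union_right.trans Finset.subset_union_right
      rw [← hN a b _ u (Or.inl ha) hb s2 (s3 (hxZx b)) hu q] at hpN
      rw [← hN x a _ u hx ha s1 (s2 (hxZx a)) hu p, ← hN x b _ u hx hb s1 (s3 (hxZx b)) hu q]
      exact (pre_prefix_pre hpN).sublist.count_le x)
    (by
      intro x a hx ha p hp
      have h1 : (pre a (ul x a) p).count x ≤ (ul x a).count x :=
        (pre_prefix a (ul x a) p).sublist.count_le x
      rw [hgc x _ (ul x a) hx (Finset.mem_union_left _ (hxZx x)) (hul x a)] at h1
      exact h1)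
    (by
      intro a b ha hb hab
      obtain ⟨u, hu⟩ := hLoc (Zx a ∪ Zx b) (by
        have h2 := Finset.card_union_le (Zx a) (Zx b)
        have h4 := hZxc a
        have h5 := hZxc b
        omega)
      have s2 : Zx a ⊆ Zx a ∪ Zx b := Finset.subset_union_left
      have s3 : Zx b ⊆ Zx a ∪ Zx b := Finset.subset_union_right
      refine ⟨u, hgc a _ u (Or.inl ha) (s2 (hxZx a)) hu, hgc b _ u (Or.inl hb) (s3 (hxZx b)) hu,
        ?_, ?_⟩
      · intro p _
        exact hN b a _ u (Or.inl hb) ha s3 (s2 (hxZx a)) hu p
      · intro q _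
        exact hN a b _ u (Or.inl ha) hb s2 (s3 (hxZx b)) hu q)
    (by
      intro b hb p hp
      show (pre b (ul b b) p).count b = p
      rw [count_pre_self, hgc b _ (ul b b) (Or.inl hb) (Finset.mem_union_left _ (hxZx b))
        (hul b b)]
      omega)
  -- the inactive letters
  let inact : Finset (Fin k) := Finset.univ.filter (fun i => 4 ≤ c i ∧ ¬ Active F R0 i)
  have hinact : ∀ i, i ∈ inact ↔ 4 ≤ c i ∧ ¬ Active F R0 i := fun i => by simp [inact]
  let l : List (Fin k) := l0 ++ flat inact.toList c
  have hlc : ∀ i, l.count i = c i := by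
    intro i
    show (l0 ++ flat inact.toList c).count i = c i
    rw [List.count_append, count_flat _ (Finset.nodup_toList _)]
    simp only [Finset.mem_toList]
    by_cases hg : good i
    · have h1 : i ∉ inact := by
        intro h
        rw [hinact] at h
        rcases hg with hg | hg
        · have : c i ≤ 3 := hg.2
          omega
        · exact h.2 hg
      rw [hl1 i hg]
      simp [h1]
    · rw [hl2 i hg]
      have h1 : ¬ light i := fun h => hg (Or.inl h)
      have h2 : ¬ Active F R0 i := fun h => hg (Or.inr h)
      by_cases h3 : 4 ≤ c i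
      · have : i ∈ inact := (hinact i).mpr ⟨h3, h2⟩
        simp [this]
      · have h4 : i ∉ inact := fun h => h3 ((hinact i).mp h).1
        have h5 : ¬ (1 ≤ c i ∧ c i ≤ 3) := h1
        simp only [h4, if_false]
        omega
  refine ⟨l, fun Z hZ => ?_⟩
  obtain ⟨u, hu⟩ := hLoc (Z ∪ Z.biUnion Zx) (by
    have h1 := Finset.card_union_le Z (Z.biUnion Zx)
    have h2 : (Z.biUnion Zx).card ≤ Z.card * (2 * R0 + 1) :=
      Finset.card_biUnion_le_card_mul _ _ _ (fun x _ => hZxc x)
    have h3 : Z.card * (2 * R0 + 1) ≤ R0 * (2 * R0 + 1) := Nat.mul_le_mul_right _ hZ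
    omega)
  have huZ : IsLoc F Z u := hu.mono Finset.subset_union_left
  have hZs : ∀ x ∈ Z, Zx x ⊆ Z ∪ Z.biUnion Zx := fun x hx =>
    (Finset.subset_biUnion_of_mem Zx hx).trans Finset.subset_union_right
  apply isLoc_of huZ
  · intro V hV
    have hVZ : ∀ i, V i ≠ [] → i ∈ Z := by
      intro i hi
      by_contra h
      exact hi (hV i h)
    by_cases hA : ∃ i, V i ≠ [] ∧ 4 ≤ c i ∧ (V i ≠ [0] ∨ ¬ Active F R0 i)
    · right
      obtain ⟨i, hVi, hci, hor⟩ := hA
      constructor
      · intro hok
        have h4 : 4 ≤ u.count i := by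
          have := hc i Z u (hVZ i hVi) huZ
          omega
        have h0 := (heavy_val hok h4).resolve_left hVi
        rcases hor with h | h
        · exact h h0
        · exact h ⟨Z, u, V, ⟨hZ, hV, huZ, hok⟩, hVi, h4⟩
      · intro hok
        have h4 : 4 ≤ l.count i := by rw [hlc]; exact hci
        have h0 := (heavy_val hok h4).resolve_left hVi
        rcases hor with h | h
        · exact h h0
        · have hin : i ∈ inact := (hinact i).mpr ⟨hci, h⟩
          have h5 : List.replicate (c i) i <:+: l :=
            (flat_infix c (Finset.mem_toList.mpr hin)).trans ⟨l0, [], by simp [l]⟩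
          have h6 := infix_flatMap V h5
          rw [rep_zero' h0] at h6
          obtain ⟨n, hn⟩ := Nat.exists_eq_add_of_le hci
          apply hok.zz
          · have h7 := infix_count h6 0
            rw [List.count_replicate_self] at h7
            omega
          · refine List.IsInfix.trans ?_ h6
            refine ⟨[], List.replicate (2 + n) 0, ?_⟩
            have e : ∀ n : ℕ, List.replicate (4 + n) 0 = [0, 0] ++ List.replicate (2 + n) 0 := by
              intro n
              rw [show 4 + n = 2 + (2 + n) by omega, List.replicate_add (n := 2 + n)]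
              rfl
            rw [hn, e]
            rfl
    · left
      push Not at hA
      apply flatMap_eq_of_pre (fun i => light i ∧ i ∈ Z)
      · intro i hi hmem
        by_cases hVi : V i = []
        · exact Or.inl hVi
        · right
          have hiZ := hVZ i hVi
          have h1 : ¬ (1 ≤ c i ∧ c i ≤ 3) := fun h => hi ⟨h, hiZ⟩
          have h2 : 1 ≤ c i := by
            have h3 := hc i Z u hiZ huZ
            have h4 := hlc i
            rcases hmem with h | h
            · have := List.count_pos_iff.mpr h
              omega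
            · have := List.count_pos_iff.mpr h
              omega
          exact (hA i hVi (by omega)).1
      · intro i hVi
        have hiZ := hVZ i hVi
        rw [hlc]
        by_cases h4 : 4 ≤ c i
        · exact hgc i Z u (Or.inr (hA i hVi h4).2) hiZ huZ
        · have := hc i Z u hiZ huZ
          omega
      · rintro i ⟨hl, hiZ⟩
        rw [hlc]
        exact hgc i Z u (Or.inl hl) hiZ huZ
      · rintro i ⟨hl, hiZ⟩ x hx p hp
        have hxZ : x ∈ Z := by
          rcases hx with h | h
          · exact h.2
          · exact hVZ x h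
        rw [hgc i Z u (Or.inl hl) hiZ huZ] at hp
        by_cases hg : good x
        · rw [hN x i _ u hg hl (hZs x hxZ) (Finset.mem_union_left _ hiZ) hu p]
          show _ = (pre i (l0 ++ flat inact.toList c) p).count x
          rw [pre_append_lt (by rw [hl1 i (Or.inl hl)]; exact hp), hl3 x i hg hl p hp]
        · have h0 : c x = 0 := by
            by_contra h0
            apply hg
            by_cases h3 : c x ≤ 3
            · exact Or.inl ⟨by omega, h3⟩
            · right
              rcases hx with h | h
              · exact absurd h.1.2 h3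
              · exact (hA x h (by omega)).2
          have h1 : u.count x = 0 := by
            have := hc x Z u hxZ huZ
            omega
          have h2 : l.count x = 0 := by rw [hlc]; exact h0
          have h3 : (pre i u p).count x ≤ u.count x := (pre_prefix i u p).sublist.count_le x
          have h4 : (pre i l p).count x ≤ l.count x := (pre_prefix i l p).sublist.count_le x
          omega
  · intro i hi
    rw [hc i Z u hi huZ, hlc]
    have := hc12 i
    omega

end

end Pool.Agent.Lib.MP_09f634_al.Cex
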