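import Mathlib
import Pool.Agent.Lib.MP_09f634_al.Cex.Chain

/-!
# Values of the chain words
-/

set_option autoImplicit false

namespace Pool.Agent.Lib.MP_09f634_al.Cex

section

variable {N : ℕ} (ε : ℕ → ℕ) {V : ℕ → List ℕ}

lemma count_zero_ge {i : ℕ} (h : i < N + 2) (hV : V (2 * i + 2) = [0]) :
    4 ≤ ((LL N ε).flatMap V).count 0 := by
  have h1 := count_flatMap_ge {2 * i + 2} (LL N ε) V 0
  rw [Finset.sum_singleton, hV] at h1
  have h2 := count_LL (N := N) (i := i) ε h
  simp only [List.count_singleton_self, mul_one] at h1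
  omega

lemma notok_val {i : ℕ} (h : i < N + 2) (h0 : V (2 * i + 2) ≠ []) (h1 : V (2 * i + 2) ≠ [0]) :
    ¬ Ok ((LL N ε).flatMap V) := by
  intro hok
  rcases heavy_val hok (count_LL ε h) with h2 | h2
  · exact h0 h2
  · exact h1 h2

lemma notok_three {i j l : ℕ} (hi : i < N + 2) (hj : j < N + 2) (hl : l < N + 2) (hij : i ≠ j)
    (hil : i ≠ l) (hjl : j ≠ l) (h1 : V (2 * i + 2) ≠ []) (h2 : V (2 * j + 2) ≠ [])
    (h3 : V (2 * l + 2) ≠ []) : ¬ Ok ((LL N ε).flatMap V) := by
  intro hok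
  have v1 : V (2 * i + 2) = [0] := (heavy_val hok (count_LL ε hi)).resolve_left h1
  have v2 : V (2 * j + 2) = [0] := (heavy_val hok (count_LL ε hj)).resolve_left h2
  have v3 : V (2 * l + 2) = [0] := (heavy_val hok (count_LL ε hl)).resolve_left h3
  have h4 := count_flatMap_ge {2 * i + 2, 2 * j + 2, 2 * l + 2} (LL N ε) V 0
  rw [Finset.sum_insert (by simp; omega), Finset.sum_insert (by simp; omega),
    Finset.sum_singleton, v1, v2, v3] at h4
  have c1 := count_LL (N := N) ε hi
  have c2 := count_LL (N := N) ε hj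
  have c3 := count_LL (N := N) ε hl
  have c4 := hok.count_zero
  simp only [List.count_singleton_self, mul_one] at h4
  omega

lemma notok_even_even {i j : ℕ} (hi : i < N + 2) (hj : j < N + 2) (hij : i ≠ j)
    (hi0 : i % 2 = 0) (hj0 : j % 2 = 0) (h1 : V (2 * i + 2) ≠ []) (h2 : V (2 * j + 2) ≠ []) :
    ¬ Ok ((LL N ε).flatMap V) := by
  intro hok
  have v1 : V (2 * i + 2) = [0] := (heavy_val hok (count_LL ε hi)).resolve_left h1
  have v2 : V (2 * j + 2) = [0] := (heavy_val hok (count_LL ε hj)).resolve_left h2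
  have h4 := count_flatMap_ge {2 * i + 2, 2 * j + 2} (LL N ε) V 0
  rw [Finset.sum_insert (by simp; omega), Finset.sum_singleton, v1, v2] at h4
  have c1 := count_LL_even (N := N) ε hi hi0
  have c2 := count_LL_even (N := N) ε hj hj0
  have c4 := hok.count_zero
  simp only [List.count_singleton_self, mul_one] at h4
  omega

lemma restr_zero (S : Finset ℕ) : restr S [0] = [0] := by simp [restr]

lemma restr_nil (S : Finset ℕ) : restr S [] = [] := rfl

lemma notok_B {i : ℕ} (h : i < N + 2) (hodd : i % 2 = 1)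
    (hV : V (2 * i + 2) = [0])
    (hfar : ∀ i' < N + 2, i' ≠ i → V (2 * i' + 2) ≠ [] → i' + 3 ≤ i ∨ i + 3 ≤ i') :
    ¬ Ok ((LL N ε).flatMap V) := by
  apply not_ok_of_bad (count_zero_ge ε h hV)
  intro S
  rw [restr_flatMap]
  have := infix_B (V := fun a => restr S (V a)) ε h hodd (by simp only [hV, restr_zero]) (by
    intro i' hi' hne hcon
    apply hfar i' hi' hne
    intro h0
    apply hcon
    simp only [h0, restr_nil])
  exact (bad_patB _ _ _).mono this

lemma notok_A {i : ℕ} (h : i < N + 2) (heven : i % 2 = 0)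
    (hV : V (2 * i + 2) = [0])
    (hfar : ∀ i' < N + 2, i' ≠ i → V (2 * i' + 2) = []) :
    ¬ Ok ((LL N ε).flatMap V) := by
  apply not_ok_of_bad (count_zero_ge ε h hV)
  intro S
  rw [restr_flatMap]
  have := infix_A (V := fun a => restr S (V a)) ε h heven (by simp only [hV, restr_zero]) (by
    intro i' hi' hne
    simp only [hfar i' hi' hne, restr_nil])
  exact (bad_patA _ _ _).mono this

lemma notok_zz {i : ℕ} (h : i + 2 < N + 2) (hodd : i % 2 = 1)
    (hV : V (2 * i + 2) = [0]) (hV' : V (2 * (i + 2) + 2) = [0])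
    (hfar : ∀ i' < N + 2, i' ≠ i → i' ≠ i + 2 → V (2 * i' + 2) = []) :
    ¬ Ok ((LL N ε).flatMap V) := by
  intro hok
  exact hok.zz (count_zero_ge ε (by omega) hV) (infix_zz ε V h hodd hV hV' hfar)

lemma notok_single {i : ℕ} (h : i < N + 2) (hV : V (2 * i + 2) = [0])
    (hfar : ∀ i' < N + 2, i' ≠ i → V (2 * i' + 2) = []) : ¬ Ok ((LL N ε).flatMap V) := by
  rcases Nat.mod_two_eq_zero_or_one i with h1 | h1
  · exact notok_A ε h h1 hV hfar
  · exact notok_B ε h h1 hV (fun i' hi' hne hcon => absurd (hfar i' hi' hne) hcon)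

lemma notok_far {i j : ℕ} (hj : j < N + 2) (hij : i + 2 ≤ j)
    (hV : V (2 * i + 2) = [0]) (hV' : V (2 * j + 2) = [0])
    (hfar : ∀ i' < N + 2, i' ≠ i → i' ≠ j → V (2 * i' + 2) = []) :
    ¬ Ok ((LL N ε).flatMap V) := by
  rcases Nat.mod_two_eq_zero_or_one i with h1 | h1 <;>
    rcases Nat.mod_two_eq_zero_or_one j with h2 | h2
  · exact notok_even_even ε (by omega) hj (by omega) h1 h2 (by rw [hV]; simp) (by rw [hV']; simp)
  · refine notok_B ε hj h2 hV' (fun i' hi' hne hcon => ?_)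
    have : i' = i := by
      by_contra hne'
      exact hcon (hfar i' hi' hne' hne)
    omega
  · refine notok_B ε (by omega) h1 hV (fun i' hi' hne hcon => ?_)
    have : i' = j := by
      by_contra hne'
      exact hcon (hfar i' hi' hne hne')
    omega
  · rcases Nat.eq_or_lt_of_le hij with h3 | h3
    · subst h3
      exact notok_zz ε hj h1 hV hV' hfar
    · refine notok_B ε (by omega) h1 hV (fun i' hi' hne hcon => ?_)
      have : i' = j := by
        by_contra hne'
        exact hcon (hfar i' hi' hne hne')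
      omega

lemma gs_flatMap (N : ℕ) (V : ℕ → List ℕ) : (gs N ε).flatMap V =
    (List.range (N + 2)).flatMap (fun i => (List.replicate (ε i) (2 * i + 2)).flatMap V) := by
  unfold gs
  rw [List.flatMap_assoc]

lemma rep_nil {n a : ℕ} (h : V a = []) : (List.replicate n a).flatMap V = [] := by
  rw [List.flatMap_eq_nil_iff]
  intro b hb
  rw [List.eq_of_mem_replicate hb, h]

lemma rep_zero {n a : ℕ} (h : V a = [0]) : (List.replicate n a).flatMap V =
    List.replicate n 0 := by
  induction n with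
  | zero => rfl
  | succ n ih => rw [List.replicate_succ, List.flatMap_cons, ih, h]; rfl

lemma gs_empty (hfar : ∀ i' < N + 2, V (2 * i' + 2) = []) : (gs N ε).flatMap V = [] := by
  rw [gs_flatMap, List.flatMap_eq_nil_iff]
  intro i hi
  rw [List.mem_range] at hi
  exact rep_nil (hfar i hi)

lemma gs_two {i : ℕ} (hi : i + 1 < N + 2) (hV : V (2 * i + 2) = [0])
    (hV' : V (2 * (i + 1) + 2) = [0])
    (hfar : ∀ i' < N + 2, i' ≠ i → i' ≠ i + 1 → V (2 * i' + 2) = []) :
    (gs N ε).flatMap V = List.replicate (ε i + ε (i + 1)) 0 := by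
  have h := fm3 (N + 2) (fun _ => True)
    (fun i => (List.replicate (ε i) (2 * i + 2)).flatMap V) (p := i) (q := i + 1) (by omega) hi
    trivial trivial (fun i' hi' h1 h2 _ => rep_nil (hfar i' hi' h1 h2))
  rw [List.filter_eq_self.mpr (by simp)] at h
  rw [gs_flatMap, h, rep_zero hV, rep_zero hV', List.replicate_add]

end

/-- The value only depends on the sums over adjacent pairs. -/
theorem chain_main {N : ℕ} (ε ε' : ℕ → ℕ) (V : ℕ → List ℕ)
    (H : ∀ i, i + 1 < N + 2 → V (2 * i + 2) ≠ [] → V (2 * (i + 1) + 2) ≠ [] →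
      ε i + ε (i + 1) = ε' i + ε' (i + 1)) :
    (LL N ε).flatMap V = (LL N ε').flatMap V ∨
      (¬ Ok ((LL N ε).flatMap V) ∧ ¬ Ok ((LL N ε').flatMap V)) := by
  by_cases h1 : ∃ i < N + 2, V (2 * i + 2) ≠ [] ∧ V (2 * i + 2) ≠ [0]
  · obtain ⟨i, hi, h2, h3⟩ := h1
    exact Or.inr ⟨notok_val ε hi h2 h3, notok_val ε' hi h2 h3⟩
  push Not at h1
  by_cases h2 : ∀ i < N + 2, V (2 * i + 2) = []
  · left
    unfold LL
    rw [List.flatMap_append, List.flatMap_append, gs_empty ε h2, gs_empty ε' h2]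
  push Not at h2
  have h2' : ∃ i, i < N + 2 ∧ V (2 * i + 2) ≠ [] := h2
  classical
  obtain ⟨hi, hVi⟩ := Nat.find_spec h2'
  have hmin : ∀ i' < Nat.find h2', i' < N + 2 → V (2 * i' + 2) = [] := by
    intro i' hi' h3
    by_contra hcon
    exact Nat.find_min h2' hi' ⟨h3, hcon⟩
  set i := Nat.find h2' with hidef
  clear_value i
  by_cases h4 : ∃ j, j ≠ i ∧ j < N + 2 ∧ V (2 * j + 2) ≠ []
  · obtain ⟨j, hji, hj, hVj⟩ := h4
    have hij : i < j := by
      rcases Nat.lt_or_ge i j with h | h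
      · exact h
      · exact absurd (hmin j (by omega) hj) hVj
    by_cases h5 : ∃ l, l ≠ i ∧ l ≠ j ∧ l < N + 2 ∧ V (2 * l + 2) ≠ []
    · obtain ⟨l, hli, hlj, hl, hVl⟩ := h5
      exact Or.inr ⟨notok_three ε hi hj hl hji.symm hli.symm hlj.symm hVi hVj hVl,
        notok_three ε' hi hj hl hji.symm hli.symm hlj.symm hVi hVj hVl⟩
    push Not at h5
    have hfar : ∀ i' < N + 2, i' ≠ i → i' ≠ j → V (2 * i' + 2) = [] :=
      fun i' hi' h6 h7 => h5 i' h6 h7 hi'
    have v1 := h1 i hi hVi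
    have v2 := h1 j hj hVj
    rcases Nat.eq_or_lt_of_le hij with h6 | h6
    · have h7 : j = i + 1 := by omega
      subst h7
      left
      have e := H i hj hVi hVj
      unfold LL
      rw [List.flatMap_append, List.flatMap_append, gs_two ε hj v1 v2 hfar,
        gs_two ε' hj v1 v2 hfar, e]
    · exact Or.inr ⟨notok_far ε hj (by omega) v1 v2 hfar, notok_far ε' hj (by omega) v1 v2 hfar⟩
  · push Not at h4
    have v1 := h1 i hi hVi
    have hfar : ∀ i' < N + 2, i' ≠ i → V (2 * i' + 2) = [] := fun i' hi' h5 => h4 i' h5 hi'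
    exact Or.inr ⟨notok_single ε hi v1 hfar, notok_single ε' hi v1 hfar⟩

/-! ### The test points -/

/-- test point -/
def psi (i : ℕ) (a : ℕ) : List ℕ :=
  if a = 0 then [1] else if a = 2 * i + 2 then [0] else if a = 2 * (i + 1) + 2 then [0]
  else if a = 2 * i + 1 then [2] else if a = 2 * (i + 1) + 1 then [3]
  else if a = 2 * (i + 2) + 1 then [4] else if a = 2 * (i + 3) + 1 then [5] else []

lemma psi_Z {i i' : ℕ} (h1 : i' ≠ i) (h2 : i' ≠ i + 1) : psi i (2 * i' + 2) = [] := by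
  unfold psi
  rw [if_neg (by omega), if_neg (by omega), if_neg (by omega), if_neg (by omega),
    if_neg (by omega), if_neg (by omega), if_neg (by omega)]

lemma psi_Z1 (i : ℕ) : psi i (2 * i + 2) = [0] := by
  unfold psi
  rw [if_neg (by omega), if_pos rfl]

lemma psi_Z2 (i : ℕ) : psi i (2 * (i + 1) + 2) = [0] := by
  unfold psi
  rw [if_neg (by omega), if_neg (by omega), if_pos rfl]

lemma psi_s {i j : ℕ} (h : j < i ∨ i + 4 ≤ j) : psi i (2 * j + 1) = [] := by
  unfold psi
  rw [if_neg (by omega), if_neg (by omega), if_neg (by omega), if_neg (by omega),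
    if_neg (by omega), if_neg (by omega), if_neg (by omega)]

lemma psi_s0 (i : ℕ) : psi i (2 * i + 1) = [2] := by
  unfold psi
  rw [if_neg (by omega), if_neg (by omega), if_neg (by omega), if_pos rfl]

lemma psi_s1 (i : ℕ) : psi i (2 * (i + 1) + 1) = [3] := by
  unfold psi
  rw [if_neg (by omega), if_neg (by omega), if_neg (by omega), if_neg (by omega), if_pos rfl]

lemma psi_s2 (i : ℕ) : psi i (2 * (i + 2) + 1) = [4] := by
  unfold psi
  rw [if_neg (by omega), if_neg (by omega), if_neg (by omega), if_neg (by omega),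
    if_neg (by omega), if_pos rfl]

lemma psi_s3 (i : ℕ) : psi i (2 * (i + 3) + 1) = [5] := by
  unfold psi
  rw [if_neg (by omega), if_neg (by omega), if_neg (by omega), if_neg (by omega),
    if_neg (by omega), if_neg (by omega), if_pos rfl]

lemma bd_psi_odd {N i j : ℕ} (hi : i < N + 2) (h : i % 2 = 1) :
    (bd N j).flatMap (psi i) = if i ≤ j ∧ j ≤ i + 3 then [0] else [] := by
  rw [bd_flatMap]
  split_ifs with hj
  · rw [fm2 (N + 2) (fun i => i % 2 = 1 ∧ i ≤ j ∧ j ≤ i + 3) (fun a => psi i (2 * a + 2)) hi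
      ⟨h, hj⟩, psi_Z1]
    intro i' _ h1 h2
    exact psi_Z h1 (by rintro rfl; omega)
  · rw [fm1 (N + 2) (fun i => i % 2 = 1 ∧ i ≤ j ∧ j ≤ i + 3)]
    intro i' _ h1
    apply psi_Z
    · rintro rfl; exact hj h1.2
    · rintro rfl; omega

lemma bd_psi_even {N i j : ℕ} (hi : i + 1 < N + 2) (h : i % 2 = 0) :
    (bd N j).flatMap (psi i) = if i + 1 ≤ j ∧ j ≤ i + 4 then [0] else [] := by
  rw [bd_flatMap]
  split_ifs with hj
  · rw [fm2 (N + 2) (fun i => i % 2 = 1 ∧ i ≤ j ∧ j ≤ i + 3) (fun a => psi i (2 * a + 2)) hi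
      ⟨by omega, hj⟩, psi_Z2]
    intro i' _ h1 h2
    exact psi_Z (by rintro rfl; omega) h1
  · rw [fm1 (N + 2) (fun i => i % 2 = 1 ∧ i ≤ j ∧ j ≤ i + 3)]
    intro i' _ h1
    apply psi_Z
    · rintro rfl; omega
    · rintro rfl; exact hj h1.2

lemma inn_psi_even {N i j : ℕ} (hi : i < N + 2) (h : i % 2 = 0) :
    (inn N j).flatMap (psi i) = if i ≤ j ∧ j ≤ i + 2 then [0] else [] := by
  rw [inn_flatMap]
  split_ifs with hj
  · rw [fm2 (N + 2) (fun i => i % 2 = 0 ∧ i ≤ j ∧ j ≤ i + 2) (fun a => psi i (2 * a + 2)) hi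
      ⟨h, hj⟩, psi_Z1]
    intro i' _ h1 h2
    exact psi_Z h1 (by rintro rfl; omega)
  · rw [fm1 (N + 2) (fun i => i % 2 = 0 ∧ i ≤ j ∧ j ≤ i + 2)]
    intro i' _ h1
    apply psi_Z
    · rintro rfl; exact hj h1.2
    · rintro rfl; omega

lemma inn_psi_odd {N i j : ℕ} (hi : i + 1 < N + 2) (h : i % 2 = 1) :
    (inn N j).flatMap (psi i) = if i + 1 ≤ j ∧ j ≤ i + 3 then [0] else [] := by
  rw [inn_flatMap]
  split_ifs with hj
  · rw [fm2 (N + 2) (fun i => i % 2 = 0 ∧ i ≤ j ∧ j ≤ i + 2) (fun a => psi i (2 * a + 2)) hi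
      ⟨by omega, hj⟩, psi_Z2]
    intro i' _ h1 h2
    exact psi_Z (by rintro rfl; omega) h1
  · rw [fm1 (N + 2) (fun i => i % 2 = 0 ∧ i ≤ j ∧ j ≤ i + 2)]
    intro i' _ h1
    apply psi_Z
    · rintro rfl; omega
    · rintro rfl; exact hj h1.2

/-- the rest of the template -/
def tail (i : ℕ) : List ℕ := if i % 2 = 0
  then [2,0,2,0,2,0,3,0,3,0,3,0,4,0,4,0,4,0,5,5,5,0]
  else [0,2,2,2,0,3,0,3,0,3,0,4,0,4,0,4,0,5,0,5,0,5]

lemma five_split {n i : ℕ} (g : ℕ → List ℕ) (h : i + 5 ≤ n) (h1 : ∀ j < i, g j = [])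
    (h2 : ∀ j, i + 5 ≤ j → g j = []) :
    (List.range n).flatMap g =
      g i ++ (g (i + 1) ++ (g (i + 2) ++ (g (i + 3) ++ g (i + 4)))) := by
  rw [range_split h, List.flatMap_append, List.flatMap_append]
  have e1 : (List.range i).flatMap g = [] := by
    rw [List.flatMap_eq_nil_iff]
    intro j hj
    exact h1 j (List.mem_range.mp hj)
  have e2 : ((List.range (n - i - 5)).map (fun t => i + 5 + t)).flatMap g = [] := by
    rw [List.flatMap_eq_nil_iff]
    intro j hj
    rw [List.mem_map] at hj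
    obtain ⟨t, -, rfl⟩ := hj
    exact h2 _ (by omega)
  have e3 : (List.range 5).map (fun t => i + t) = [i, i + 1, i + 2, i + 3, i + 4] := by
    simp [List.range_succ]
  rw [e1, e2, e3]
  simp [List.flatMap_cons]

lemma body_psi {N i : ℕ} (hi : i ≤ N) : (body N).flatMap (psi i) = tail i := by
  rw [body_flatMap]
  rcases Nat.mod_two_eq_zero_or_one i with h | h
  · have hg : ∀ j, (blk N j).flatMap (psi i) =
      (if i + 1 ≤ j ∧ j ≤ i + 4 then [0] else []) ++ (psi i (2 * j + 1) ++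
        ((if i ≤ j ∧ j ≤ i + 2 then [0] else []) ++ (psi i (2 * j + 1) ++
      ((if i ≤ j ∧ j ≤ i + 2 then [0] else []) ++ psi i (2 * j + 1))))) := by
      intro j
      rw [blk_flatMap, bd_psi_even (by omega) h, inn_psi_even (by omega) h]
    rw [five_split (fun j => (blk N j).flatMap (psi i)) (i := i) (by omega)]
    · simp only [hg, psi_s0, psi_s1, psi_s2, psi_s3, psi_s (j := i + 4) (Or.inr le_rfl)]
      unfold tail
      rw [if_pos h]
      simp
    · intro j hj
      simp only [hg, psi_s (i := i) (j := j) (Or.inl hj)]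
      rw [if_neg (by omega), if_neg (by omega)]
      rfl
    · intro j hj
      simp only [hg, psi_s (i := i) (j := j) (Or.inr (by omega))]
      rw [if_neg (by omega), if_neg (by omega)]
      rfl
  · have hg : ∀ j, (blk N j).flatMap (psi i) =
      (if i ≤ j ∧ j ≤ i + 3 then [0] else []) ++ (psi i (2 * j + 1) ++
        ((if i + 1 ≤ j ∧ j ≤ i + 3 then [0] else []) ++ (psi i (2 * j + 1) ++
      ((if i + 1 ≤ j ∧ j ≤ i + 3 then [0] else []) ++ psi i (2 * j + 1))))) := by
      intro j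
      rw [blk_flatMap, bd_psi_odd (by omega) h, inn_psi_odd (by omega) h]
    rw [five_split (fun j => (blk N j).flatMap (psi i)) (i := i) (by omega)]
    · simp only [hg, psi_s0, psi_s1, psi_s2, psi_s3, psi_s (j := i + 4) (Or.inr le_rfl)]
      unfold tail
      rw [if_neg (show ¬ i % 2 = 0 by omega)]
      simp
    · intro j hj
      simp only [hg, psi_s (i := i) (j := j) (Or.inl hj)]
      rw [if_neg (by omega), if_neg (by omega)]
      rfl
    · intro j hj
      simp only [hg, psi_s (i := i) (j := j) (Or.inr (by omega))]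
      rw [if_neg (by omega), if_neg (by omega)]
      rfl

lemma LL_psi {N i : ℕ} (ε : ℕ → ℕ) (hi : i ≤ N) :
    (LL N ε).flatMap (psi i) = List.replicate (ε i + ε (i + 1)) 0 ++ 1 :: tail i := by
  unfold LL
  rw [List.flatMap_append, List.flatMap_cons, body_psi hi,
    gs_two ε (i := i) (by omega) (psi_Z1 i) (psi_Z2 i) (fun i' _ h1 h2 => psi_Z h1 h2)]
  rfl

lemma ok_test {i σ : ℕ} (hσ : σ ≤ 1) : Ok (List.replicate σ 0 ++ 1 :: tail i) := by
  apply ok_of_infix_T
  · unfold tail
    split_ifs <;> interval_cases σ <;> decide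
  · unfold tail
    split_ifs
    · left
      interval_cases σ <;> decide
    · right
      interval_cases σ <;> decide

end Pool.Agent.Lib.MP_09f634_al.Cex
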