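import Mathlib
import Pool.Agent.Lib.MP_09f634_al.Cex.Build

/-!
# `M(W0 ∪ {a^11})` is finitely related
-/

set_option autoImplicit false

namespace Pool.Agent.Lib.MP_09f634_al.Cex

lemma finite_WA (a : ℕ) : (WA a).Finite := finite_W0.union (Set.finite_singleton _)

open Classical in
theorem finitelyRelated_WA (a : ℕ) : FinitelyRelated (M (WA a)) := by
  have hW' := finite_WA a
  rw [finitelyRelated_iff_locallyDetermined hW']
  have hfin : Finite (M (WA a)) := finite_M hW'
  obtain ⟨L, hL⟩ := exists_bound hW'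
  obtain ⟨z, hz⟩ := exists_notMem hW'
  have h1W : (1 : Word) ∈ Subwords (WA a) :=
    Sub_mono Set.subset_union_left (one_mem_Sub W0_nonempty)
  set R0 := L + 1 with hR0
  set R := R0 + R0 * (2 * R0 + 1) + 3 * (2 * R0 + 1) + 5 with hR
  have hR0R : R0 ≤ R := by omega
  set N := Nat.card (M (WA a)) with hN
  have hNpos : 0 < N := Nat.card_pos
  refine ⟨4 + N ^ R, fun k f hk hloc => ?_⟩
  have hNR : 0 < N ^ R := Nat.pow_pos hNpos
  let F : (Fin k → List ℕ) → M (WA a) := fun V => onW f (fun i => FreeMonoid.ofList (V i))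
  have hLoc' : ∀ (P : Finset (Fin k → Word)) (Z : Finset (Fin k)), P.card ≤ 4 → Z.card ≤ R →
      ∃ l : List (Fin k), l ≠ [] ∧ (∀ w ∈ P, onW f w = cl (WA a) (ev l w)) ∧
        IsLoc F Z l := by
    intro P Z hP hZ
    obtain ⟨l, h1, h2, h3⟩ := local_words hloc P Z (by
      have : N ^ Z.card ≤ N ^ R := Nat.pow_le_pow_right hNpos hZ
      rw [← hN]
      omega)
    refine ⟨l, h1, h2, fun V hV => ?_⟩
    show onW f (fun i => FreeMonoid.ofList (V i)) = clL a (l.flatMap V)
    unfold clL
    rw [ofList_flatMap]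
    apply h3
    intro i hi
    rw [hV i hi]
    rfl
  obtain ⟨l, hl⟩ := build (F := F) (R0 := R0) (R := R) le_rfl (by
    intro Z hZ
    obtain ⟨u, -, -, hu⟩ := hLoc' ∅ Z (by simp) hZ
    exact ⟨u, hu⟩)
  -- values at supported word points
  have hloc_w : ∀ (l : List (Fin k)) (Z : Finset (Fin k)), IsLoc F Z l →
      ∀ w : Fin k → Word, (∀ i, i ∉ Z → w i = 1) → onW f w = cl (WA a) (ev l w) := by
    intro l Z hl w hw
    have h1 := hl (fun i => FreeMonoid.toList (w i)) (by
      intro i hi
      show FreeMonoid.toList (w i) = []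
      rw [hw i hi]
      rfl)
    unfold clL at h1
    rw [ofList_flatMap] at h1
    exact h1
  have hsing : ∀ (i : Fin k) (Z : Finset (Fin k)), i ∈ Z → ∀ j, j ∉ Z →
      (Pi.mulSingle i z : Fin k → Word) j = 1 := by
    intro i Z hi j hj
    have : j ≠ i := by rintro rfl; exact hj hi
    simp [Pi.mulSingle, Function.update, this]
  have hocc : ∀ (i : Fin k) (l' : List (Fin k)) (Z : Finset (Fin k)), i ∈ Z → IsLoc F Z l' →
      (i ∈ l' ↔ Occurs f z i) := by
    intro i l' Z hi hl'
    exact mem_iff_occurs hz h1W (hloc_w l' Z hl' _ (hsing i Z hi))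
  have hoccl : ∀ i : Fin k, i ∈ l ↔ Occurs f z i := fun i =>
    hocc i l {i} (Finset.mem_singleton_self i) (hl {i} (by rw [Finset.card_singleton]; omega))
  let K : Finset (Fin k) := l.toFinset
  have hK : ∀ i, i ∈ K ↔ i ∈ l := fun i => List.mem_toFinset
  have hres : ∀ w, onW f w = onW f (res K w) :=
    onW_res hloc (by omega) hz h1W K (fun i hi => (hK i).mpr ((hoccl i).mpr hi))
  have hevres : ∀ w : Fin k → Word, ev l (res K w) = ev l w := fun w =>
    ev_congr _ _ _ (fun i hi => res_apply_mem ((hK i).mpr hi))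
  have hall : ∀ w : Fin k → Word, onW f w = cl (WA a) (ev l w) := by
    intro w
    let Q : Finset (Fin k) := K.filter (fun i => w i ≠ 1)
    have hQ : ∀ i, i ∈ Q ↔ i ∈ K ∧ w i ≠ 1 := fun i => by simp [Q]
    rcases le_or_gt Q.card R0 with hQc | hQc
    · rw [hres, ← hevres]
      apply hloc_w l Q (hl Q hQc)
      intro i hi
      by_cases hiK : i ∈ K
      · rw [res_apply_mem hiK]
        by_contra hne
        exact hi ((hQ i).mpr ⟨hiK, hne⟩)
      · exact res_apply_notMem hiK
    · obtain ⟨Q', hQ'Q, hQ'c⟩ := Finset.exists_subset_card_eq hQc.le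
      obtain ⟨l1, -, hl1, hl1'⟩ := hLoc' {res K w} Q' (by simp) (by omega)
      rw [hres, hl1 _ (Finset.mem_singleton_self _)]
      apply cl_eq_of_notMem
      · intro hmem
        have h1 := hL _ hmem
        have h2 := card_le_length l1 (res K w) Q' (by
          intro i hi
          obtain ⟨hiK, hi1⟩ := (hQ i).mp (hQ'Q hi)
          refine ⟨?_, by rwa [res_apply_mem hiK]⟩
          rw [hocc i l1 Q' hi hl1', ← hoccl, ← hK]
          exact hiK)
        omega
      · intro hmem
        have h1 := hL _ hmem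
        have h2 := card_le_length l w Q' (by
          intro i hi
          obtain ⟨hiK, hi1⟩ := (hQ i).mp (hQ'Q hi)
          exact ⟨(hK i).mp hiK, hi1⟩)
        omega
  have hlne : l ≠ [] := by
    rintro hl0
    obtain ⟨l1, hl1ne, hl1, -⟩ := hLoc' {(fun _ => z)} ∅ (by simp) (by simp)
    have e1 := hl1 (fun _ => z) (by simp)
    rw [hall, hl0, ev_nil, cl_eq_iff_of_mem h1W] at e1
    obtain ⟨j, l', rfl⟩ := List.exists_cons_of_ne_nil hl1ne
    rw [ev_cons] at e1
    have e2 : z * ev l' (fun _ => z) ∈ Subwords (WA a) := by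
      rw [← e1]; exact h1W
    exact hz (Sub_left e2)
  apply isTermOp_of_list f l hlne
  intro b
  obtain ⟨w, rfl⟩ := exists_rep b
  show onW f w = ev l (fun i => cl (WA a) (w i))
  rw [← cl_ev]
  exact hall w

end Pool.Agent.Lib.MP_09f634_al.Cex
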