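import Mathlib
import Pool.Agent.Lib.MP_09f634_al.Cex.ChainMain

/-!
# `M(W0)` is not finitely related
-/

set_option autoImplicit false

namespace Pool.Agent.Lib.MP_09f634_al.Cex

/-- the choices of the free point -/
def eps (N κ i : ℕ) : ℕ :=
  if i < κ then (if i % 2 = 0 ∧ 2 ≤ i then 1 else 0) else (if i % 2 = 1 ∧ i + 1 ≤ N then 1 else 0)

/-- the visible sums -/
def sg (N i : ℕ) : ℕ := if i = 0 ∨ i = N then 0 else 1

lemma eps_sum {N κ i : ℕ} (hN : N % 2 = 0) (hκ : κ < N + 2) (hi : i + 1 < N + 2)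
    (h1 : i ≠ κ) (h2 : i + 1 ≠ κ) : eps N κ i + eps N κ (i + 1) = sg N i := by
  unfold eps sg
  split_ifs <;> omega

/-- the number of variables -/
abbrev KK (N : ℕ) : ℕ := 2 * N + 10

/-- letter codes -/
def gg (N a : ℕ) : Fin (KK N) := ⟨a % KK N, Nat.mod_lt _ (by simp only [KK]; omega)⟩

lemma gg_val {N a : ℕ} (h : a < KK N) : (gg N a).val = a := Nat.mod_eq_of_lt h

lemma LL_lt {N : ℕ} (ε : ℕ → ℕ) {a : ℕ} (h : a ∈ LL N ε) : a < KK N := by
  simp only [LL, gs, body, blk, bd, inn, List.mem_append, List.mem_cons, List.mem_flatMap,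
    List.mem_range, List.mem_map, List.mem_filter, List.mem_replicate, List.not_mem_nil,
    or_false] at h
  simp only [KK]
  rcases h with ⟨i, hi, -, rfl⟩ | rfl | ⟨j, hj, h⟩
  · omega
  · omega
  · rcases h with ⟨i, ⟨hi, -⟩, rfl⟩ | rfl | ⟨i, ⟨hi, -⟩, rfl⟩ | rfl | ⟨i, ⟨hi, -⟩, rfl⟩ | rfl <;>
      omega

/-- the terms -/
def TT (N : ℕ) (ε : ℕ → ℕ) : List (Fin (KK N)) := (LL N ε).map (gg N)

lemma TT_ne (N : ℕ) (ε : ℕ → ℕ) : TT N ε ≠ [] := by
  unfold TT LL
  simp

lemma toList_TT {N : ℕ} (ε : ℕ → ℕ) (w : Fin (KK N) → Word) :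
    FreeMonoid.toList (ev (TT N ε) w) =
      (LL N ε).flatMap (fun a => FreeMonoid.toList (w (gg N a))) := by
  unfold TT
  rw [toList_ev, List.flatMap_map]

lemma one_mem_W0 : (1 : Word) ∈ Subwords W0 := one_mem_Sub W0_nonempty

lemma cl_one_iff {v : Word} : cl W0 v = 1 ↔ v = 1 := by
  rw [← map_one (cl W0), eq_comm, cl_eq_iff_of_mem one_mem_W0, eq_comm]

lemma toList_ne {v : Word} : FreeMonoid.toList v ≠ [] ↔ v ≠ 1 := by
  constructor
  · rintro h rfl; exact h rfl
  · intro h h1
    exact h (FreeMonoid.toList.injective h1)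

lemma cl_eq_W0 {u v : Word} : cl W0 u = cl W0 v ↔ u = v ∨
    (¬ Ok (FreeMonoid.toList u) ∧ ¬ Ok (FreeMonoid.toList v)) := by
  rw [cl_eq, Sub_W0]
  rfl

/-- values for different choices agree -/
lemma TT_eq {N κ κ' : ℕ} (hN : N % 2 = 0) (hκ : κ < N + 2) (hκ' : κ' < N + 2)
    (w : Fin (KK N) → Word) (h : w (gg N (2 * κ + 2)) = 1) (h' : w (gg N (2 * κ' + 2)) = 1) :
    cl W0 (ev (TT N (eps N κ)) w) = cl W0 (ev (TT N (eps N κ')) w) := by
  rw [cl_eq_W0, toList_TT, toList_TT]
  rcases chain_main (eps N κ) (eps N κ') (fun a => FreeMonoid.toList (w (gg N a))) (by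
    intro i hi h1 h2
    rw [toList_ne] at h1 h2
    have e1 : i ≠ κ := by rintro rfl; exact h1 h
    have e2 : i + 1 ≠ κ := by rintro rfl; exact h2 h
    have e3 : i ≠ κ' := by rintro rfl; exact h1 h'
    have e4 : i + 1 ≠ κ' := by rintro rfl; exact h2 h'
    rw [eps_sum hN hκ hi e1 e2, eps_sum hN hκ' hi e3 e4]) with h1 | h1
  · left
    apply FreeMonoid.toList.injective
    rw [toList_TT, toList_TT]
    exact h1
  · exact Or.inr h1

open Classical in
/-- a trivial chain letter -/
noncomputable def kap (N : ℕ) (b : Fin (KK N) → M W0) : ℕ :=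
  if h : ∃ j, j < N + 2 ∧ b (gg N (2 * j + 2)) = 1 then Classical.choose h else 0

lemma kap_spec {N : ℕ} {b : Fin (KK N) → M W0} (h : ∃ j, j < N + 2 ∧ b (gg N (2 * j + 2)) = 1) :
    kap N b < N + 2 ∧ b (gg N (2 * kap N b + 2)) = 1 := by
  unfold kap
  rw [dif_pos h]
  exact Classical.choose_spec h

/-- the operation -/
noncomputable def ff (N : ℕ) (b : Fin (KK N) → M W0) : M W0 := ev (TT N (eps N (kap N b))) b

lemma ff_local {N r : ℕ} (hN : N % 2 = 0) (hr : 2 * r < N + 2) : LocalTerm r (ff N) := by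
  classical
  intro P
  choose w hw using fun t => exists_rep (P t)
  let X : Fin r → Finset ℕ := fun t =>
    (Finset.range (N + 2)).filter (fun i => w t (gg N (2 * i + 2)) ≠ 1)
  let U : Finset ℕ := (Finset.univ.filter (fun t => (X t).card ≤ 2)).biUnion X
  have hU : U.card ≤ 2 * r := by
    refine (Finset.card_biUnion_le_card_mul _ _ 2 ?_).trans ?_
    · intro t ht
      exact (Finset.mem_filter.mp ht).2
    · have : (Finset.univ.filter (fun t : Fin r => (X t).card ≤ 2)).card ≤ r := by
        refine (Finset.card_le_univ _).trans (by simp)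
      omega
  obtain ⟨j, hj, hjU⟩ : ∃ j ∈ Finset.range (N + 2), j ∉ U := by
    by_contra hcon
    push Not at hcon
    have := Finset.card_le_card (show Finset.range (N + 2) ⊆ U from hcon)
    rw [Finset.card_range] at this
    omega
  rw [Finset.mem_range] at hj
  obtain ⟨t0, ht0⟩ := exists_freeSemigroup (S := M W0) (TT N (eps N j)) (TT_ne _ _)
  refine ⟨t0, fun t => ?_⟩
  rw [ht0]
  change ff N (P t) = ev (TT N (eps N j)) (P t)
  unfold ff
  rcases Nat.lt_or_ge (X t).card 3 with h3 | h3
  · have h1 : w t (gg N (2 * j + 2)) = 1 := by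
      by_contra hcon
      apply hjU
      refine Finset.mem_biUnion.mpr ⟨t, ?_, ?_⟩
      · simp only [Finset.mem_filter, Finset.mem_univ, true_and]; omega
      · simp only [X, Finset.mem_filter, Finset.mem_range]
        exact ⟨hj, hcon⟩
    have hex : ∃ j, j < N + 2 ∧ P t (gg N (2 * j + 2)) = 1 := by
      refine ⟨j, hj, ?_⟩
      rw [hw t]
      simp only [h1, map_one]
    obtain ⟨k1, k2⟩ := kap_spec hex
    generalize kap N (P t) = κ at k1 k2
    rw [hw t] at k2 ⊢
    rw [← cl_ev, ← cl_ev]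
    exact TT_eq hN k1 hj (w t) (cl_one_iff.mp k2) h1
  · obtain ⟨a, ha, b, hb, c, hc, hab, hac, hbc⟩ := Finset.two_lt_card.mp h3
    simp only [X, Finset.mem_filter, Finset.mem_range] at ha hb hc
    generalize kap N (P t) = κ
    rw [hw t, ← cl_ev, ← cl_ev, cl_eq_W0, toList_TT, toList_TT]
    right
    constructor
    · exact notok_three _ ha.1 hb.1 hc.1 hab hac hbc (toList_ne.mpr ha.2) (toList_ne.mpr hb.2)
        (toList_ne.mpr hc.2)
    · exact notok_three _ ha.1 hb.1 hc.1 hab hac hbc (toList_ne.mpr ha.2) (toList_ne.mpr hb.2)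
        (toList_ne.mpr hc.2)

/-! ### It is not a term operation -/

/-- test points -/
def ww (N i : ℕ) (c : Fin (KK N)) : Word := FreeMonoid.ofList (psi i c.val)

lemma flatMap_congr' {α β : Type} {l : List α} {f g : α → List β} (h : ∀ a ∈ l, f a = g a) :
    l.flatMap f = l.flatMap g := by
  induction l with
  | nil => rfl
  | cons a l ih =>
    rw [List.flatMap_cons, List.flatMap_cons, h a (by simp), ih (fun b hb => h b (by simp [hb]))]

lemma ww_Z {N i j : ℕ} (hj : j < N + 2) :
    ww N i (gg N (2 * j + 2)) = FreeMonoid.ofList (psi i (2 * j + 2)) := by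
  unfold ww
  rw [gg_val (by simp only [KK]; omega)]

lemma ff_ww {N i : ℕ} (hN : N % 2 = 0) (h2 : 2 ≤ N) (hi : i ≤ N) :
    ff N (fun c => cl W0 (ww N i c)) =
      cl W0 (FreeMonoid.ofList (List.replicate (sg N i) 0 ++ 1 :: tail i)) := by
  have hex : ∃ j, j < N + 2 ∧ (fun c => cl W0 (ww N i c)) (gg N (2 * j + 2)) = 1 := by
    obtain ⟨j, hj, h3, h4⟩ : ∃ j, j < N + 2 ∧ j ≠ i ∧ j ≠ i + 1 := by
      rcases Nat.eq_zero_or_pos i with h | h
      · exact ⟨2, by omega, by omega, by omega⟩
      · exact ⟨0, by omega, by omega, by omega⟩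
    refine ⟨j, hj, ?_⟩
    simp only
    rw [ww_Z hj, psi_Z h3 h4]
    rfl
  obtain ⟨k1, k2⟩ := kap_spec (N := N) (b := fun c => cl W0 (ww N i c)) hex
  unfold ff
  generalize kap N (fun c => cl W0 (ww N i c)) = κ at k1 k2
  rw [cl_one_iff, ww_Z k1] at k2
  have e1 : i ≠ κ := by
    rintro rfl
    rw [psi_Z1] at k2
    have := congrArg FreeMonoid.toList k2
    simp at this
  have e2 : i + 1 ≠ κ := by
    rintro rfl
    rw [psi_Z2] at k2
    have := congrArg FreeMonoid.toList k2
    simp at this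
  rw [← cl_ev]
  congr 1
  apply FreeMonoid.toList.injective
  rw [toList_TT, FreeMonoid.toList_ofList, ← eps_sum hN k1 (by omega) e1 e2, ← LL_psi _ hi]
  apply flatMap_congr'
  intro a ha
  unfold ww
  rw [gg_val (LL_lt _ ha)]
  rfl

lemma takeWhile_flatMap {α : Type} [DecidableEq α] (l : List α) (V : α → List ℕ) (c : α)
    (hc : V c = [1]) (h : ∀ a, a ≠ c → 1 ∉ V a) :
    (l.flatMap V).takeWhile (fun b => decide (b ≠ 1)) =
      (l.takeWhile (fun a => decide (a ≠ c))).flatMap V := by
  induction l with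
  | nil => rfl
  | cons a l ih =>
    rw [List.flatMap_cons]
    by_cases hac : a = c
    · subst hac
      rw [hc]
      simp
    · rw [List.takeWhile_cons_of_pos (by simpa using hac), List.flatMap_cons,
        List.takeWhile_append_of_pos, ih]
      intro b hb
      have := h a hac
      simp only [ne_eq, decide_eq_true_eq]
      rintro rfl
      exact this hb

lemma count_flatMap_two {α : Type} [DecidableEq α] (l : List α) (V : α → List ℕ) {x y : α}
    (hxy : x ≠ y) (hx : V x = [0]) (hy : V y = [0]) (h : ∀ a, a ≠ x → a ≠ y → 0 ∉ V a) :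
    (l.flatMap V).count 0 = l.count x + l.count y := by
  induction l with
  | nil => rfl
  | cons a l ih =>
    rw [List.flatMap_cons, List.count_append, ih, List.count_cons, List.count_cons]
    by_cases hax : a = x
    · subst hax
      simp [hx, hxy]; omega
    · by_cases hay : a = y
      · subst hay
        simp [hy, hax]; omega
      · rw [List.count_eq_zero_of_not_mem (h a hax hay)]
        simp [hax, hay]

lemma psi_one {i a : ℕ} (ha : a ≠ 0) : 1 ∉ psi i a := by
  unfold psi
  rw [if_neg ha]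
  split_ifs <;> simp

lemma psi_zero {i a : ℕ} (h1 : a ≠ 2 * i + 2) (h2 : a ≠ 2 * (i + 1) + 2) : 0 ∉ psi i a := by
  unfold psi
  rw [if_neg h1, if_neg h2]
  split_ifs <;> simp

theorem ff_not_term {N : ℕ} (hN : N % 2 = 0) (h2 : 2 ≤ N) : ¬ IsTermOp (ff N) := by
  rintro ⟨t, ht⟩
  set l : List (Fin (KK N)) := t.head :: t.tail with hl
  have hev : ∀ b, ff N b = ev l b := fun b => by rw [ht, lift_eq_prod]; rfl
  have hval : ∀ i ≤ N, l.flatMap (fun c => psi i c.val) =
      List.replicate (sg N i) 0 ++ 1 :: tail i := by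
    intro i hi
    have h1 := ff_ww hN h2 hi
    rw [hev, ← cl_ev] at h1
    have hok : FreeMonoid.ofList (List.replicate (sg N i) 0 ++ 1 :: tail i) ∈ Subwords W0 := by
      rw [Sub_W0, mem_W0, FreeMonoid.toList_ofList]
      apply ok_test
      unfold sg
      split_ifs <;> omega
    rw [eq_comm, cl_eq_iff_of_mem hok] at h1
    have h3 := congrArg FreeMonoid.toList h1
    rw [toList_ev, FreeMonoid.toList_ofList] at h3
    exact h3.symm
  have h0 : (gg N 0).val = 0 := gg_val (by simp only [KK]; omega)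
  set A := l.takeWhile (fun a => decide (a ≠ gg N 0)) with hA
  have hsum : ∀ i ≤ N, A.count (gg N (2 * i + 2)) + A.count (gg N (2 * (i + 1) + 2)) =
      sg N i := by
    intro i hi
    have e1 := takeWhile_flatMap l (fun c => psi i c.val) (gg N 0) (by simp only [h0]; rfl) (by
      intro a ha
      apply psi_one
      intro h
      exact ha (Fin.ext (by rw [h, h0])))
    rw [hval i hi, List.takeWhile_append_of_pos (by
      intro b hb
      rw [List.eq_of_mem_replicate hb]
      rfl)] at e1
    have v1 : (gg N (2 * i + 2)).val = 2 * i + 2 := gg_val (by simp only [KK]; omega)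
    have v2 : (gg N (2 * (i + 1) + 2)).val = 2 * (i + 1) + 2 :=
      gg_val (by simp only [KK]; omega)
    have e2 := count_flatMap_two A (fun c => psi i c.val) (x := gg N (2 * i + 2))
      (y := gg N (2 * (i + 1) + 2)) (by
        intro h
        have := congrArg Fin.val h
        rw [v1, v2] at this
        omega) (by simp only [v1, psi_Z1]) (by simp only [v2, psi_Z2]) (by
        intro a h3 h4
        apply psi_zero
        · intro h; exact h3 (Fin.ext (by rw [h, v1]))
        · intro h; exact h4 (Fin.ext (by rw [h, v2])))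
    rw [← e2, ← e1]
    simp
  have key : ∀ i, i ≤ N → 1 ≤ i → A.count (gg N (2 * i + 2)) = if i % 2 = 0 then 1 else 0 := by
    intro i
    induction i with
    | zero => intro _ h; omega
    | succ i ih =>
      intro h3 _
      rcases Nat.eq_zero_or_pos i with h4 | h4
      · subst h4
        have := hsum 0 (by omega)
        unfold sg at this
        rw [if_pos (Or.inl rfl)] at this
        rw [if_neg (by omega)]
        omega
      · have e1 := ih (by omega) h4
        have e2 := hsum i (by omega)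
        unfold sg at e2
        rw [if_neg (by omega)] at e2
        split_ifs at e1 ⊢ <;> omega
  have e1 := key N le_rfl (by omega)
  have e2 := hsum N le_rfl
  unfold sg at e2
  rw [if_pos (Or.inr rfl)] at e2
  rw [if_pos hN] at e1
  omega

theorem not_finitelyRelated_W0 : ¬ FinitelyRelated (M W0) := by
  rw [finitelyRelated_iff_locallyDetermined finite_W0]
  rintro ⟨r, hr⟩
  exact ff_not_term (N := 2 * r + 2) (by omega) (by omega)
    (hr _ (ff (2 * r + 2)) (by simp only [KK]; omega) (ff_local (by omega) (by omega)))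

end Pool.Agent.Lib.MP_09f634_al.Cex
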